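import Pool.Agent.Lib.MP_ce3242_an.Cut

set_option autoImplicit false

open Set Filter Topology MeasureTheory
open scoped ContDiff

/-! Solution of the `∂̄` problem with the weight `kap`, and its pointwise consequences. -/

namespace Pool.Agent.Lib.MP_ce3242_an

variable {n : ℕ}

lemma continuous_yy : Continuous (yy : V n → ℝ) := contDiff_yy.continuous

lemma integrable_exp_neg_yy {c : ℝ} (hc : 0 < c) :
    Integrable fun z : V n => Real.exp (-(c * yy z)) := by
  set r : ℕ := Module.finrank ℝ (V n) + 1 with hr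
  have h1 : Integrable (fun z : V n => (1 + ‖z‖) ^ (-(r : ℝ))) := by
    apply integrable_one_add_norm
    rw [hr]; push_cast; linarith
  have h2 : Integrable (fun z : V n => ((r.factorial : ℝ) / c ^ r * Real.exp c) *
      (1 + ‖z‖) ^ (-(r : ℝ))) := h1.const_mul _
  refine h2.mono' ?_ (ae_of_all _ fun z => ?_)
  · exact (Real.continuous_exp.comp
      ((continuous_const.mul continuous_yy).neg)).aestronglyMeasurable
  · rw [Real.norm_eq_abs, abs_of_pos (Real.exp_pos _)]
    have h3 := norm_le_yy z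
    have h4 : 0 ≤ ‖z‖ := norm_nonneg z
    have h5 := Real.pow_div_factorial_le_exp (c * (1 + ‖z‖)) (by positivity) r
    have h6 : (0 : ℝ) < r.factorial := by exact_mod_cast Nat.factorial_pos r
    rw [Real.rpow_neg (by positivity), Real.rpow_natCast]
    have h7 : Real.exp (-(c * yy z)) ≤ Real.exp (-(c * ‖z‖)) := by
      apply Real.exp_le_exp.2
      nlinarith
    refine h7.trans ?_
    have h8 : Real.exp (-(c * ‖z‖)) = Real.exp c * (Real.exp (c * (1 + ‖z‖)))⁻¹ := by
      rw [← Real.exp_neg, ← Real.exp_add]; congr 1; ring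
    rw [h8]
    have h9 : (Real.exp (c * (1 + ‖z‖)))⁻¹ ≤ ((c * (1 + ‖z‖)) ^ r / r.factorial)⁻¹ := by
      apply inv_anti₀ (by positivity) h5
    calc Real.exp c * (Real.exp (c * (1 + ‖z‖)))⁻¹ ≤
        Real.exp c * ((c * (1 + ‖z‖)) ^ r / r.factorial)⁻¹ := by gcongr
      _ = _ := by rw [mul_pow]; field_simp

/-- The weight in the estimates. -/
noncomputable def Wt (g : V n → ℂ) (A δ η : ℝ) (z : V n) : ℝ :=
  Real.exp (-kap g A δ η z) / (1 + nsq z) ^ 2

lemma one_add_nsq_pos (z : V n) : 0 < 1 + nsq z := by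
  have := nsq_nonneg z; linarith

lemma Wt_pos (g : V n → ℂ) (A δ η : ℝ) (z : V n) : 0 < Wt g A δ η z := by
  have := one_add_nsq_pos z
  unfold Wt; positivity

lemma continuous_Wt {g : V n → ℂ} (hg : ContDiff ℂ ∞ g) (A δ η : ℝ) :
    Continuous (Wt g A δ η) := by
  unfold Wt
  refine Continuous.div ?_ ?_ fun z => (pow_pos (one_add_nsq_pos z) 2).ne'
  · exact Real.continuous_exp.comp (contDiff_kap hg A δ η).continuous.neg
  · exact (continuous_const.add contDiff_nsq.continuous).pow 2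

lemma nsq_eq (z : V n) : nsq z = ∑ j, ‖z j‖ ^ 2 := by
  unfold nsq; simp [Complex.normSq_eq_norm_sq]

lemma norm_sq_le_exp (g : V n → ℂ) (z : V n) : ‖g z‖ ^ 2 ≤ Real.exp (2 * xx g z) := by
  rw [← normSq_le_exp, Complex.normSq_eq_norm_sq]; linarith

/-- Solution of the `∂̄` problem. -/
theorem exists_FR {δ : ℝ} (hδ : 0 < δ) : ∃ C0 : ℝ, 0 ≤ C0 ∧
    ∀ (g : V n → ℂ) (_ : ContDiff ℂ ∞ g) (A : ℝ) (_ : δ ≤ A) (_ : ∀ z, xx g z ≤ A * yy z)
      (η : ℝ) (_ : 0 ≤ η) (_ : η ≤ 1) (R : ℝ) (_ : 1 ≤ R)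
      (_ : η * Real.log (Real.sqrt (1 + 4 * R ^ 2)) ≤ δ / (4 * (A + δ)))
      (_ : ∀ z w : V n, 0 ≤ Hormander.levi (kap g A δ η) z w),
      ∃ F : V n → ℂ, Differentiable ℂ F ∧ ContDiff ℝ ∞ F ∧
        (Integrable fun z => ‖beta g R z - F z‖ ^ 2 * Wt g A δ η z) ∧
        ∫ z, ‖beta g R z - F z‖ ^ 2 * Wt g A δ η z ≤ C0 * Real.exp (-(δ / 2 * R)) ∧
        (Integrable fun z => ‖F z‖ ^ 2 * Wt g A δ η z) ∧
        ∫ z, ‖F z‖ ^ 2 * Wt g A δ η z ≤ C0 := by
  obtain ⟨M, hM0, hM⟩ := exists_deriv_bound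
  set E1 : ℝ := ∫ z : V n, Real.exp (-(δ / 2 * yy z)) with hE1
  have hE1i : Integrable fun z : V n => Real.exp (-(δ / 2 * yy z)) :=
    integrable_exp_neg_yy (by positivity)
  have hE10 : 0 ≤ E1 := integral_nonneg fun z => (Real.exp_pos _).le
  refine ⟨2 * (n * (4 * M ^ 2) * E1) + 2 * E1, by positivity, ?_⟩
  intro g hg A hδA hA η hη hη1 R hR hηR hlevi
  have hApos : 0 < A := lt_of_lt_of_le hδ hδA
  have hR0 : 0 < R := by linarith
  -- lower bound of the weight on `|z| ≤ 2 R`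
  have hkap : ∀ z : V n, nsq z ≤ 4 * R ^ 2 → 2 * xx g z + δ * yy z ≤ kap g A δ η z := by
    intro z hz
    refine le_kap hδ hδA hη hA z (le_trans ?_ hηR)
    apply mul_le_mul_of_nonneg_left _ hη
    apply Real.log_le_log (yy_pos z)
    unfold yy
    apply Real.sqrt_le_sqrt
    linarith
  have hyyR : ∀ z : V n, R ^ 2 ≤ nsq z → R ≤ yy z := by
    intro z hz
    unfold yy
    apply Real.le_sqrt_of_sq_le
    linarith
  -- the pointwise bound on `∂̄`
  have hpt : ∀ z : V n, (∑ j, ‖Hormander.dbar j (beta g R) z‖ ^ 2) * Real.exp (-kap g A δ η z) ≤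
      (n * (4 * M ^ 2) * Real.exp (-(δ / 2 * R))) * Real.exp (-(δ / 2 * yy z)) := by
    intro z
    by_cases hz : R ^ 2 ≤ nsq z ∧ nsq z ≤ 4 * R ^ 2
    · have h1 : ∀ j, ‖Hormander.dbar j (beta g R) z‖ ^ 2 ≤ 4 * M ^ 2 * Real.exp (2 * xx g z) := by
        intro j
        have h2 := norm_dbar_beta_le hg hM hR j z
        rw [if_pos hz] at h2
        calc _ ≤ (2 * M * ‖g z‖) ^ 2 := by gcongr
          _ = 4 * M ^ 2 * ‖g z‖ ^ 2 := by ring
          _ ≤ _ := by gcongr; exact norm_sq_le_exp g z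
      have h2 : ∑ j, ‖Hormander.dbar j (beta g R) z‖ ^ 2 ≤
          n * (4 * M ^ 2 * Real.exp (2 * xx g z)) := by
        calc _ ≤ ∑ j : Fin n, 4 * M ^ 2 * Real.exp (2 * xx g z) := Finset.sum_le_sum fun j _ => h1 j
          _ = _ := by simp
      have h3 : Real.exp (-kap g A δ η z) ≤ Real.exp (-(2 * xx g z)) *
          (Real.exp (-(δ / 2 * R)) * Real.exp (-(δ / 2 * yy z))) := by
        rw [← Real.exp_add, ← Real.exp_add]
        apply Real.exp_le_exp.2
        have h4 := hkap z hz.2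
        have h5 := hyyR z hz.1
        nlinarith
      calc _ ≤ (n * (4 * M ^ 2 * Real.exp (2 * xx g z))) * (Real.exp (-(2 * xx g z)) *
          (Real.exp (-(δ / 2 * R)) * Real.exp (-(δ / 2 * yy z)))) := by gcongr
        _ = (n * (4 * M ^ 2) * Real.exp (-(δ / 2 * R))) * Real.exp (-(δ / 2 * yy z)) *
            (Real.exp (2 * xx g z) * Real.exp (-(2 * xx g z))) := by ring
        _ = _ := by rw [← Real.exp_add, add_neg_cancel, Real.exp_zero, mul_one]
    · have h1 : ∀ j, ‖Hormander.dbar j (beta g R) z‖ ^ 2 = 0 := by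
        intro j
        have h2 := norm_dbar_beta_le hg hM hR j z
        rw [if_neg hz] at h2
        have h3 := norm_nonneg (Hormander.dbar j (beta g R) z)
        have h4 : ‖Hormander.dbar j (beta g R) z‖ = 0 := le_antisymm h2 h3
        rw [h4]; norm_num
      rw [Finset.sum_eq_zero fun j _ => h1 j, zero_mul]
      positivity
  have hcont : Continuous fun z => (∑ j, ‖Hormander.dbar j (beta g R) z‖ ^ 2) *
      Real.exp (-kap g A δ η z) := by
    refine Continuous.mul ?_ (Real.continuous_exp.comp (contDiff_kap hg A δ η).continuous.neg)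
    refine continuous_finsetSum _ fun j _ => ?_
    have h1 : Continuous (Hormander.dbar j (beta g R)) := by
      rw [Hormander.dbar_eq]
      exact (Hormander.contDiff_D (contDiff_beta hg R)).continuous
    exact h1.norm.pow 2
  have hdom : Integrable fun z : V n => (n * (4 * M ^ 2) * Real.exp (-(δ / 2 * R))) *
      Real.exp (-(δ / 2 * yy z)) := hE1i.const_mul _
  have hnn : ∀ z, 0 ≤ (∑ j, ‖Hormander.dbar j (beta g R) z‖ ^ 2) * Real.exp (-kap g A δ η z) :=
    fun z => mul_nonneg (Finset.sum_nonneg fun _ _ => by positivity) (Real.exp_pos _).le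
  have hint : Integrable fun z => (∑ j, ‖Hormander.dbar j (beta g R) z‖ ^ 2) *
      Real.exp (-kap g A δ η z) := by
    refine hdom.mono' hcont.aestronglyMeasurable (ae_of_all _ fun z => ?_)
    rw [Real.norm_eq_abs, abs_of_nonneg (hnn z)]
    exact hpt z
  obtain ⟨F, hF1, hF2, hF3, hF4⟩ := Hormander.exists_entire (kap g A δ η) (contDiff_kap hg A δ η)
    hlevi (beta g R) (contDiff_beta hg R) hint
  have heq : (fun z => ‖beta g R z - F z‖ ^ 2 * Real.exp (-kap g A δ η z) /
      (1 + ∑ j, ‖z j‖ ^ 2) ^ 2) = fun z => ‖beta g R z - F z‖ ^ 2 * Wt g A δ η z := by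
    funext z
    rw [Wt, nsq_eq, mul_div_assoc]
  rw [heq] at hF3 hF4
  have hJ : ∫ z, ‖beta g R z - F z‖ ^ 2 * Wt g A δ η z ≤
      n * (4 * M ^ 2) * E1 * Real.exp (-(δ / 2 * R)) := by
    refine hF4.trans ?_
    calc _ ≤ ∫ z : V n, (n * (4 * M ^ 2) * Real.exp (-(δ / 2 * R))) *
        Real.exp (-(δ / 2 * yy z)) := integral_mono hint hdom hpt
      _ = _ := by rw [integral_const_mul]; ring
  -- the norm of `β`
  have hbeta : ∀ z, ‖beta g R z‖ ^ 2 * Wt g A δ η z ≤ Real.exp (-(δ / 2 * yy z)) := by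
    intro z
    by_cases hz : nsq z ≤ 4 * R ^ 2
    · have h1 : ‖beta g R z‖ ^ 2 ≤ Real.exp (2 * xx g z) := by
        refine le_trans ?_ (norm_sq_le_exp g z)
        have : ‖beta g R z‖ ≤ ‖g z‖ := by
          unfold beta
          rw [norm_mul, Complex.norm_real, Real.norm_eq_abs, abs_of_nonneg (chi_nonneg R z)]
          have := chi_le_one R z
          nlinarith [norm_nonneg (g z)]
        gcongr
      have h2 : Wt g A δ η z ≤ Real.exp (-(2 * xx g z)) * Real.exp (-(δ / 2 * yy z)) := by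
        have h3 : Wt g A δ η z ≤ Real.exp (-kap g A δ η z) := by
          unfold Wt
          apply div_le_self (Real.exp_pos _).le
          have := nsq_nonneg z
          nlinarith
        refine h3.trans ?_
        rw [← Real.exp_add]
        apply Real.exp_le_exp.2
        have h4 := hkap z hz
        have h5 := yy_pos z
        nlinarith
      calc _ ≤ Real.exp (2 * xx g z) * (Real.exp (-(2 * xx g z)) *
          Real.exp (-(δ / 2 * yy z))) := by
            have := (Wt_pos g A δ η z).le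
            gcongr
        _ = Real.exp (-(δ / 2 * yy z)) * (Real.exp (2 * xx g z) * Real.exp (-(2 * xx g z))) := by
            ring
        _ = _ := by rw [← Real.exp_add, add_neg_cancel, Real.exp_zero, mul_one]
    · have h1 : beta g R z = 0 := by
        unfold beta
        rw [chi_eq_zero hR0 (not_le.1 hz).le]; simp
      rw [h1]
      simp only [norm_zero]
      have := Real.exp_pos (-(δ / 2 * yy z))
      have h2 := Wt_pos g A δ η z
      nlinarith
  have hbetai : Integrable fun z => ‖beta g R z‖ ^ 2 * Wt g A δ η z := by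
    refine hE1i.mono' ?_ (ae_of_all _ fun z => ?_)
    · exact (((contDiff_beta hg R).continuous.norm.pow 2).mul
        (continuous_Wt hg A δ η)).aestronglyMeasurable
    · rw [Real.norm_eq_abs, abs_of_nonneg (mul_nonneg (by positivity) (Wt_pos _ _ _ _ _).le)]
      exact hbeta z
  have hbetaI : ∫ z, ‖beta g R z‖ ^ 2 * Wt g A δ η z ≤ E1 := integral_mono hbetai hE1i hbeta
  -- the norm of `F`
  have hFpt : ∀ z, ‖F z‖ ^ 2 * Wt g A δ η z ≤ 2 * (‖beta g R z - F z‖ ^ 2 * Wt g A δ η z) +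
      2 * (‖beta g R z‖ ^ 2 * Wt g A δ η z) := by
    intro z
    have h1 : ‖F z‖ ≤ ‖beta g R z - F z‖ + ‖beta g R z‖ := by
      calc ‖F z‖ = ‖beta g R z - (beta g R z - F z)‖ := by congr 1; ring
        _ ≤ _ := by rw [add_comm]; exact norm_sub_le _ _
    have h2 : ‖F z‖ ^ 2 ≤ 2 * ‖beta g R z - F z‖ ^ 2 + 2 * ‖beta g R z‖ ^ 2 := by
      nlinarith [norm_nonneg (F z), sq_nonneg (‖beta g R z - F z‖ - ‖beta g R z‖)]
    have h3 := Wt_pos g A δ η z
    nlinarith
  have hFdom : Integrable fun z => 2 * (‖beta g R z - F z‖ ^ 2 * Wt g A δ η z) +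
      2 * (‖beta g R z‖ ^ 2 * Wt g A δ η z) := (hF3.const_mul 2).add (hbetai.const_mul 2)
  have hFi : Integrable fun z => ‖F z‖ ^ 2 * Wt g A δ η z := by
    refine hFdom.mono' ?_ (ae_of_all _ fun z => ?_)
    · exact ((hF1.continuous.norm.pow 2).mul (continuous_Wt hg A δ η)).aestronglyMeasurable
    · rw [Real.norm_eq_abs, abs_of_nonneg (mul_nonneg (by positivity) (Wt_pos _ _ _ _ _).le)]
      exact hFpt z
  have hexp1 : Real.exp (-(δ / 2 * R)) ≤ 1 := Real.exp_le_one_iff.2 (by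
    have : 0 ≤ δ / 2 * R := by positivity
    linarith)
  have hnM : 0 ≤ (n : ℝ) * (4 * M ^ 2) * E1 := by positivity
  refine ⟨F, hF1, hF2, hF3, ?_, hFi, ?_⟩
  · refine hJ.trans ?_
    gcongr
    linarith
  · calc ∫ z, ‖F z‖ ^ 2 * Wt g A δ η z ≤ ∫ z, (2 * (‖beta g R z - F z‖ ^ 2 * Wt g A δ η z) +
      2 * (‖beta g R z‖ ^ 2 * Wt g A δ η z)) := integral_mono hFi hFdom hFpt
      _ = 2 * (∫ z, ‖beta g R z - F z‖ ^ 2 * Wt g A δ η z) +
          2 * (∫ z, ‖beta g R z‖ ^ 2 * Wt g A δ η z) := by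
          rw [integral_add (hF3.const_mul 2) (hbetai.const_mul 2), integral_const_mul,
            integral_const_mul]
      _ ≤ 2 * (n * (4 * M ^ 2) * E1 * 1) + 2 * E1 := by
          have : n * (4 * M ^ 2) * E1 * Real.exp (-(δ / 2 * R)) ≤ n * (4 * M ^ 2) * E1 * 1 := by
            gcongr
          linarith
      _ = _ := by ring

end Pool.Agent.Lib.MP_ce3242_an
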