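import Pool.Agent.Lib.MP_ce3242_an.Approx

set_option autoImplicit false

open Set Filter Topology MeasureTheory
open scoped ContDiff

/-! Pointwise bounds for the solutions and approximation by polynomials. -/

namespace Pool.Agent.Lib.MP_ce3242_an

variable {n : ℕ}

lemma one_add_nsq_sq_le {δ : ℝ} (hδ : 0 < δ) (z : V n) :
    (1 + nsq z) ^ 2 ≤ 24 / (4 * δ) ^ 4 * Real.exp (4 * δ * yy z) := by
  have h1 := Real.pow_div_factorial_le_exp (4 * δ * yy z) (by have := yy_pos z; positivity) 4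
  have h2 : (1 + nsq z) ^ 2 = yy z ^ 4 := by rw [← yy_sq]; ring
  have h3 : ((4 : ℕ).factorial : ℝ) = 24 := by norm_num [Nat.factorial]
  rw [h3] at h1
  rw [h2]
  calc yy z ^ 4 = 24 / (4 * δ) ^ 4 * ((4 * δ * yy z) ^ 4 / 24) := by
        rw [mul_pow]; field_simp
    _ ≤ _ := by gcongr

lemma l1_le_of_mem {z w : V n} (hw : w ∈ Metric.closedBall z 1) : l1 w ≤ l1 z + n := by
  have h1 : ∀ j, ‖w j‖ ≤ ‖z j‖ + 1 := by
    intro j
    have h2 : ‖w j - z j‖ ≤ 1 := by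
      have h3 : ‖w - z‖ ≤ 1 := by rwa [← mem_closedBall_iff_norm]
      exact (norm_le_pi_norm (w - z) j).trans h3
    calc ‖w j‖ = ‖z j + (w j - z j)‖ := by congr 1; ring
      _ ≤ ‖z j‖ + ‖w j - z j‖ := norm_add_le _ _
      _ ≤ _ := by gcongr
  unfold l1
  calc ∑ j, ‖w j‖ ≤ ∑ j, (‖z j‖ + 1) := Finset.sum_le_sum fun j _ => h1 j
    _ = _ := by simp [Finset.sum_add_distrib]

lemma nsq_le_l1_sq (z : V n) : nsq z ≤ l1 z ^ 2 := by
  unfold nsq l1
  simp only [Complex.normSq_eq_norm_sq]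
  exact Finset.sum_sq_le_sq_sum_of_nonneg fun _ _ => norm_nonneg _

lemma yy_le_of_mem {z w : V n} (hw : w ∈ Metric.closedBall z 1) : yy w ≤ 1 + n + l1 z := by
  have h1 := yy_le_l1 w
  have h2 := l1_le_of_mem hw
  linarith

/-- To bound by a multiple of the weight. -/
lemma le_mul_Wt {g : V n → ℂ} {A δ η : ℝ} {z : V n} {X Q : ℝ} (hX : 0 ≤ X)
    (h : X * Real.exp (kap g A δ η z) * (24 / (4 * δ) ^ 4 * Real.exp (4 * δ * yy z)) ≤ Q)
    (hδ : 0 < δ) : X ≤ Q * Wt g A δ η z := by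
  have h1 := one_add_nsq_pos z
  have h2 := one_add_nsq_sq_le hδ z
  unfold Wt
  rw [← mul_div_assoc, le_div_iff₀ (by positivity)]
  have h3 : X * Real.exp (kap g A δ η z) * (1 + nsq z) ^ 2 ≤ Q := by
    refine le_trans ?_ h
    gcongr
  have h4 := Real.exp_pos (-kap g A δ η z)
  calc X * (1 + nsq z) ^ 2 = (X * Real.exp (kap g A δ η z) * (1 + nsq z) ^ 2) *
      Real.exp (-kap g A δ η z) := by
        rw [Real.exp_neg]; field_simp
    _ ≤ Q * Real.exp (-kap g A δ η z) := by gcongr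

section

variable {φ g : V n → ℂ} {H : V n → ℝ} {L C1 A δ η : ℝ}

/-- Uniform bound for `φ F`. -/
lemma P1 (hφ : Differentiable ℂ φ)
    (hH : ∀ z w, w ∈ Metric.closedBall z 1 → H w ≤ H z + L)
    (hb1 : ∀ z, ‖φ z‖ ≤ C1 * Real.exp (H z)) (hb2 : ∀ z, ‖φ z * g z‖ ≤ C1 * Real.exp (H z))
    (hδ : 0 < δ) (hδA : δ ≤ A) (hη : 0 ≤ η) (hA : ∀ z, xx g z ≤ A * yy z)
    (hCC : CC A δ * η ≤ δ) {C0 : ℝ} {F : V n → ℂ} (hF : Differentiable ℂ F)
    (hint : Integrable fun z => ‖F z‖ ^ 2 * Wt g A δ η z)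
    (hI : ∫ z, ‖F z‖ ^ 2 * Wt g A δ η z ≤ C0) (z : V n) :
    ‖φ z * F z‖ ^ 2 ≤ (volume.real (Metric.closedBall (0 : V n) 1))⁻¹ *
      ((2 * C1 ^ 2 * (24 / (4 * δ) ^ 4) * Real.exp (2 * L + 8 * δ * (1 + n)) *
        Real.exp (2 * H z + 8 * δ * l1 z)) * C0) := by
  refine pointwise_bound hF hφ (fun z => (Wt_pos g A δ η z).le) hint hI (by positivity) z ?_
  intro w hw
  refine le_mul_Wt (by positivity) ?_ hδ
  have h1 := normSq_mul_exp_kap_le hδ hδA hη hA φ w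
  have h2 : ‖φ w‖ ^ 2 + ‖φ w * g w‖ ^ 2 ≤ 2 * C1 ^ 2 * Real.exp (2 * H w) := by
    have e : Real.exp (2 * H w) = Real.exp (H w) ^ 2 := by rw [← Real.exp_nat_mul]; norm_num
    have h3 : ‖φ w‖ ^ 2 ≤ (C1 * Real.exp (H w)) ^ 2 := by gcongr; exact hb1 w
    have h4 : ‖φ w * g w‖ ^ 2 ≤ (C1 * Real.exp (H w)) ^ 2 := by gcongr; exact hb2 w
    rw [e]; nlinarith
  have hy := yy_pos w
  have h5 : Real.exp (2 * (δ + CC A δ * η) * yy w) ≤ Real.exp (4 * δ * yy w) := by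
    apply Real.exp_le_exp.2
    nlinarith
  have h6 : ‖φ w‖ ^ 2 * Real.exp (kap g A δ η w) ≤
      2 * C1 ^ 2 * Real.exp (2 * H w) * Real.exp (4 * δ * yy w) := by
    refine h1.trans ?_
    gcongr
  have h7 : Real.exp (2 * H w) * Real.exp (4 * δ * yy w) * Real.exp (4 * δ * yy w) ≤
      Real.exp (2 * L + 8 * δ * (1 + n)) * Real.exp (2 * H z + 8 * δ * l1 z) := by
    rw [← Real.exp_add, ← Real.exp_add, ← Real.exp_add]
    apply Real.exp_le_exp.2
    have h8 := hH z w hw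
    have h9 := yy_le_of_mem hw
    nlinarith
  calc _ ≤ (2 * C1 ^ 2 * Real.exp (2 * H w) * Real.exp (4 * δ * yy w)) *
      (24 / (4 * δ) ^ 4 * Real.exp (4 * δ * yy w)) := by gcongr
    _ = 2 * C1 ^ 2 * (24 / (4 * δ) ^ 4) *
        (Real.exp (2 * H w) * Real.exp (4 * δ * yy w) * Real.exp (4 * δ * yy w)) := by ring
    _ ≤ 2 * C1 ^ 2 * (24 / (4 * δ) ^ 4) *
        (Real.exp (2 * L + 8 * δ * (1 + n)) * Real.exp (2 * H z + 8 * δ * l1 z)) := by gcongr
    _ = _ := by ring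

/-- Bound for `F`. -/
lemma P3 (hδ : 0 < δ) (hδA : δ ≤ A) (hη : 0 < η) (hA : ∀ z, xx g z ≤ A * yy z)
    (hCC : CC A δ * η ≤ δ) {C0 : ℝ} {F : V n → ℂ} (hF : Differentiable ℂ F)
    (hint : Integrable fun z => ‖F z‖ ^ 2 * Wt g A δ η z)
    (hI : ∫ z, ‖F z‖ ^ 2 * Wt g A δ η z ≤ C0) :
    ∃ C : ℝ, ∀ z : V n, ‖F z‖ ≤ C * Real.exp (4 * δ * l1 z) := by
  obtain ⟨c, hc⟩ := kap_le' hδ hδA hη hA hδ
  have h1 : ∀ z : V n, ‖(1 : ℂ) * F z‖ ^ 2 ≤ (volume.real (Metric.closedBall (0 : V n) 1))⁻¹ *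
      ((24 / (4 * δ) ^ 4 * Real.exp (c + 8 * δ * (1 + n)) * Real.exp (8 * δ * l1 z)) * C0) := by
    intro z
    refine pointwise_bound (φ := fun _ => 1) hF (differentiable_const _)
      (fun z => (Wt_pos g A δ η z).le) hint hI (by positivity) z ?_
    intro w hw
    refine le_mul_Wt (by positivity) ?_ hδ
    have h3 := hc w
    have hy := yy_pos w
    have h4 : kap g A δ η w ≤ 4 * δ * yy w + c := by nlinarith
    have h5 : Real.exp (kap g A δ η w) ≤ Real.exp (4 * δ * yy w + c) := Real.exp_le_exp.2 h4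
    have h7 : Real.exp (4 * δ * yy w + c) * Real.exp (4 * δ * yy w) ≤
        Real.exp (c + 8 * δ * (1 + n)) * Real.exp (8 * δ * l1 z) := by
      rw [← Real.exp_add, ← Real.exp_add]
      apply Real.exp_le_exp.2
      have h9 := yy_le_of_mem hw
      nlinarith
    calc _ ≤ (‖(1 : ℂ)‖ ^ 2 * Real.exp (4 * δ * yy w + c)) *
        (24 / (4 * δ) ^ 4 * Real.exp (4 * δ * yy w)) := by gcongr
      _ = 24 / (4 * δ) ^ 4 * (Real.exp (4 * δ * yy w + c) * Real.exp (4 * δ * yy w)) := by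
          simp; ring
      _ ≤ 24 / (4 * δ) ^ 4 * (Real.exp (c + 8 * δ * (1 + n)) * Real.exp (8 * δ * l1 z)) := by
          gcongr
      _ = _ := by ring
  refine ⟨Real.sqrt ((volume.real (Metric.closedBall (0 : V n) 1))⁻¹ *
      ((24 / (4 * δ) ^ 4 * Real.exp (c + 8 * δ * (1 + n))) * C0)), fun z => ?_⟩
  have h2 := h1 z
  rw [one_mul] at h2
  have h3 := Real.le_sqrt_of_sq_le h2
  refine h3.trans (le_of_eq ?_)
  have e : Real.exp (8 * δ * l1 z) = Real.exp (4 * δ * l1 z) ^ 2 := by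
    rw [← Real.exp_nat_mul]; congr 1; push_cast; ring
  rw [show (volume.real (Metric.closedBall (0 : V n) 1))⁻¹ *
      ((24 / (4 * δ) ^ 4 * Real.exp (c + 8 * δ * (1 + n)) * Real.exp (8 * δ * l1 z)) * C0) =
      Real.exp (4 * δ * l1 z) ^ 2 * ((volume.real (Metric.closedBall (0 : V n) 1))⁻¹ *
      ((24 / (4 * δ) ^ 4 * Real.exp (c + 8 * δ * (1 + n))) * C0)) by rw [e]; ring,
    Real.sqrt_mul (by positivity), Real.sqrt_sq (Real.exp_pos _).le, mul_comm]

/-- `F` is close to `g` on a ball. -/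
lemma P2 (hg : ContDiff ℂ ∞ g) (hδ : 0 < δ) (hδA : δ ≤ A) (hη : 0 ≤ η)
    (hA : ∀ z, xx g z ≤ A * yy z)
    (hCC : CC A δ * η ≤ δ) {J R ρ : ℝ} (hR : 0 < R) {F : V n → ℂ} (hF : Differentiable ℂ F)
    (hint : Integrable fun z => ‖beta g R z - F z‖ ^ 2 * Wt g A δ η z)
    (hI : ∫ z, ‖beta g R z - F z‖ ^ 2 * Wt g A δ η z ≤ J) (hρR : ρ + n ≤ R) (z : V n)
    (hz : l1 z ≤ ρ) :
    ‖g z - F z‖ ^ 2 ≤ (volume.real (Metric.closedBall (0 : V n) 1))⁻¹ *
      ((24 / (4 * δ) ^ 4 * Real.exp ((2 * A + 8 * δ) * (1 + n + ρ))) * J) := by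
  have hApos : 0 < A := lt_of_lt_of_le hδ hδA
  set S : Set (V n) := {w | nsq w ≤ R ^ 2} with hS
  have hSm : MeasurableSet S := (isClosed_le contDiff_nsq.continuous continuous_const).measurableSet
  have heq : ∀ w, ‖g w - F w‖ ^ 2 * S.indicator (Wt g A δ η) w =
      S.indicator (fun z => ‖beta g R z - F z‖ ^ 2 * Wt g A δ η z) w := by
    intro w
    by_cases hw : w ∈ S
    · rw [indicator_of_mem hw, indicator_of_mem hw]
      unfold beta
      rw [chi_eq_one hR hw]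
      simp
    · rw [indicator_of_notMem hw, indicator_of_notMem hw, mul_zero]
  have hint' : Integrable fun w => ‖g w - F w‖ ^ 2 * S.indicator (Wt g A δ η) w := by
    simp only [heq]
    exact hint.indicator hSm
  have hI' : ∫ w, ‖g w - F w‖ ^ 2 * S.indicator (Wt g A δ η) w ≤ J := by
    simp only [heq]
    refine le_trans ?_ hI
    refine integral_mono (hint.indicator hSm) hint fun w => ?_
    refine indicator_le_self' (fun w _ => ?_) w
    have := (Wt_pos g A δ η w).le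
    positivity
  have hW : ∀ w, 0 ≤ S.indicator (Wt g A δ η) w := fun w =>
    indicator_nonneg (fun w _ => (Wt_pos g A δ η w).le) w
  have h1 := pointwise_bound (φ := fun _ => 1) ((hg.differentiable (by simp)).sub hF)
    (differentiable_const _) hW hint' hI'
    (Q := 24 / (4 * δ) ^ 4 * Real.exp ((2 * A + 8 * δ) * (1 + n + ρ))) (by positivity) z ?_
  · simpa using h1
  · intro w hw
    have hl := l1_le_of_mem hw
    have hl0 := l1_nonneg w
    have hwS : w ∈ S := by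
      have h2 := nsq_le_l1_sq w
      have h3 : l1 w ≤ R := by linarith
      have h4 : l1 w ^ 2 ≤ R ^ 2 := by gcongr
      exact h2.trans h4
    rw [indicator_of_mem hwS]
    refine le_mul_Wt (by positivity) ?_ hδ
    have hy := yy_pos w
    have h3 : kap g A δ η w ≤ (2 * A + 4 * δ) * yy w := by
      have h4 := kap_le hδ hδA hη hA w
      have h5 := hA w
      nlinarith
    have h5 : Real.exp (kap g A δ η w) ≤ Real.exp ((2 * A + 4 * δ) * yy w) := Real.exp_le_exp.2 h3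
    have h7 : Real.exp ((2 * A + 4 * δ) * yy w) * Real.exp (4 * δ * yy w) ≤
        Real.exp ((2 * A + 8 * δ) * (1 + n + ρ)) := by
      rw [← Real.exp_add]
      apply Real.exp_le_exp.2
      have h9 : yy w ≤ 1 + n + ρ := by have := yy_le_of_mem hw; linarith
      nlinarith
    calc _ ≤ (‖(1 : ℂ)‖ ^ 2 * Real.exp ((2 * A + 4 * δ) * yy w)) *
        (24 / (4 * δ) ^ 4 * Real.exp (4 * δ * yy w)) := by gcongr
      _ = 24 / (4 * δ) ^ 4 * (Real.exp ((2 * A + 4 * δ) * yy w) * Real.exp (4 * δ * yy w)) := by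
          simp; ring
      _ ≤ _ := by gcongr

end

end Pool.Agent.Lib.MP_ce3242_an
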