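import Pool.Agent.Lib.MP_ce3242_an.Approx2

set_option autoImplicit false

open Set Filter Topology MeasureTheory
open scoped ContDiff

/-! Approximation by polynomials. -/

namespace Pool.Agent.Lib.MP_ce3242_an

variable {n : ℕ}

/-- The choice of `η`. -/
noncomputable def etaR (A δ R : ℝ) : ℝ :=
  δ / (4 * (A + δ)) / (1 + Real.log (Real.sqrt (1 + 4 * R ^ 2)))

lemma log_sqrt_nonneg (R : ℝ) : 0 ≤ Real.log (Real.sqrt (1 + 4 * R ^ 2)) := by
  apply Real.log_nonneg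
  apply Real.le_sqrt_of_sq_le
  nlinarith [sq_nonneg R]

lemma etaR_pos {A δ : ℝ} (hδ : 0 < δ) (hδA : δ ≤ A) (R : ℝ) : 0 < etaR A δ R := by
  have h1 := log_sqrt_nonneg R
  have hA : 0 < A := lt_of_lt_of_le hδ hδA
  unfold etaR
  positivity

lemma etaR_le_one {A δ : ℝ} (hδ : 0 < δ) (hδA : δ ≤ A) (R : ℝ) : etaR A δ R ≤ 1 := by
  have h1 := log_sqrt_nonneg R
  have hA : 0 < A := lt_of_lt_of_le hδ hδA
  unfold etaR
  rw [div_div, div_le_one (by positivity)]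
  have h2 : 0 ≤ (A + δ) * Real.log (Real.sqrt (1 + 4 * R ^ 2)) := by positivity
  nlinarith

lemma etaR_mul_log {A δ : ℝ} (hδ : 0 < δ) (hδA : δ ≤ A) (R : ℝ) :
    etaR A δ R * Real.log (Real.sqrt (1 + 4 * R ^ 2)) ≤ δ / (4 * (A + δ)) := by
  have h1 := log_sqrt_nonneg R
  have hA : 0 < A := lt_of_lt_of_le hδ hδA
  unfold etaR
  rw [div_mul_eq_mul_div, div_le_iff₀ (by positivity)]
  have h2 : 0 < δ / (4 * (A + δ)) := by positivity
  nlinarith

lemma tendsto_etaR (A δ : ℝ) : Tendsto (etaR A δ) atTop (𝓝 0) := by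
  unfold etaR
  have h1 : Tendsto (fun R : ℝ => 1 + Real.log (Real.sqrt (1 + 4 * R ^ 2))) atTop atTop := by
    apply tendsto_atTop_add_const_left
    apply Real.tendsto_log_atTop.comp
    apply tendsto_atTop_mono (f := fun R : ℝ => R)
    · intro R
      apply Real.le_sqrt_of_sq_le
      nlinarith [sq_nonneg R]
    · exact tendsto_id
  exact h1.const_div_atTop _

theorem exists_poly {φ g : V n → ℂ} (hφ : Differentiable ℂ φ) (hg : ContDiff ℂ ∞ g)
    (hlevi : ∀ A δ η : ℝ, 0 < δ → δ ≤ A → 0 ≤ η → η ≤ 1 → (∀ z, xx g z ≤ A * yy z) →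
      ∀ z w : V n, 0 ≤ Hormander.levi (kap g A δ η) z w)
    (hcd : ∀ F : V n → ℂ, Differentiable ℂ F → ContDiff ℝ ∞ F → ContDiff ℂ ∞ F)
    {H : V n → ℝ} {L C1 : ℝ} (hH : ∀ z w, w ∈ Metric.closedBall z 1 → H w ≤ H z + L)
    (hb1 : ∀ z, ‖φ z‖ ≤ C1 * Real.exp (H z)) (hb2 : ∀ z, ‖φ z * g z‖ ≤ C1 * Real.exp (H z))
    {A0 : ℝ} (hA0 : ∀ z, xx g z ≤ A0 * yy z) {Δ : ℝ} (hΔ : 0 < Δ) {ε : ℝ} (hε : 0 < ε) :
    ∃ P : MvPolynomial (Fin n) ℂ, ∀ z,
      ‖φ z * (g z - MvPolynomial.eval z P)‖ ≤ ε * Real.exp (H z + Δ * l1 z) := by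
  have hC1 : 0 ≤ C1 := by
    have h1 := (norm_nonneg _).trans (hb1 0)
    exact nonneg_of_mul_nonneg_left h1 (Real.exp_pos _)
  set δ := Δ / 8 with hδdef
  have hδ : 0 < δ := by positivity
  set A := max A0 δ with hAdef
  have hδA : δ ≤ A := le_max_right _ _
  have hApos : 0 < A := lt_of_lt_of_le hδ hδA
  have hA : ∀ z, xx g z ≤ A * yy z := fun z => (hA0 z).trans (by
    have := yy_pos z
    gcongr
    exact le_max_left _ _)
  obtain ⟨C0, hC0, hFR⟩ := exists_FR (n := n) hδ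
  set v : ℝ := (volume.real (Metric.closedBall (0 : V n) 1))⁻¹ with hv
  have hv0 : 0 < v := inv_pos.2 volume_ball_pos
  set K4 : ℝ := 24 / (4 * δ) ^ 4 with hK4
  have hK40 : 0 < K4 := by positivity
  set C3 : ℝ := Real.sqrt (v * ((2 * C1 ^ 2 * K4 * Real.exp (2 * L + 8 * δ * (1 + n))) * C0))
    with hC3
  have hC30 : 0 ≤ C3 := Real.sqrt_nonneg _
  -- choice of `ρ`
  obtain ⟨ρ, hρ0, hρ⟩ : ∃ ρ : ℝ, 0 ≤ ρ ∧ (C1 + C3) * Real.exp (-(4 * δ * ρ)) ≤ ε / 2 := by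
    have h1 : Tendsto (fun ρ : ℝ => (C1 + C3) * Real.exp (-(4 * δ * ρ))) atTop (𝓝 ((C1 + C3) * 0)) := by
      apply Tendsto.const_mul
      apply Real.tendsto_exp_neg_atTop_nhds_zero.comp
      exact tendsto_id.const_mul_atTop (by positivity)
    rw [mul_zero] at h1
    have h2 : ∀ᶠ ρ : ℝ in atTop, (C1 + C3) * Real.exp (-(4 * δ * ρ)) < ε / 2 :=
      h1.eventually (gt_mem_nhds (by positivity))
    obtain ⟨ρ, hρ1, hρ2⟩ := (h2.and (eventually_ge_atTop 0)).exists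
    exact ⟨ρ, hρ2, hρ1.le⟩
  -- choice of `R`
  set K5 : ℝ := v * (K4 * Real.exp ((2 * A + 8 * δ) * (1 + n + ρ)) * C0) with hK5
  have hK50 : 0 ≤ K5 := by positivity
  obtain ⟨R, hR1, hRρ, hRη, hRε⟩ : ∃ R : ℝ, 1 ≤ R ∧ ρ + n ≤ R ∧ CC A δ * etaR A δ R ≤ δ ∧
      C1 * Real.sqrt (K5 * Real.exp (-(δ / 2 * R))) ≤ ε / 2 := by
    have h1 : Tendsto (fun R : ℝ => C1 * Real.sqrt (K5 * Real.exp (-(δ / 2 * R)))) atTop
        (𝓝 (C1 * Real.sqrt (K5 * 0))) := by
      apply Tendsto.const_mul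
      apply (Real.continuous_sqrt.tendsto _).comp
      apply Tendsto.const_mul
      apply Real.tendsto_exp_neg_atTop_nhds_zero.comp
      exact tendsto_id.const_mul_atTop (by positivity)
    rw [mul_zero, Real.sqrt_zero, mul_zero] at h1
    have h2 : ∀ᶠ R : ℝ in atTop, C1 * Real.sqrt (K5 * Real.exp (-(δ / 2 * R))) < ε / 2 :=
      h1.eventually (gt_mem_nhds (by positivity))
    have h3 : Tendsto (fun R : ℝ => CC A δ * etaR A δ R) atTop (𝓝 (CC A δ * 0)) :=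
      (tendsto_etaR A δ).const_mul _
    rw [mul_zero] at h3
    have h4 : ∀ᶠ R : ℝ in atTop, CC A δ * etaR A δ R < δ := h3.eventually (gt_mem_nhds hδ)
    obtain ⟨R, ⟨⟨hR1, hR2⟩, hR3⟩, hR4⟩ := (((h2.and h4).and (eventually_ge_atTop 1)).and
      (eventually_ge_atTop (ρ + n))).exists
    exact ⟨R, hR3, hR4, hR2.le, hR1.le⟩
  set η := etaR A δ R with hη
  have hη0 : 0 < η := etaR_pos hδ hδA R
  have hη1 : η ≤ 1 := etaR_le_one hδ hδA R
  obtain ⟨F, hF1, hF2, hF3, hF4, hF5, hF6⟩ := hFR g hg A hδA hA η hη0.le hη1 R hR1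
    (etaR_mul_log hδ hδA R) (hlevi A δ η hδ hδA hη0.le hη1 hA)
  -- the Taylor polynomial
  obtain ⟨CR, hCR⟩ := P3 hδ hδA hη0 hA hRη hF1 hF5 hF6
  have hCR0 : 0 ≤ CR := by
    have h1 := (norm_nonneg _).trans (hCR 0)
    exact nonneg_of_mul_nonneg_left h1 (Real.exp_pos _)
  obtain ⟨M, hM⟩ : ∃ M : ℕ, C1 * (2 * CR * (1 / 2) ^ M) ≤ ε / 2 := by
    have h1 : Tendsto (fun M : ℕ => C1 * (2 * CR * (1 / 2 : ℝ) ^ M)) atTop
        (𝓝 (C1 * (2 * CR * 0))) := by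
      apply Tendsto.const_mul
      apply Tendsto.const_mul
      exact tendsto_pow_atTop_nhds_zero_of_lt_one (by norm_num) (by norm_num)
    rw [mul_zero, mul_zero] at h1
    have h2 : ∀ᶠ M : ℕ in atTop, C1 * (2 * CR * (1 / 2 : ℝ) ^ M) < ε / 2 :=
      h1.eventually (gt_mem_nhds (by positivity))
    obtain ⟨M, hM⟩ := h2.exists
    exact ⟨M, hM.le⟩
  obtain ⟨P, hP⟩ := exists_poly_approx (hcd F hF1 hF2) hCR M
  refine ⟨P, fun z => ?_⟩
  have hl := l1_nonneg z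
  have hgF : ‖φ z * (g z - F z)‖ ≤ ε / 2 * Real.exp (H z + Δ * l1 z) := by
    rcases le_or_gt (l1 z) ρ with hz | hz
    · have h1 := P2 hg hδ hδA hη0.le hA hRη (by linarith) hF1 hF3 hF4 hRρ z hz
      have h2 := Real.le_sqrt_of_sq_le h1
      have h3 : Real.sqrt (v * (K4 * Real.exp ((2 * A + 8 * δ) * (1 + n + ρ)) *
          (C0 * Real.exp (-(δ / 2 * R))))) = Real.sqrt (K5 * Real.exp (-(δ / 2 * R))) := by
        rw [hK5]; congr 1; ring
      rw [h3] at h2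
      rw [norm_mul]
      calc ‖φ z‖ * ‖g z - F z‖ ≤ (C1 * Real.exp (H z)) *
          Real.sqrt (K5 * Real.exp (-(δ / 2 * R))) := by
            have := hb1 z
            gcongr
        _ = (C1 * Real.sqrt (K5 * Real.exp (-(δ / 2 * R)))) * Real.exp (H z) := by ring
        _ ≤ ε / 2 * Real.exp (H z + Δ * l1 z) := by
            gcongr
            have : 0 ≤ Δ * l1 z := by positivity
            linarith
    · have h1 := P1 hφ hH hb1 hb2 hδ hδA hη0.le hA hRη hF1 hF5 hF6 z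
      have h2 := Real.le_sqrt_of_sq_le h1
      have e : Real.exp (2 * H z + 8 * δ * l1 z) = Real.exp (H z + 4 * δ * l1 z) ^ 2 := by
        rw [← Real.exp_nat_mul]; congr 1; push_cast; ring
      have h3 : Real.sqrt (v * ((2 * C1 ^ 2 * K4 * Real.exp (2 * L + 8 * δ * (1 + n)) *
          Real.exp (2 * H z + 8 * δ * l1 z)) * C0)) = Real.exp (H z + 4 * δ * l1 z) * C3 := by
        rw [show v * ((2 * C1 ^ 2 * K4 * Real.exp (2 * L + 8 * δ * (1 + n)) *
          Real.exp (2 * H z + 8 * δ * l1 z)) * C0) = Real.exp (H z + 4 * δ * l1 z) ^ 2 *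
          (v * ((2 * C1 ^ 2 * K4 * Real.exp (2 * L + 8 * δ * (1 + n))) * C0)) by rw [e]; ring,
          Real.sqrt_mul (by positivity), Real.sqrt_sq (Real.exp_pos _).le]
      rw [h3] at h2
      have h4 : ‖φ z * (g z - F z)‖ ≤ (C1 + C3) * Real.exp (H z + 4 * δ * l1 z) := by
        calc ‖φ z * (g z - F z)‖ = ‖φ z * g z - φ z * F z‖ := by congr 1; ring
          _ ≤ ‖φ z * g z‖ + ‖φ z * F z‖ := norm_sub_le _ _
          _ ≤ C1 * Real.exp (H z) + Real.exp (H z + 4 * δ * l1 z) * C3 := add_le_add (hb2 z) h2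
          _ ≤ C1 * Real.exp (H z + 4 * δ * l1 z) + Real.exp (H z + 4 * δ * l1 z) * C3 := by
              gcongr
              have : 0 ≤ 4 * δ * l1 z := by positivity
              linarith
          _ = _ := by ring
      have h5 : Real.exp (H z + 4 * δ * l1 z) ≤ Real.exp (-(4 * δ * ρ)) *
          Real.exp (H z + Δ * l1 z) := by
        rw [← Real.exp_add]
        apply Real.exp_le_exp.2
        have h6 : Δ = 8 * δ := by rw [hδdef]; ring
        rw [h6]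
        nlinarith
      calc _ ≤ (C1 + C3) * Real.exp (H z + 4 * δ * l1 z) := h4
        _ ≤ (C1 + C3) * (Real.exp (-(4 * δ * ρ)) * Real.exp (H z + Δ * l1 z)) := by gcongr
        _ = ((C1 + C3) * Real.exp (-(4 * δ * ρ))) * Real.exp (H z + Δ * l1 z) := by ring
        _ ≤ _ := by gcongr
  have hFP : ‖φ z * (F z - MvPolynomial.eval z P)‖ ≤ ε / 2 * Real.exp (H z + Δ * l1 z) := by
    have h1 := hP z
    rw [norm_mul]
    calc ‖φ z‖ * ‖F z - MvPolynomial.eval z P‖ ≤ (C1 * Real.exp (H z)) *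
        (2 * CR * (1 / 2) ^ M * Real.exp (2 * (4 * δ) * l1 z)) := by
          have := hb1 z
          gcongr
      _ = (C1 * (2 * CR * (1 / 2) ^ M)) * (Real.exp (H z) * Real.exp (2 * (4 * δ) * l1 z)) := by
          ring
      _ ≤ ε / 2 * (Real.exp (H z) * Real.exp (2 * (4 * δ) * l1 z)) := by gcongr
      _ = ε / 2 * Real.exp (H z + Δ * l1 z) := by
          rw [← Real.exp_add]; congr 3; rw [hδdef]; ring
  calc ‖φ z * (g z - MvPolynomial.eval z P)‖ =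
      ‖φ z * (g z - F z) + φ z * (F z - MvPolynomial.eval z P)‖ := by congr 1; ring
    _ ≤ _ := norm_add_le _ _
    _ ≤ ε / 2 * Real.exp (H z + Δ * l1 z) + ε / 2 * Real.exp (H z + Δ * l1 z) :=
        add_le_add hgF hFP
    _ = _ := by ring

end Pool.Agent.Lib.MP_ce3242_an
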