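import Pool.Agent.Lib.MP_ce3242_an.CFPoint

set_option autoImplicit false

open Set Filter Topology MeasureTheory Metric
open scoped ContDiff

/-!
# The Cauchy-Fantappie bound

If an analytic functional `T` is carried by the convex compact set `K` and its Laplace transform is
bounded by `ε e^{h_K}`, then `|T f| ≤ C ε sup_{K'} |f|` where `C` and the compact set `K'` depend
only on `K` and `Ω`.
-/

namespace Pool.Agent.Lib.MP_ce3242_an.CF

/-- Restriction to a compact set. -/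
noncomputable def res {n : ℕ} {Ω K : Set (V n)} (hKΩ : K ⊆ Ω) : Hol Ω →ₗ[ℂ] C(K, ℂ) where
  toFun f := ⟨fun ξ => ev f ⟨ξ, hKΩ ξ.2⟩, by
    obtain ⟨F, hF, hf⟩ := exists_analytic f
    have h : (fun ξ : K => ev f ⟨ξ, hKΩ ξ.2⟩) = F ∘ ((↑) : K → V n) := funext fun ξ => hf _
    rw [h]
    exact hF.continuousOn.comp_continuous continuous_subtype_val fun x => hKΩ x.2⟩
  map_add' _ _ := rfl
  map_smul' _ _ := rfl

lemma res_apply {n : ℕ} {Ω K : Set (V n)} (hKΩ : K ⊆ Ω) (f : Hol Ω) (ξ : K) :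
    res hKΩ f ξ = ev f ⟨ξ, hKΩ ξ.2⟩ := rfl

/-- A linear functional which is bounded through a linear map factors continuously. -/
lemma exists_factor {E F : Type*} [AddCommGroup E] [Module ℂ E] [NormedAddCommGroup F]
    [NormedSpace ℂ F] (r : E →ₗ[ℂ] F) (T : E →ₗ[ℂ] ℂ) (A : ℝ) (hb : ∀ f, ‖T f‖ ≤ A * ‖r f‖) :
    ∃ T' : StrongDual ℂ F, ∀ f, T' (r f) = T f := by
  have hker : LinearMap.ker r ≤ LinearMap.ker T := by
    intro f hf
    have hf0 : r f = 0 := hf
    have := hb f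
    rw [hf0, norm_zero, mul_zero] at this
    exact norm_le_zero_iff.1 this
  set L : LinearMap.range r →ₗ[ℂ] ℂ :=
    ((LinearMap.ker r).liftQ T hker).comp r.quotKerEquivRange.symm.toLinearMap with hL
  have hLf : ∀ f : E, L ⟨r f, LinearMap.mem_range_self _ f⟩ = T f := by
    intro f
    have := LinearMap.quotKerEquivRange_symm_apply_image r f (LinearMap.mem_range_self _ f)
    change ((LinearMap.ker r).liftQ T hker)
      (r.quotKerEquivRange.symm ⟨r f, LinearMap.mem_range_self _ f⟩) = T f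
    rw [this]
    rfl
  have hLb : ∀ x : LinearMap.range r, ‖L x‖ ≤ A * ‖x‖ := by
    rintro ⟨x, f, rfl⟩
    rw [hLf f]
    exact hb f
  obtain ⟨T', hT', -⟩ := exists_extension_norm_eq (LinearMap.range r) (L.mkContinuous A hLb)
  refine ⟨T', fun f => ?_⟩
  have := hT' ⟨r f, LinearMap.mem_range_self _ f⟩
  rw [LinearMap.mkContinuous_apply, hLf] at this
  exact this

/-- A functional carried by `K` extends to `C(K, ℂ)`. -/
lemma exists_ext {n : ℕ} {Ω K : Set (V n)} [CompactSpace K] (hKΩ : K ⊆ Ω) (T : HolDual Ω)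
    (hT : Carried T K) : ∃ T' : StrongDual ℂ C(K, ℂ), ∀ f : Hol Ω, T' (res hKΩ f) = T f := by
  obtain ⟨A, hA⟩ := hT
  exact exists_factor (E := Hol Ω) (F := C(K, ℂ)) (res hKΩ)
    { toFun := fun f => T f, map_add' := fun f g => map_add T f g,
      map_smul' := fun c f => map_smul T c f } A
    fun f => hA f _ fun ξ hξ => (res hKΩ f).norm_coe_le_norm ⟨ξ, hξ⟩

/-- The exponentials in `C(K, ℂ)`. -/
noncomputable def expC {n : ℕ} (K : Set (V n)) (z : V n) : C(K, ℂ) :=
  ⟨fun ξ => Complex.exp (pair z ξ),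
    Complex.continuous_exp.comp ((continuous_pair_right z).comp continuous_subtype_val)⟩

lemma continuous_expC {n : ℕ} (K : Set (V n)) : Continuous (expC K) := by
  refine ContinuousMap.continuous_of_continuous_uncurry _ ?_
  change Continuous fun p : V n × K => Complex.exp (pair p.1 p.2)
  unfold pair
  refine Complex.continuous_exp.comp (continuous_finsetSum _ fun j _ => ?_)
  exact ((continuous_apply j).comp continuous_fst).mul
    ((continuous_apply j).comp (continuous_subtype_val.comp continuous_snd))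

lemma res_expHol {n : ℕ} {Ω K : Set (V n)} (hKΩ : K ⊆ Ω) (z : V n) :
    res hKΩ (expHol Ω z) = expC K z := rfl

/-- The weight `s^{n-1} e^{-s}` is integrable. -/
lemma integrable_weight (m : ℕ) :
    Integrable (fun s : ℝ => s ^ m * Real.exp (-s)) (volume.restrict (Ioi 0)) := by
  have h := Real.GammaIntegral_convergent (s := (m : ℝ) + 1) (by positivity)
  refine (h.congr_fun (fun s hs => ?_) measurableSet_Ioi)
  have hs0 : (0 : ℝ) < s := hs
  simp only [add_sub_cancel_right, Real.rpow_natCast]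
  ring

lemma pair_smul_real {n : ℕ} (s : ℝ) (q x : V n) : pair ((s : ℂ) • q) x = (s : ℂ) * pair q x :=
  pair_smul_left _ _ _

theorem cf_bound_pos {n : ℕ} (hn : 0 < n) {Ω : Set (V n)} (hΩ : IsOpen Ω) {K : Set (V n)}
    (hK : IsCompact K) (hKc : Convex ℝ K) (hKn : K.Nonempty) (hKΩ : K ⊆ Ω) :
    ∃ K' : Set (V n), IsCompact K' ∧ K' ⊆ Ω ∧ ∃ C : ℝ, 0 ≤ C ∧ ∀ T : HolDual Ω, Carried T K →
      ∀ ε : ℝ, 0 ≤ ε → ExpBound (laplace T) K ε →
        ∀ f : Hol Ω, ∀ M : ℝ, (∀ ξ : Ω, (ξ : V n) ∈ K' → ‖ev f ξ‖ ≤ M) →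
          ‖T f‖ ≤ C * ε * M := by
  obtain ⟨χ, χ₁, q, K', hK'c, hK'Ω, hKK', hχ, h2, h3, h4⟩ := exists_data hΩ hK hKc hKn hKΩ
  set κ₀ : V n → ℝ := fun w => ∑ a, ‖(db a χ : V n → ℂ) w‖ * ‖(XX q a : V n → ℂ) w‖ with hκ₀
  have hκ₀nn : ∀ w, 0 ≤ κ₀ w := fun w => Finset.sum_nonneg fun a _ => by positivity
  have hdχ : ∀ a w, w ∉ K' → (db a χ : V n → ℂ) w = 0 := by
    intro a w hw
    have h0 : (χ : V n → ℂ) =ᶠ[𝓝 w] ((0 : Sm n) : V n → ℂ) := by
      filter_upwards [hK'c.isClosed.isOpen_compl.mem_nhds hw] with y hy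
      exact hχ y hy
    rw [db_congr a χ 0 w h0, map_zero]
    rfl
  have hκ₀cont : Continuous κ₀ := by
    have hc : ∀ a, Continuous (db a χ : V n → ℂ) := fun a => sm_cont _
    have hX : ∀ a, Continuous (XX q a : V n → ℂ) := fun a => sm_cont _
    rw [hκ₀]
    fun_prop
  have hκ₀int : Integrable κ₀ := by
    refine hκ₀cont.integrable_of_hasCompactSupport ?_
    refine HasCompactSupport.of_support_subset_isCompact hK'c ?_
    intro w hw
    by_contra h
    apply hw
    rw [hκ₀]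
    simp [hdχ _ w h]
  set μ : Measure (ℝ × V n) := (volume.restrict (Ioi (0 : ℝ))).prod (volume : Measure (V n)) with hμ
  have hae : ∀ᵐ p ∂μ, 0 < p.1 :=
    (Measure.quasiMeasurePreserving_fst).ae (ae_restrict_mem measurableSet_Ioi)
  set W : ℝ := ∫ p, (p.1 ^ (n - 1) * Real.exp (-p.1)) * κ₀ p.2 ∂μ with hW
  have hWint : Integrable (fun p : ℝ × V n => (p.1 ^ (n - 1) * Real.exp (-p.1)) * κ₀ p.2) μ :=
    (integrable_weight (n - 1)).mul_prod hκ₀int
  have hW0 : 0 ≤ W := by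
    refine integral_nonneg_of_ae ?_
    filter_upwards [hae] with p hp
    have := hκ₀nn p.2
    simp only [Pi.zero_apply]
    positivity
  have hgc : 0 < gc n := gc_pos n
  refine ⟨K', hK'c, hK'Ω, (gc n)⁻¹ * W, by positivity, ?_⟩
  intro T hT ε hε hTε f M hM
  have : CompactSpace K := isCompact_iff_compactSpace.1 hK
  obtain ⟨F, hF, hfF⟩ := exists_analytic f
  obtain ⟨u, hu, hdu⟩ := exists_cut hK'c.isClosed hK'Ω χ hχ F hF
  obtain ⟨T', hT'⟩ := exists_ext hKΩ T hT
  -- the density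
  have hκ : ∀ w, ‖kap u q w‖ ≤ M * κ₀ w := by
    intro w
    rw [kap, norm_neg]
    refine (norm_sum_le _ _).trans ?_
    rw [hκ₀, Finset.mul_sum]
    refine Finset.sum_le_sum fun a _ => ?_
    rw [norm_mul, hdu, norm_mul]
    by_cases hw : w ∈ K'
    · have h5 : ‖F w‖ ≤ M := by
        have := hM ⟨w, hK'Ω hw⟩ hw
        rwa [hfF] at this
      calc ‖(db a χ : V n → ℂ) w‖ * ‖F w‖ * ‖(XX q a : V n → ℂ) w‖
          ≤ ‖(db a χ : V n → ℂ) w‖ * M * ‖(XX q a : V n → ℂ) w‖ := by gcongr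
        _ = _ := by ring
    · rw [hdχ a w hw]
      simp
  -- where the density lives
  have hpos : ∀ w, kap u q w ≠ 0 → ∀ ξ ∈ K,
      1 ≤ (pair (fun j => (q j : V n → ℂ) w) (w - ξ)).re := by
    intro w hw
    rcases h4 w with h | ⟨-, h⟩
    · exfalso
      apply hw
      rw [kap]
      have h0 : ∀ a, (db a u : V n → ℂ) w = 0 := by
        intro a
        rw [hdu, db_congr a χ 1 w h, Derivation.map_one_eq_zero]
        change (0 : ℂ) * F w = 0
        rw [zero_mul]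
      simp [h0]
    · exact h
  set qv : V n → V n := fun w j => (q j : V n → ℂ) w with hqv
  have hqvc : Continuous qv := continuous_pi fun j => sm_cont (q j)
  set H : ℝ × V n → C(K, ℂ) := fun p =>
    (((p.1 ^ (n - 1) : ℝ) : ℂ) * (kap u q p.2 * Complex.exp (-(p.1 : ℂ) * pair (qv p.2) p.2))) •
      expC K ((p.1 : ℂ) • qv p.2) with hH
  have hHapp : ∀ (p : ℝ × V n) (ξ : K), H p ξ = ((p.1 ^ (n - 1) : ℝ) : ℂ) * (kap u q p.2 *
      Complex.exp (-(p.1 : ℂ) * pair (qv p.2) (p.2 - ξ))) := by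
    intro p ξ
    rw [hH]
    simp only [ContinuousMap.smul_apply, smul_eq_mul]
    change _ * Complex.exp (pair ((p.1 : ℂ) • qv p.2) ξ) = _
    rw [pair_smul_real, pair_sub, mul_assoc, mul_assoc, ← Complex.exp_add]
    congr 3
    ring
  have hHcont : Continuous H := by
    have h5 : Continuous fun p : ℝ × V n => pair (qv p.2) p.2 := by
      unfold pair
      refine continuous_finsetSum _ fun j _ => ?_
      exact ((continuous_apply j).comp (hqvc.comp continuous_snd)).mul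
        ((continuous_apply j).comp continuous_snd)
    have h6 : Continuous fun p : ℝ × V n => expC K ((p.1 : ℂ) • qv p.2) :=
      (continuous_expC K).comp ((Complex.continuous_ofReal.comp continuous_fst).smul
        (hqvc.comp continuous_snd))
    have h7 : Continuous fun p : ℝ × V n => kap u q p.2 :=
      (continuous_kap u q).comp continuous_snd
    have h8 : Continuous fun p : ℝ × V n => (((p.1 ^ (n - 1) : ℝ) : ℂ) *
        (kap u q p.2 * Complex.exp (-(p.1 : ℂ) * pair (qv p.2) p.2))) := by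
      fun_prop
    exact h8.smul h6
  -- norms
  have hexp : ∀ (s : ℝ) (w : V n) (ξ : V n), 0 < s → ξ ∈ K → kap u q w ≠ 0 →
      ‖Complex.exp (-(s : ℂ) * pair (qv w) (w - ξ))‖ ≤ Real.exp (-s) := by
    intro s w ξ hs hξ hw
    rw [Complex.norm_exp]
    have h5 : (-(s : ℂ) * pair (qv w) (w - ξ)).re = -(s * (pair (qv w) (w - ξ)).re) := by simp
    rw [h5, Real.exp_le_exp]
    have := hpos w hw ξ hξ
    nlinarith
  have hHb : ∀ᵐ p ∂μ, ‖H p‖ ≤ M * ((p.1 ^ (n - 1) * Real.exp (-p.1)) * κ₀ p.2) := by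
    filter_upwards [hae] with p hp
    have hM0 : 0 ≤ M * ((p.1 ^ (n - 1) * Real.exp (-p.1)) * κ₀ p.2) := by
      have h6 : 0 ≤ M * κ₀ p.2 := (norm_nonneg _).trans (hκ p.2)
      have h7 : M * ((p.1 ^ (n - 1) * Real.exp (-p.1)) * κ₀ p.2) =
        (p.1 ^ (n - 1) * Real.exp (-p.1)) * (M * κ₀ p.2) := by ring
      rw [h7]
      positivity
    rw [ContinuousMap.norm_le _ hM0]
    intro ξ
    rw [hHapp]
    by_cases hk : kap u q p.2 = 0
    · rw [hk, zero_mul, mul_zero, norm_zero]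
      exact hM0
    · rw [norm_mul, norm_mul, Complex.norm_real, Real.norm_of_nonneg (pow_nonneg hp.le _)]
      calc p.1 ^ (n - 1) * (‖kap u q p.2‖ * ‖Complex.exp (-(p.1 : ℂ) *
            pair (qv p.2) (p.2 - ξ))‖)
          ≤ p.1 ^ (n - 1) * ((M * κ₀ p.2) * Real.exp (-p.1)) := by
            have h8 := hexp p.1 p.2 ξ hp ξ.2 hk
            have h9 := hκ p.2
            have h10 : 0 ≤ M * κ₀ p.2 := (norm_nonneg _).trans h9
            gcongr
        _ = _ := by ring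
  have hHint : Integrable H μ := by
    refine Integrable.mono' (hWint.const_mul M) hHcont.aestronglyMeasurable hHb
  -- the representation
  have hrep : ∫ p, H p ∂μ = (gc n : ℂ) • res hKΩ f := by
    ext ξ
    have h5 : (∫ p, H p ∂μ) ξ = ∫ p, H p ξ ∂μ := by
      have := ContinuousLinearMap.integral_comp_comm
        (ContinuousMap.evalCLM ℂ ξ : C(K, ℂ) →L[ℂ] ℂ) hHint
      exact this.symm
    rw [h5]
    have h6 : Integrable (fun p => H p ξ) μ :=
      (ContinuousMap.evalCLM ℂ ξ : C(K, ℂ) →L[ℂ] ℂ).integrable_comp hHint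
    rw [hμ, integral_prod _ h6]
    have h7 : Integrable (fun s : ℝ => ∫ w, H (s, w) ξ) (volume.restrict (Ioi 0)) :=
      h6.integral_prod_left
    simp only [hHapp] at h7 ⊢
    have hr := rep (K := K) hn hK'c χ χ₁ q hχ (ξ : V n) (h2 ξ ξ.2) (fun w => h3 w ξ ξ.2) h4 u F
      hu hdu h7
    rw [hqv]
    rw [hr]
    rw [ContinuousMap.smul_apply, res_apply, smul_eq_mul, hfF, mul_comm]
  -- apply the functional
  have hTf : (gc n : ℂ) * T f = ∫ p, T' (H p) ∂μ := by
    have h5 := ContinuousLinearMap.integral_comp_comm T' hHint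
    rw [h5, hrep, map_smul, hT', smul_eq_mul]
  have hTH : ∀ᵐ p ∂μ, ‖T' (H p)‖ ≤
      (ε * M) * ((p.1 ^ (n - 1) * Real.exp (-p.1)) * κ₀ p.2) := by
    filter_upwards [hae] with p hp
    have h5 : T' (H p) = (((p.1 ^ (n - 1) : ℝ) : ℂ) * (kap u q p.2 *
        Complex.exp (-(p.1 : ℂ) * pair (qv p.2) p.2))) * laplace T ((p.1 : ℂ) • qv p.2) := by
      rw [hH]
      simp only []
      rw [map_smul, ← res_expHol hKΩ, hT', smul_eq_mul]
      rfl
    have hMκ : 0 ≤ M * κ₀ p.2 := (norm_nonneg _).trans (hκ p.2)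
    by_cases hk : kap u q p.2 = 0
    · rw [h5, hk, zero_mul, mul_zero, zero_mul, norm_zero]
      have h7 : (ε * M) * ((p.1 ^ (n - 1) * Real.exp (-p.1)) * κ₀ p.2) =
        ε * (p.1 ^ (n - 1) * Real.exp (-p.1)) * (M * κ₀ p.2) := by ring
      rw [h7]
      positivity
    · have h6 : ‖laplace T ((p.1 : ℂ) • qv p.2)‖ ≤
          ε * Real.exp (p.1 * ((pair (qv p.2) p.2).re - 1)) := by
        refine hTε _ _ fun ξ hξ => ?_
        rw [pair_smul_real, Complex.re_ofReal_mul]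
        have h7 := hpos p.2 hk ξ hξ
        rw [pair_sub, Complex.sub_re] at h7
        have h8 : (pair (qv p.2) ξ).re ≤ (pair (qv p.2) p.2).re - 1 := by
          have : 1 ≤ (pair (qv p.2) p.2).re - (pair (qv p.2) ξ).re := h7
          linarith
        exact mul_le_mul_of_nonneg_left h8 hp.le
      rw [h5, norm_mul, norm_mul, norm_mul, Complex.norm_real,
        Real.norm_of_nonneg (pow_nonneg hp.le _), Complex.norm_exp]
      have h9 : (-(p.1 : ℂ) * pair (qv p.2) p.2).re = -(p.1 * (pair (qv p.2) p.2).re) := by simp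
      rw [h9]
      have h10 : Real.exp (-(p.1 * (pair (qv p.2) p.2).re)) *
          Real.exp (p.1 * ((pair (qv p.2) p.2).re - 1)) = Real.exp (-p.1) := by
        rw [← Real.exp_add]; congr 1; ring
      calc p.1 ^ (n - 1) * (‖kap u q p.2‖ * Real.exp (-(p.1 * (pair (qv p.2) p.2).re))) *
            ‖laplace T ((p.1 : ℂ) • qv p.2)‖
          ≤ p.1 ^ (n - 1) * ((M * κ₀ p.2) * Real.exp (-(p.1 * (pair (qv p.2) p.2).re))) *
            (ε * Real.exp (p.1 * ((pair (qv p.2) p.2).re - 1))) := by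
            have h11 := hκ p.2
            gcongr
        _ = (ε * M) * (p.1 ^ (n - 1) * κ₀ p.2) * (Real.exp (-(p.1 * (pair (qv p.2) p.2).re)) *
          Real.exp (p.1 * ((pair (qv p.2) p.2).re - 1))) := by ring
        _ = _ := by rw [h10]; ring
  have hfinal : ‖(gc n : ℂ) * T f‖ ≤ (ε * M) * W := by
    rw [hTf, hW, ← integral_const_mul]
    exact norm_integral_le_of_norm_le (hWint.const_mul _) hTH
  rw [norm_mul, Complex.norm_real, Real.norm_of_nonneg hgc.le] at hfinal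
  calc ‖T f‖ = (gc n)⁻¹ * (gc n * ‖T f‖) := by field_simp
    _ ≤ (gc n)⁻¹ * ((ε * M) * W) := by gcongr
    _ = (gc n)⁻¹ * W * ε * M := by ring

end Pool.Agent.Lib.MP_ce3242_an.CF

namespace Pool.Agent.Lib.MP_ce3242_an

/-- **The Cauchy-Fantappie bound.** -/
theorem cf_bound {n : ℕ} {Ω : Set (V n)} (hΩ : IsOpen Ω) {K : Set (V n)}
    (hK : IsCompact K) (hKc : Convex ℝ K) (hKn : K.Nonempty) (hKΩ : K ⊆ Ω) :
    ∃ K' : Set (V n), IsCompact K' ∧ K' ⊆ Ω ∧ ∃ C : ℝ, 0 ≤ C ∧ ∀ T : HolDual Ω, Carried T K →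
      ∀ ε : ℝ, 0 ≤ ε → ExpBound (laplace T) K ε →
        ∀ f : Hol Ω, ∀ M : ℝ, (∀ ξ : Ω, (ξ : V n) ∈ K' → ‖ev f ξ‖ ≤ M) →
          ‖T f‖ ≤ C * ε * M := by
  rcases Nat.eq_zero_or_pos n with rfl | hn
  · obtain ⟨ξ₀, hξ₀⟩ := hKn
    refine ⟨K, hK, hKΩ, 1, zero_le_one, ?_⟩
    intro T hT ε hε hTε f M hM
    have hf : f = (ev f ⟨ξ₀, hKΩ hξ₀⟩) • expHol Ω (0 : V 0) := by
      refine hol_ext fun ξ => ?_
      have h1 : ξ = ⟨ξ₀, hKΩ hξ₀⟩ := Subtype.ext (Subsingleton.elim _ _)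
      rw [ev_smul, expHol_apply, h1]
      simp [pair]
    have h2 : ‖laplace T 0‖ ≤ ε * Real.exp 0 := hTε 0 0 fun ξ _ => by simp [pair]
    rw [Real.exp_zero, mul_one] at h2
    have h3 := hM ⟨ξ₀, hKΩ hξ₀⟩ hξ₀
    rw [hf, map_smul, norm_smul, one_mul, mul_comm]
    exact mul_le_mul h2 h3 (norm_nonneg _) hε
  · exact CF.cf_bound_pos hn hΩ hK hKc hKn hKΩ

end Pool.Agent.Lib.MP_ce3242_an
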