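import Mathlib

set_option autoImplicit false

open Set Filter Topology
open scoped UniformConvergence

/-!
# The spaces `H(Ω)`, `H'(Ω)` and the Laplace transform
-/

namespace Pool.Agent.Lib.MP_ce3242_an

/-- `ℂⁿ`. -/
abbrev V (n : ℕ) : Type := Fin n → ℂ

/-- The space of all functions on `Ω ⊆ ℂⁿ`, with the topology of uniform convergence on the
compact subsets of `Ω`. -/
def FunC {n : ℕ} (Ω : Set (V n)) : Type := Ω →ᵤ[{K : Set Ω | IsCompact K}] ℂ

noncomputable instance {n : ℕ} (Ω : Set (V n)) : AddCommGroup (FunC Ω) :=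
  inferInstanceAs (AddCommGroup (Ω →ᵤ[{K : Set Ω | IsCompact K}] ℂ))

noncomputable instance {n : ℕ} (Ω : Set (V n)) : Module ℂ (FunC Ω) :=
  inferInstanceAs (Module ℂ (Ω →ᵤ[{K : Set Ω | IsCompact K}] ℂ))

noncomputable instance {n : ℕ} (Ω : Set (V n)) : TopologicalSpace (FunC Ω) :=
  inferInstanceAs (TopologicalSpace (Ω →ᵤ[{K : Set Ω | IsCompact K}] ℂ))

instance {n : ℕ} (Ω : Set (V n)) : IsTopologicalAddGroup (FunC Ω) :=
  inferInstanceAs (IsTopologicalAddGroup (Ω →ᵤ[{K : Set Ω | IsCompact K}] ℂ))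

/-- The value at a point of `Ω`. -/
def FunC.val {n : ℕ} {Ω : Set (V n)} (f : FunC Ω) (ξ : Ω) : ℂ :=
  UniformOnFun.toFun {K : Set Ω | IsCompact K} f ξ

/-- The subspace of the functions that are holomorphic on the open set `Ω ⊆ ℂⁿ`. -/
def holSubmodule {n : ℕ} (Ω : Set (V n)) : Submodule ℂ (FunC Ω) where
  carrier := {f | ∃ F : V n → ℂ, AnalyticOnNhd ℂ F Ω ∧ ∀ z : Ω, f.val z = F z}
  add_mem' := by
    rintro f g ⟨F, hF, hf⟩ ⟨G, hG, hg⟩
    exact ⟨F + G, hF.add hG, fun z => by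
      have : (f + g).val z = f.val z + g.val z := rfl
      rw [this]; simp [hf, hg]⟩
  zero_mem' := ⟨0, analyticOnNhd_const, fun z => rfl⟩
  smul_mem' := by
    rintro c f ⟨F, hF, hf⟩
    exact ⟨c • F, hF.const_smul, fun z => by
      have : (c • f).val z = c • f.val z := rfl
      rw [this]; simp [hf]⟩

/-- The space `H(Ω)` of holomorphic functions on the open set `Ω ⊆ ℂⁿ`, with the topology of
uniform convergence on compact subsets of `Ω`. -/
def Hol {n : ℕ} (Ω : Set (V n)) : Type := holSubmodule Ω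

noncomputable instance {n : ℕ} (Ω : Set (V n)) : AddCommGroup (Hol Ω) :=
  inferInstanceAs (AddCommGroup (holSubmodule Ω))

noncomputable instance {n : ℕ} (Ω : Set (V n)) : Module ℂ (Hol Ω) :=
  inferInstanceAs (Module ℂ (holSubmodule Ω))

noncomputable instance {n : ℕ} (Ω : Set (V n)) : TopologicalSpace (Hol Ω) :=
  inferInstanceAs (TopologicalSpace (holSubmodule Ω))

instance {n : ℕ} (Ω : Set (V n)) : IsTopologicalAddGroup (Hol Ω) :=
  inferInstanceAs (IsTopologicalAddGroup (holSubmodule Ω))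

/-- The inclusion of `H(Ω)` in the space of all functions on `Ω`. -/
def Hol.incl {n : ℕ} {Ω : Set (V n)} (f : Hol Ω) : FunC Ω := Subtype.val f

/-- The value of `f ∈ H(Ω)` at a point of `Ω`. -/
def ev {n : ℕ} {Ω : Set (V n)} (f : Hol Ω) (ξ : Ω) : ℂ := f.incl.val ξ

/-- The space `H'(Ω)` of analytic functionals on `Ω`, the continuous linear functionals on
`H(Ω)`; it carries the strong dual topology (uniform convergence on bounded subsets of `H(Ω)`),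
which is the default topology of Mathlib on spaces of continuous linear maps. -/
abbrev HolDual {n : ℕ} (Ω : Set (V n)) : Type := Hol Ω →L[ℂ] ℂ

/-- The bilinear form `(z, ξ) = ∑ z_j ξ_j`. -/
def pair {n : ℕ} (z ξ : V n) : ℂ := ∑ j, z j * ξ j

lemma continuous_pair_right {n : ℕ} (z : V n) : Continuous fun ξ : V n => pair z ξ := by
  unfold pair; fun_prop

lemma analyticAt_pair_right {n : ℕ} (z ξ : V n) : AnalyticAt ℂ (fun ξ : V n => pair z ξ) ξ := by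
  unfold pair
  refine Finset.analyticAt_fun_sum _ fun j _ => ?_
  exact analyticAt_const.mul
    ((ContinuousLinearMap.proj (R := ℂ) (φ := fun _ : Fin n => ℂ) j).analyticAt ξ)

/-- An element of the space of all functions on `Ω`. -/
def FunC.mk {n : ℕ} {Ω : Set (V n)} (f : Ω → ℂ) : FunC Ω :=
  UniformOnFun.ofFun {K : Set Ω | IsCompact K} f

/-- An element of `H(Ω)` from an analytic function. -/
def mkHol {n : ℕ} (Ω : Set (V n)) (F : V n → ℂ) (hF : AnalyticOnNhd ℂ F Ω) : Hol Ω :=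
  (⟨FunC.mk fun ξ : Ω => F ξ, F, hF, fun _ => rfl⟩ : holSubmodule Ω)

@[simp] lemma ev_mkHol {n : ℕ} (Ω : Set (V n)) (F : V n → ℂ) (hF : AnalyticOnNhd ℂ F Ω) (ξ : Ω) :
    ev (mkHol Ω F hF) ξ = F ξ := rfl

@[simp] lemma ev_add {n : ℕ} {Ω : Set (V n)} (f g : Hol Ω) (ξ : Ω) :
    ev (f + g) ξ = ev f ξ + ev g ξ := rfl

@[simp] lemma ev_smul {n : ℕ} {Ω : Set (V n)} (c : ℂ) (f : Hol Ω) (ξ : Ω) :
    ev (c • f) ξ = c * ev f ξ := rfl

@[simp] lemma ev_sub {n : ℕ} {Ω : Set (V n)} (f g : Hol Ω) (ξ : Ω) :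
    ev (f - g) ξ = ev f ξ - ev g ξ := rfl

@[simp] lemma ev_zero {n : ℕ} {Ω : Set (V n)} (ξ : Ω) : ev (0 : Hol Ω) ξ = 0 := rfl

lemma hol_ext {n : ℕ} {Ω : Set (V n)} {f g : Hol Ω} (h : ∀ ξ, ev f ξ = ev g ξ) : f = g :=
  Subtype.ext (funext h)

lemma exists_analytic {n : ℕ} {Ω : Set (V n)} (f : Hol Ω) :
    ∃ F : V n → ℂ, AnalyticOnNhd ℂ F Ω ∧ ∀ z : Ω, ev f z = F z := f.2

/-- The exponential `e^{(z, ·)}` as an element of `H(Ω)`. -/
noncomputable def expHol {n : ℕ} (Ω : Set (V n)) (z : V n) : Hol Ω :=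
  mkHol Ω (fun ξ => Complex.exp (pair z ξ)) fun ξ _ => (analyticAt_pair_right z ξ).cexp

@[simp] lemma expHol_apply {n : ℕ} (Ω : Set (V n)) (z : V n) (ξ : Ω) :
    ev (expHol Ω z) ξ = Complex.exp (pair z ξ) := rfl

/-- The Laplace transform `T̂(z) = ⟨T_ξ, e^{(z, ξ)}⟩`. -/
noncomputable def laplace {n : ℕ} {Ω : Set (V n)} (T : HolDual Ω) (z : V n) : ℂ := T (expHol Ω z)

/-- `T` is carried by `K`: `|T f| ≤ A sup_K |f|`. -/
def Carried {n : ℕ} {Ω : Set (V n)} (T : HolDual Ω) (K : Set (V n)) : Prop :=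
  ∃ A : ℝ, ∀ f : Hol Ω, ∀ M : ℝ, (∀ ξ : Ω, (ξ : V n) ∈ K → ‖ev f ξ‖ ≤ M) → ‖T f‖ ≤ A * M

/-- `|F(z)| ≤ ε e^{h_K(z)}` for all `z`, where `h_K(z) = sup_{ξ ∈ K} Re (z, ξ)`. -/
def ExpBound {n : ℕ} (F : V n → ℂ) (K : Set (V n)) (ε : ℝ) : Prop :=
  ∀ z : V n, ∀ M : ℝ, (∀ ξ ∈ K, (pair z ξ).re ≤ M) → ‖F z‖ ≤ ε * Real.exp M

end Pool.Agent.Lib.MP_ce3242_an
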