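import Mathlib
import Pool.Agent.Lib.MP_ce3242_an.Defs

set_option autoImplicit false

open Complex Metric Real Set Filter Topology MeromorphicOn

/-!
# Quotients of entire functions of exponential type
-/

namespace Pool.Agent.Lib.MP_ce3242_an

/-- The Poisson kernel of the circle `|ζ| = R`. -/
noncomputable def pk (w : ℂ) : ℂ → ℝ := Complex.re ∘ herglotzRieszKernel 0 w

lemma pk_continuousOn {R : ℝ} {w : ℂ} (hw : w ∈ ball (0 : ℂ) R) :
    ContinuousOn (pk w) (sphere 0 |R|) :=
  Complex.continuous_re.comp_continuousOn (continuousOn_herglotzRieszKernel_sphere hw)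

/-- Poisson's inequality for `log |ζ - u|`, `|u| ≤ R`. -/
lemma log_sub_le_poisson {R : ℝ} (hR : 0 < R) {w u : ℂ} (hw : w ∈ ball (0 : ℂ) R)
    (hu : u ∈ closedBall (0 : ℂ) R) (hwu : w ≠ u) :
    Real.log ‖w - u‖ ≤ circleAverage (pk w * (Real.log ‖· - u‖)) 0 R := by
  rcases (mem_closedBall_zero_iff.1 hu).lt_or_eq with h | h
  · -- interior zero
    have hw' : ‖w‖ < R := by simpa using hw
    set q : ℂ → ℂ := fun ζ => (R : ℂ) - (starRingEnd ℂ) u * ζ / R with hq
    have hRc : (R : ℂ) ≠ 0 := by exact_mod_cast hR.ne'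
    have hqne : ∀ ζ ∈ closedBall (0 : ℂ) R, q ζ ≠ 0 := by
      intro ζ hζ h0
      have h1 : (R : ℂ) = (starRingEnd ℂ) u * ζ / R := by
        simpa [hq, sub_eq_zero] using h0
      have h2 : (R : ℂ) * R = (starRingEnd ℂ) u * ζ := by
        field_simp at h1
        rw [← h1]; ring
      have h3 : R * R = ‖u‖ * ‖ζ‖ := by
        have := congrArg norm h2
        simpa [abs_of_pos hR] using this
      have h4 : ‖ζ‖ ≤ R := by simpa using hζ
      have : ‖u‖ * ‖ζ‖ ≤ ‖u‖ * R := by gcongr
      nlinarith
    have hqan : ∀ ζ : ℂ, AnalyticAt ℂ q ζ := by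
      intro ζ
      simp only [hq]
      fun_prop
    have hsph : ∀ ζ ∈ sphere (0 : ℂ) |R|, ‖ζ - u‖ = ‖q ζ‖ := by
      intro ζ hζ
      have hζR : ‖ζ‖ = R := by simpa [abs_of_pos hR] using hζ
      have h1 : q ζ * R = ζ * (starRingEnd ℂ) (ζ - u) := by
        have h5 : ζ * (starRingEnd ℂ) ζ = (R : ℂ) * R := by
          rw [Complex.mul_conj, Complex.normSq_eq_norm_sq, hζR]
          push_cast; ring
        simp only [hq, map_sub, mul_sub, h5]
        field_simp
      have h2 := congrArg norm h1
      simp only [norm_mul, Complex.norm_real, Real.norm_eq_abs, abs_of_pos hR, hζR,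
        RCLike.norm_conj] at h2
      have h3 : (‖q ζ‖ - ‖ζ - u‖) * R = 0 := by linarith
      rcases mul_eq_zero.1 h3 with h4 | h4
      · linarith
      · exact absurd h4 hR.ne'
    have e1 : circleAverage (pk w * (Real.log ‖· - u‖)) 0 R
        = circleAverage (pk w * (Real.log ‖q ·‖)) 0 R := by
      apply circleAverage_congr_sphere
      intro ζ hζ
      simp only [Pi.mul_apply]
      rw [hsph ζ hζ]
    have e2 : circleAverage (pk w * (Real.log ‖q ·‖)) 0 R = Real.log ‖q w‖ :=
      InnerProductSpace.HarmonicOnNhd.circleAverage_re_herglotzRieszKernel_smul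
        (fun x hx => (hqan x).harmonicAt_log_norm (hqne x hx)) hw
    rw [e1, e2]
    have hpos : 0 < ‖w - u‖ := norm_pos_iff.2 (sub_ne_zero.2 hwu)
    apply Real.log_le_log hpos
    -- `|w - u| ≤ |R - conj u w / R|`
    have key : (R * ‖w - u‖) ^ 2 ≤ (R * ‖q w‖) ^ 2 := by
      have e3 : R * ‖q w‖ = ‖(R : ℂ) * R - (starRingEnd ℂ) u * w‖ := by
        rw [← abs_of_pos hR, ← Real.norm_eq_abs, ← Complex.norm_real, ← norm_mul,
          Complex.norm_real, Real.norm_eq_abs, abs_of_pos hR]
        congr 1
        simp only [hq]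
        field_simp
      rw [e3, mul_pow, ← Complex.normSq_eq_norm_sq, ← Complex.normSq_eq_norm_sq]
      have h6 : Complex.normSq w ≤ R ^ 2 := by
        rw [Complex.normSq_eq_norm_sq]; gcongr
      have h7 : Complex.normSq u ≤ R ^ 2 := by
        rw [Complex.normSq_eq_norm_sq]; gcongr
      have h8 : Complex.normSq ((R : ℂ) * R - (starRingEnd ℂ) u * w)
          - R ^ 2 * Complex.normSq (w - u)
          = (R ^ 2 - Complex.normSq w) * (R ^ 2 - Complex.normSq u) := by
        simp only [Complex.normSq_apply, Complex.sub_re, Complex.sub_im, Complex.mul_re,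
          Complex.mul_im, Complex.conj_re, Complex.conj_im, Complex.ofReal_re, Complex.ofReal_im]
        ring
      nlinarith [mul_nonneg (sub_nonneg.2 h6) (sub_nonneg.2 h7)]
    have h9 : R * ‖w - u‖ ≤ R * ‖q w‖ := by
      exact (sq_le_sq₀ (by positivity) (by positivity)).1 key
    exact le_of_mul_le_mul_left h9 hR
  · -- boundary zero
    exact (circleAverage_re_herglotzRieszKernel_mul_log (by simpa using h) hw).ge

/-- Poisson–Jensen inequality. -/
lemma log_norm_le_poisson {R : ℝ} (hR : 0 < R) {w : ℂ} (hw : w ∈ ball (0 : ℂ) R) {f : ℂ → ℂ}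
    (hf : AnalyticOnNhd ℂ f (closedBall 0 R)) (hfw : f w ≠ 0) :
    Real.log ‖f w‖ ≤ circleAverage (pk w * (Real.log ‖f ·‖)) 0 R := by
  have hwc : w ∈ closedBall (0 : ℂ) R := ball_subset_closedBall hw
  have hmer : MeromorphicOn f (closedBall 0 R) := hf.meromorphicOn
  have h₂f : ∀ u : closedBall (0 : ℂ) R, meromorphicOrderAt f u ≠ ⊤ := by
    rw [← hmer.exists_meromorphicOrderAt_ne_top_iff_forall
      (Metric.isConnected_closedBall hR.le)]
    refine ⟨⟨w, hwc⟩, ?_⟩
    rw [(hf w hwc).meromorphicNFAt.meromorphicOrderAt_eq_zero_iff.2 hfw]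
    simp
  have h₃f := (divisor f (closedBall 0 R)).finiteSupport (isCompact_closedBall 0 R)
  obtain ⟨h, h1, h2, h3⟩ := hmer.extract_zeros_poles h₂f h₃f
  have h4 := extract_zeros_poles_log h2 h3
  have hDnn : ∀ u, 0 ≤ divisor f (closedBall 0 R) u := by
    intro u
    exact (MeromorphicOn.AnalyticOnNhd.divisor_nonneg hf) u
  have hDw : divisor f (closedBall 0 R) w = 0 := by
    rw [divisor_apply hmer hwc, (hf w hwc).meromorphicNFAt.meromorphicOrderAt_eq_zero_iff.2 hfw]
    simp
  have hDout : ∀ u, u ∉ closedBall (0 : ℂ) R → divisor f (closedBall 0 R) u = 0 := by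
    intro u hu
    exact Function.locallyFinsuppWithin.apply_eq_zero_of_notMem _ hu
  set D := divisor f (closedBall 0 R) with hD
  -- value at `w`
  have hacc : AccPt w (𝓟 (closedBall (0 : ℂ) R)) := by
    apply accPt_iff_frequently_nhdsNE.mpr
    apply compl_notMem
    apply mem_nhdsWithin.mpr
    exact ⟨ball 0 R, isOpen_ball, hw, fun x hx => by
      simpa using ball_subset_closedBall hx.1⟩
  have hval : Real.log ‖f w‖ = ∑ u ∈ h₃f.toFinset, (D u) * Real.log ‖w - u‖ + Real.log ‖h w‖ := by
    have := log_norm_meromorphicTrailingCoeffAt_extract_zeros_poles h₃f hwc hacc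
      (hf w hwc).meromorphicAt (h1 w hwc) (h2 ⟨w, hwc⟩) h3
    rw [(hf w hwc).meromorphicTrailingCoeffAt_of_ne_zero hfw] at this
    rw [this, finsum_eq_sum_of_support_subset]
    intro u hu
    simp only [Function.mem_support, ne_eq, mul_eq_zero, Int.cast_eq_zero, not_or] at hu
    simpa using hu.1
  have habs : |R| = R := abs_of_pos hR
  have hpk := pk_continuousOn hw
  -- average
  have hlogint : ∀ u : ℂ, CircleIntegrable (fun z : ℂ => Real.log ‖z - u‖) 0 R := fun u =>
    circleIntegrable_log_norm_sub_const R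
  have hhint : CircleIntegrable (fun z : ℂ => Real.log ‖h z‖) 0 R := by
    apply MeromorphicOn.circleIntegrable_log_norm
    rw [habs]
    exact (h1.mono sphere_subset_closedBall).meromorphicOn
  have hav : circleAverage (pk w * (Real.log ‖f ·‖)) 0 R
      = ∑ u ∈ h₃f.toFinset, (D u) * circleAverage (pk w * (Real.log ‖· - u‖)) 0 R
        + Real.log ‖h w‖ := by
    have e1 : circleAverage (pk w * (Real.log ‖f ·‖)) 0 R
        = circleAverage ((∑ u ∈ h₃f.toFinset, ((D u : ℝ) • (pk w * (Real.log ‖· - u‖))))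
            + pk w * (Real.log ‖h ·‖)) 0 R := by
      apply circleAverage_congr_codiscreteWithin _ hR.ne'
      rw [habs]
      have h4' := h4.filter_mono
        (codiscreteWithin_mono (sphere_subset_closedBall (x := (0 : ℂ)) (ε := R)))
      filter_upwards [h4'] with z hz
      simp only [Pi.add_apply, Pi.mul_apply, Finset.sum_apply, Pi.smul_apply, smul_eq_mul]
      rw [hz, finsum_eq_sum_of_support_subset (s := h₃f.toFinset)]
      · simp only [Pi.add_apply, Finset.sum_apply, mul_add, Finset.mul_sum]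
        congr 1
        apply Finset.sum_congr rfl
        intro u _
        ring
      · intro u hu
        by_contra hcon
        apply hu
        have : D u = 0 := by simpa using hcon
        ext z
        simp [this]
    rw [e1, circleAverage_add, circleAverage_sum]
    · congr 1
      · apply Finset.sum_congr rfl
        intro u _
        rw [circleAverage_smul]
        rfl
      · exact InnerProductSpace.HarmonicOnNhd.circleAverage_re_herglotzRieszKernel_smul
          (fun x hx => (h1 x hx).harmonicAt_log_norm (h2 ⟨x, hx⟩)) hw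
    · intro u _
      exact ((hlogint u).continuousOn_mul hpk).const_smul
    · apply CircleIntegrable.sum
      intro u _
      exact ((hlogint u).continuousOn_mul hpk).const_smul
    · exact hhint.continuousOn_mul hpk
  rw [hval, hav]
  gcongr with u hu
  · exact_mod_cast hDnn u
  · have hDu : D u ≠ 0 := by simpa using hu
    apply log_sub_le_poisson hR hw
    · by_contra hcon
      exact hDu (hDout u hcon)
    · rintro rfl
      exact hDu hDw

/-- The one-dimensional estimate: if `p` and `p g` are bounded by `e^M` on `|t| = 2`, then `|g 1|`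
is bounded in terms of `M` and `|p 0|`. -/
lemma one_dim_bound {p g : ℂ → ℂ} (hp : AnalyticOnNhd ℂ p (closedBall 0 2))
    (hg : AnalyticOnNhd ℂ g (closedBall 0 2)) (hp0 : p 0 ≠ 0) {M : ℝ} (hM : 0 ≤ M)
    (h1 : ∀ t : ℂ, ‖t‖ = 2 → ‖p t‖ ≤ Real.exp M)
    (h2 : ∀ t : ℂ, ‖t‖ = 2 → ‖p t * g t‖ ≤ Real.exp M) :
    ‖g 1‖ ≤ Real.exp (6 * M - 3 * Real.log ‖p 0‖) := by
  by_cases hg1 : g 1 = 0
  · rw [hg1, norm_zero]; positivity
  have h2pos : (0 : ℝ) < 2 := two_pos
  have habs : |(2 : ℝ)| = 2 := abs_of_pos h2pos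
  have h1b : (1 : ℂ) ∈ ball (0 : ℂ) 2 := by simp
  have h0b : (0 : ℂ) ∈ ball (0 : ℂ) 2 := by simp
  have hps : MeromorphicOn p (sphere 0 |2|) := by
    rw [habs]; exact (hp.mono sphere_subset_closedBall).meromorphicOn
  have hgs : MeromorphicOn g (sphere 0 |2|) := by
    rw [habs]; exact (hg.mono sphere_subset_closedBall).meromorphicOn
  -- lower bound for the circle average of `log |p|`
  have hlow : Real.log ‖p 0‖ ≤ circleAverage (Real.log ‖p ·‖) 0 2 := by
    refine (log_norm_le_poisson h2pos h0b hp hp0).trans (le_of_eq ?_)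
    apply circleAverage_congr_sphere
    intro z hz
    have hz0 : z ≠ 0 := by
      rintro rfl
      simp at hz
    simp [pk, herglotzRieszKernel_def, hz0]
  -- upper bound for `log |g 1|`
  have hup : Real.log ‖g 1‖ ≤ circleAverage (fun z => 3 * log⁺ ‖g z‖) 0 2 := by
    refine (log_norm_le_poisson h2pos h1b hg hg1).trans ?_
    apply circleAverage_mono
    · exact hgs.circleIntegrable_log_norm.continuousOn_mul (pk_continuousOn h1b)
    · exact (hgs.circleIntegrable_posLog_norm).const_fun_smul (a := (3 : ℝ))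
    · intro z hz
      rw [habs] at hz
      have hk := re_herglotzRieszKernel_le hz h1b
      have hk' := le_re_herglotzRieszKernel hz h1b
      have e1 : pk 1 z = ((z - 0 + (1 - 0)) / ((z - 0) - (1 - 0))).re := rfl
      rw [← e1] at hk hk'
      norm_num at hk hk'
      have hk0 : 0 ≤ pk 1 z := le_trans (by norm_num) hk'
      simp only [Pi.mul_apply]
      have h3 : Real.log ‖g z‖ ≤ log⁺ ‖g z‖ := by
        rw [posLog_apply]; exact le_max_right _ _
      calc pk 1 z * Real.log ‖g z‖ ≤ pk 1 z * log⁺ ‖g z‖ := by gcongr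
        _ ≤ 3 * log⁺ ‖g z‖ := by
          have := posLog_nonneg (x := ‖g z‖)
          gcongr
  -- `log⁺ |g| ≤ log⁺ |p g| + log⁺ |1/p|`
  have hav : circleAverage (fun z => log⁺ ‖g z‖) 0 2
      ≤ 2 * M - Real.log ‖p 0‖ := by
    have e1 : circleAverage (fun z => log⁺ ‖g z‖) 0 2
        = circleAverage (fun z => log⁺ ‖(p z * g z) * (p z)⁻¹‖) 0 2 := by
      apply circleAverage_congr_codiscreteWithin _ (by norm_num)
      rw [habs]
      have hne : ∀ᶠ z in codiscreteWithin (closedBall (0 : ℂ) 2), p z ≠ 0 := by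
        have := AnalyticOnNhd.preimage_zero_mem_codiscreteWithin (f := p)
          (U := closedBall (0 : ℂ) 2) (x := 0) hp hp0 (by simp)
          (Metric.isConnected_closedBall (by norm_num))
        filter_upwards [this] with z hz
        simpa using hz
      filter_upwards [hne.filter_mono (codiscreteWithin_mono
        (sphere_subset_closedBall (x := (0 : ℂ)) (ε := 2)))] with z hz
      congr 2
      field_simp
    have hpg : MeromorphicOn (fun z => p z * g z) (sphere 0 |2|) := hps.mul hgs
    have hpi : MeromorphicOn (fun z => (p z)⁻¹) (sphere 0 |2|) := hps.inv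
    have e2 : circleAverage (fun z => log⁺ ‖(p z * g z) * (p z)⁻¹‖) 0 2
        ≤ circleAverage (fun z => M + (M - Real.log ‖p z‖)) 0 2 := by
      apply circleAverage_mono
      · exact (hpg.mul hpi).circleIntegrable_posLog_norm
      · exact (circleIntegrable_const M 0 2).add
          ((circleIntegrable_const M 0 2).sub hps.circleIntegrable_log_norm)
      · intro z hz
        have hz2 : ‖z‖ = 2 := by simpa using hz
        rw [norm_mul]
        refine posLog_mul.trans ?_
        gcongr
        · rw [posLog_apply]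
          apply max_le hM
          rcases (norm_nonneg (p z * g z)).eq_or_lt with h | h
          · rw [← h]; simpa using hM
          · rw [← Real.log_exp M]
            exact Real.log_le_log h (h2 z hz2)
        · have h3 := posLog_sub_posLog_inv (x := ‖p z‖)
          rw [norm_inv]
          have h4 : log⁺ ‖p z‖ ≤ M := by
            rw [posLog_apply]
            apply max_le hM
            rcases (norm_nonneg (p z)).eq_or_lt with h | h
            · rw [← h]; simpa using hM
            · rw [← Real.log_exp M]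
              exact Real.log_le_log h (h1 z hz2)
          linarith
    have e3 : circleAverage (fun z => M + (M - Real.log ‖p z‖)) 0 2
        = M + (M - circleAverage (Real.log ‖p ·‖) 0 2) := by
      have i2 : CircleIntegrable (fun z => M - Real.log ‖p z‖) 0 2 :=
        (circleIntegrable_const M 0 2).sub hps.circleIntegrable_log_norm
      rw [circleAverage_fun_add (circleIntegrable_const M 0 2) i2,
        circleAverage_fun_sub (circleIntegrable_const M 0 2) hps.circleIntegrable_log_norm,
        circleAverage_const]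
    linarith
  have hlog : Real.log ‖g 1‖ ≤ 6 * M - 3 * Real.log ‖p 0‖ := by
    have e4 : circleAverage (fun z => 3 * log⁺ ‖g z‖) 0 2
        = 3 * circleAverage (fun z => log⁺ ‖g z‖) 0 2 := by
      have := circleAverage_fun_smul (a := (3 : ℝ)) (f := fun z => log⁺ ‖g z‖) (c := 0) (R := 2)
      simpa using this
    rw [e4] at hup
    linarith
  rw [← Real.log_le_iff_le_exp (norm_pos_iff.2 hg1)]
  exact hlog

/-- **Quotients of entire functions of exponential type are of exponential type.** -/
theorem exp_type_quotient {n : ℕ} {φ g : V n → ℂ} (hφ : AnalyticOnNhd ℂ φ univ)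
    (hg : AnalyticOnNhd ℂ g univ) (hne : ∃ z, φ z ≠ 0) {C B : ℝ}
    (h1 : ∀ z, ‖φ z‖ ≤ C * Real.exp (B * ‖z‖))
    (h2 : ∀ z, ‖φ z * g z‖ ≤ C * Real.exp (B * ‖z‖)) :
    ∃ C' B' : ℝ, ∀ z, ‖g z‖ ≤ C' * Real.exp (B' * ‖z‖) := by
  obtain ⟨z₀, hz₀⟩ := hne
  have hC : 0 < C := by
    have h3 : 0 < C * Real.exp (B * ‖z₀‖) := (norm_pos_iff.2 hz₀).trans_le (h1 z₀)
    exact (pos_iff_pos_of_mul_pos h3).2 (Real.exp_pos _)
  refine ⟨Real.exp (6 * |Real.log C| + 18 * |B| * ‖z₀‖ - 3 * Real.log ‖φ z₀‖), 12 * |B|,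
    fun z => ?_⟩
  set L : ℂ → V n := fun t => z₀ + t • (z - z₀) with hL
  have hLan : ∀ t, AnalyticAt ℂ L t := by
    intro t
    simp only [hL]
    fun_prop
  have hLan' : ∀ s : Set ℂ, AnalyticOnNhd ℂ L s := fun s t _ => hLan t
  set M : ℝ := |Real.log C| + |B| * (‖z₀‖ + 2 * ‖z - z₀‖) with hM
  have hM0 : 0 ≤ M := by positivity
  have hbd : ∀ t : ℂ, ‖t‖ = 2 → C * Real.exp (B * ‖L t‖) ≤ Real.exp M := by
    intro t ht
    have h3 : ‖L t‖ ≤ ‖z₀‖ + 2 * ‖z - z₀‖ := by
      simp only [hL]
      refine (norm_add_le _ _).trans ?_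
      rw [norm_smul, ht]
    calc C * Real.exp (B * ‖L t‖) = Real.exp (Real.log C + B * ‖L t‖) := by
          rw [Real.exp_add, Real.exp_log hC]
      _ ≤ Real.exp M := by
          apply Real.exp_le_exp.2
          have h4 : B * ‖L t‖ ≤ |B| * (‖z₀‖ + 2 * ‖z - z₀‖) := by
            calc B * ‖L t‖ ≤ |B| * ‖L t‖ := by gcongr; exact le_abs_self B
              _ ≤ _ := by gcongr
          have h5 := le_abs_self (Real.log C)
          linarith
  have key := one_dim_bound (p := fun t => φ (L t)) (g := fun t => g (L t))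
    (hφ.comp (hLan' _) (fun _ _ => mem_univ _)) (hg.comp (hLan' _) (fun _ _ => mem_univ _))
    (by simpa [hL] using hz₀) hM0
    (fun t ht => (h1 _).trans (hbd t ht)) (fun t ht => (h2 _).trans (hbd t ht))
  have e1 : L 1 = z := by simp [hL]
  have e0 : L 0 = z₀ := by simp [hL]
  simp only [e1, e0] at key
  refine key.trans ?_
  rw [← Real.exp_add]
  apply Real.exp_le_exp.2
  have h6 : ‖z - z₀‖ ≤ ‖z‖ + ‖z₀‖ := norm_sub_le _ _
  have h7 : |B| * ‖z - z₀‖ ≤ |B| * (‖z‖ + ‖z₀‖) := by gcongr
  rw [hM]
  nlinarith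

end Pool.Agent.Lib.MP_ce3242_an
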