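import Pool.Agent.Lib.MP_ce3242_an.Supp
import Pool.Agent.Lib.MP_ce3242_an.Approx3
import Pool.Agent.Lib.MP_ce3242_an.Division
import Pool.Agent.Lib.MP_ce3242_an.CF

set_option autoImplicit false

open Set Filter Topology
open scoped ContDiff

/-! The approximation theorem. -/

namespace Pool.Agent.Lib.MP_ce3242_an

variable {n : ℕ}

/-- The Laplace transform is injective. -/
theorem laplace_injective {Ω : Set (V n)} (hΩ : IsOpen Ω) (hne : Ω.Nonempty)
    (hc : Convex ℝ Ω) {T : HolDual Ω} (hT : ∀ z, laplace T z = 0) : T = 0 := by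
  obtain ⟨K, hK, hKc, hKn, hKΩ, hTK⟩ := exists_carried hΩ hne hc T
  obtain ⟨K', hK', hK'Ω, C, hC, hCF⟩ := cf_bound hΩ hK hKc hKn hKΩ
  have hE : ExpBound (laplace T) K 0 := by
    intro z M _
    rw [hT z]; simp
  ext f
  obtain ⟨M, hM⟩ : ∃ M : ℝ, ∀ ξ : Ω, (ξ : V n) ∈ K' → ‖ev f ξ‖ ≤ M := by
    have h1 : IsCompact ((↑) ⁻¹' K' : Set Ω) := by
      rw [Subtype.isCompact_iff, Subtype.image_preimage_coe, inter_eq_right.2 hK'Ω]
      exact hK'
    obtain ⟨M, hM⟩ := h1.exists_bound_of_continuousOn (continuousOn_of_hol f).continuousOn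
    exact ⟨M, fun ξ hξ => hM ξ hξ⟩
  have h2 := hCF T hTK 0 le_rfl hE f M hM
  rw [mul_zero, zero_mul] at h2
  simpa using h2

theorem approx_main
    (hlevi : ∀ (g : V n → ℂ), ContDiff ℂ ∞ g → ∀ A δ η : ℝ, 0 < δ → δ ≤ A → 0 ≤ η → η ≤ 1 →
      (∀ z, xx g z ≤ A * yy z) → ∀ z w : V n, 0 ≤ Hormander.levi (kap g A δ η) z w)
    (hcd : ∀ F : V n → ℂ, Differentiable ℂ F → ContDiff ℝ ∞ F → ContDiff ℂ ∞ F)
    {Ω : Set (V n)} (hΩ : IsOpen Ω) (hne : Ω.Nonempty) (hc : Convex ℝ Ω)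
    (S T : HolDual Ω) (hS : ∃ z, laplace S z ≠ 0) {g : V n → ℂ} (hg : AnalyticOnNhd ℂ g univ)
    (hgT : ∀ z, laplace T z = laplace S z * g z) :
    ∃ (P : ℕ → MvPolynomial (Fin n) ℂ) (U : ℕ → HolDual Ω),
      (∀ k z, laplace (U k) z = laplace S z * MvPolynomial.eval z (P k)) ∧
        Tendsto U atTop (𝓝 T) := by
  obtain ⟨KS, hKS, -, hKSn, hKSΩ, hSK⟩ := exists_carried hΩ hne hc S
  obtain ⟨KT, hKT, -, -, hKTΩ, hTK⟩ := exists_carried hΩ hne hc T
  obtain ⟨K, hK, hKc, hKsub, hKΩ⟩ := exists_compact_convex hΩ hc (hKS.union hKT)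
    (union_subset hKSΩ hKTΩ)
  have hKn : K.Nonempty := hKSn.mono (subset_union_left.trans hKsub)
  have hSK' : Carried S K := hSK.mono (subset_union_left.trans hKsub)
  have hTK' : Carried T K := hTK.mono (subset_union_right.trans hKsub)
  obtain ⟨Δ, hΔ, hΔΩ⟩ := hK.exists_cthickening_subset_open hΩ hKΩ
  set KK := Metric.cthickening Δ K with hKK
  have hKKc : IsCompact KK := hK.cthickening
  have hKKconv : Convex ℝ KK := hKc.cthickening Δ
  have hKKn : KK.Nonempty := hKn.mono (Metric.self_subset_cthickening K)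
  have hKKsub : K ⊆ KK := Metric.self_subset_cthickening K
  -- bounds of the Laplace transforms
  have hKΩn : (K ∩ Ω).Nonempty := by
    obtain ⟨x, hx⟩ := hKn
    exact ⟨x, hx, hKΩ hx⟩
  obtain ⟨AS, hAS0, hAS⟩ := hSK'.exists_nonneg hKΩn
  obtain ⟨AT, hAT0, hAT⟩ := hTK'.exists_nonneg hKΩn
  set C1 := AS + AT with hC1
  have hC10 : 0 ≤ C1 := by positivity
  have hb1 : ∀ z, ‖laplace S z‖ ≤ C1 * Real.exp (hsup K z) := by
    intro z
    refine (norm_laplace_le hK hAS z).trans ?_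
    gcongr
    linarith
  have hb2 : ∀ z, ‖laplace S z * g z‖ ≤ C1 * Real.exp (hsup K z) := by
    intro z
    rw [← hgT]
    refine (norm_laplace_le hK hAT z).trans ?_
    gcongr
    linarith
  obtain ⟨L, hL0, hL1, hL2⟩ := hsup_le_add hK hKn
  have hSan : AnalyticOnNhd ℂ (laplace S) univ := analyticOnNhd_laplace hK hKn hKΩ hSK'
  -- `g` is of exponential type
  obtain ⟨C', B', hCB⟩ := exp_type_quotient hSan hg hS (C := C1) (B := L)
    (fun z => (hb1 z).trans (by gcongr; exact hL2 z))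
    (fun z => (hb2 z).trans (by gcongr; exact hL2 z))
  obtain ⟨A0, hA0⟩ := exists_xx_le hCB
  have hgc : ContDiff ℂ ∞ g := hg.contDiff
  have hSd : Differentiable ℂ (laplace S) := fun z => (hSan z (mem_univ z)).differentiableAt
  -- the polynomials
  have hP : ∀ k : ℕ, ∃ P : MvPolynomial (Fin n) ℂ, ∀ z,
      ‖laplace S z * (g z - MvPolynomial.eval z P)‖ ≤
        (1 / ((k : ℝ) + 1)) * Real.exp (hsup K z + Δ * l1 z) := fun k =>
    exists_poly hSd hgc (hlevi g hgc) hcd hL1 hb1 hb2 hA0 hΔ (by positivity)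
  choose P hP using hP
  have hU : ∀ k : ℕ, ∃ U : HolDual Ω, Carried U KK ∧
      ∀ z, laplace U z = laplace S z * MvPolynomial.eval z (P k) := fun k =>
    exists_mul_poly hΩ (P k) S K Δ hK hKn hΔ hΔΩ hSK'
  choose U hUK hU using hU
  refine ⟨P, U, hU, ?_⟩
  obtain ⟨K', hK', hK'Ω, C, hC, hCF⟩ := cf_bound hΩ hKKc hKKconv hKKn hΔΩ
  refine tendsto_of_bound (K := K') (ε := fun k : ℕ => C * (1 / ((k : ℝ) + 1))) hK' hK'Ω ?_ ?_
  · have := tendsto_one_div_add_atTop_nhds_zero_nat (𝕜 := ℝ)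
    simpa using this.const_mul C
  · intro k f M hM
    have hcar : Carried (U k - T) KK := by
      obtain ⟨A1, hA1⟩ := hUK k
      refine ⟨A1 + AT, fun f M hM => ?_⟩
      have h1 := hA1 f M hM
      have h2 := hAT f M fun ξ hξ => hM ξ (hKKsub hξ)
      calc ‖(U k - T) f‖ = ‖U k f - T f‖ := rfl
        _ ≤ ‖U k f‖ + ‖T f‖ := norm_sub_le _ _
        _ ≤ _ := by linarith
    have hexp : ExpBound (laplace (U k - T)) KK (1 / ((k : ℝ) + 1)) := by
      intro z M hM
      have h1 : laplace (U k - T) z = -(laplace S z * (g z - MvPolynomial.eval z (P k))) := by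
        have : laplace (U k - T) z = laplace (U k) z - laplace T z := rfl
        rw [this, hU, hgT]; ring
      rw [h1, norm_neg]
      refine (hP k z).trans ?_
      gcongr
      exact hsup_add_le hK hKn hΔ.le hM
    exact hCF (U k - T) hcar _ (by positivity) hexp f M hM

end Pool.Agent.Lib.MP_ce3242_an
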