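import Pool.Agent.Lib.MP_ce3242_an.Defs

set_option autoImplicit false

open Set Filter Topology
open scoped ContDiff Nat

/-! Polynomial approximation of entire functions of exponential growth. -/

namespace Pool.Agent.Lib.MP_ce3242_an

variable {n : ℕ}

/-- The `ℓ¹` norm. -/
noncomputable def l1 (z : V n) : ℝ := ∑ j, ‖z j‖

lemma l1_nonneg (z : V n) : 0 ≤ l1 z := Finset.sum_nonneg fun _ _ => norm_nonneg _

lemma l1_smul (t : ℂ) (z : V n) : l1 (t • z) = ‖t‖ * l1 z := by
  unfold l1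
  rw [Finset.mul_sum]
  exact Finset.sum_congr rfl fun j _ => by rw [Pi.smul_apply, smul_eq_mul, norm_mul]

/-- The diagonal of a multilinear map is a polynomial. -/
lemma exists_poly_of_multilinear {m : ℕ} (A : MultilinearMap ℂ (fun _ : Fin m => V n) ℂ) :
    ∃ P : MvPolynomial (Fin n) ℂ, ∀ z, A (fun _ => z) = MvPolynomial.eval z P := by
  classical
  refine ⟨∑ f : Fin m → Fin n, MvPolynomial.C (A fun i => Pi.single (f i) 1) *
    ∏ i, MvPolynomial.X (f i), fun z => ?_⟩
  have h1 : (fun _ : Fin m => z) = fun _ : Fin m => ∑ j : Fin n, z j • (Pi.single j 1 : V n) := by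
    ext i k
    simp [Finset.sum_apply, Pi.single_apply]
  rw [h1, A.map_sum, map_sum]
  refine Finset.sum_congr rfl fun f _ => ?_
  rw [A.map_smul_univ (fun i => z (f i)) fun i => (Pi.single (f i) 1 : V n)]
  simp [mul_comm]

/-- Taylor polynomials approximate entire functions of exponential type. -/
theorem exists_poly_approx {G : V n → ℂ} (hG : ContDiff ℂ ∞ G) {C τ : ℝ}
    (hb : ∀ z, ‖G z‖ ≤ C * Real.exp (τ * l1 z)) (M : ℕ) :
    ∃ P : MvPolynomial (Fin n) ℂ, ∀ z,
      ‖G z - MvPolynomial.eval z P‖ ≤ 2 * C * (1 / 2) ^ M * Real.exp (2 * τ * l1 z) := by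
  -- the homogeneous Taylor terms
  have h1 : ∀ m : ℕ, ∃ P : MvPolynomial (Fin n) ℂ, ∀ z,
      (m ! : ℂ)⁻¹ * iteratedFDeriv ℂ m G 0 (fun _ => z) = MvPolynomial.eval z P := by
    intro m
    obtain ⟨P, hP⟩ := exists_poly_of_multilinear (iteratedFDeriv ℂ m G 0).toMultilinearMap
    refine ⟨MvPolynomial.C ((m ! : ℂ)⁻¹) * P, fun z => ?_⟩
    rw [map_mul, MvPolynomial.eval_C, ← hP]
    rfl
  choose P hP using h1
  refine ⟨∑ m ∈ Finset.range M, P m, fun z => ?_⟩
  set γ : ℂ →L[ℂ] V n := (ContinuousLinearMap.id ℂ ℂ).smulRight z with hγ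
  have hγv : ∀ t : ℂ, γ t = t • z := fun t => by simp [hγ]
  set f : ℂ → ℂ := G ∘ γ with hf
  have hfd : Differentiable ℂ f := (hG.comp γ.contDiff).differentiable (by simp)
  have hiter : ∀ m : ℕ, iteratedDeriv m f 0 = iteratedFDeriv ℂ m G 0 (fun _ => z) := by
    intro m
    rw [iteratedDeriv_eq_iteratedFDeriv, hf,
      γ.iteratedFDeriv_comp_right hG 0 (i := m) (by exact_mod_cast le_top)]
    rw [ContinuousMultilinearMap.compContinuousLinearMap_apply, map_zero]
    congr 1
    ext i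
    simp [hγv]
  have hterm : ∀ m : ℕ, MvPolynomial.eval z (P m) = (m ! : ℂ)⁻¹ * iteratedDeriv m f 0 := by
    intro m
    rw [hiter, hP]
  have hsum : HasSum (fun m : ℕ => MvPolynomial.eval z (P m)) (G z) := by
    have h2 := Complex.hasSum_taylorSeries_of_entire hfd 0 1
    have e1 : f 1 = G z := by simp [hf, hγv]
    have e2 : (fun m : ℕ => (m ! : ℂ)⁻¹ • (1 - 0 : ℂ) ^ m • iteratedDeriv m f 0)
        = fun m : ℕ => MvPolynomial.eval z (P m) := by
      ext m
      rw [hterm]
      simp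
    rw [e1, e2] at h2
    exact h2
  set E := C * Real.exp (2 * τ * l1 z) with hE
  have hbound : ∀ m : ℕ, ‖MvPolynomial.eval z (P m)‖ ≤ E * (1 / 2) ^ m := by
    intro m
    have h3 : ‖iteratedDeriv m f 0‖ ≤ m ! * E / 2 ^ m := by
      refine Complex.norm_iteratedDeriv_le_of_forall_mem_sphere_norm_le m two_pos
        hfd.diffContOnCl ?_
      intro t ht
      have ht2 : ‖t‖ = 2 := by simpa using ht
      have h4 := hb (γ t)
      rw [hγv, l1_smul, ht2] at h4
      have h5 : f t = G (t • z) := by simp [hf, hγv]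
      rw [h5, hE]
      refine h4.trans (le_of_eq ?_)
      congr 2
      ring
    rw [hterm, norm_mul, norm_inv, Complex.norm_natCast]
    have hm : (0 : ℝ) < m ! := by exact_mod_cast Nat.factorial_pos m
    rw [inv_mul_le_iff₀ hm]
    refine h3.trans (le_of_eq ?_)
    rw [one_div, inv_pow]
    ring
  have h6 := (hasSum_nat_add_iff' M).2 hsum
  have h7 : HasSum (fun m : ℕ => E * (1 / 2) ^ (m + M)) (E * (2 * (1 / 2) ^ M)) := by
    have h8 : HasSum (fun m : ℕ => (1 / 2 : ℝ) ^ m) 2 := hasSum_geometric_two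
    have h9 := (h8.mul_right ((1 / 2 : ℝ) ^ M)).mul_left E
    simpa [pow_add] using h9
  have h10 := h6.norm_le_of_bounded h7 fun m => hbound (m + M)
  rw [map_sum]
  refine h10.trans (le_of_eq ?_)
  rw [hE]
  ring

end Pool.Agent.Lib.MP_ce3242_an
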