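import Pool.Agent.Lib.MP_ce3242_an.Weight
import Pool.Agent.Lib.MP_ce3242_an.Taylor

set_option autoImplicit false

open Set Filter Topology
open scoped ContDiff

/-! Upper and lower bounds for the weight. -/

namespace Pool.Agent.Lib.MP_ce3242_an

variable {n : ℕ}

/-- the quadratic part of the weight -/
lemma quad_bounds {A δ x y : ℝ} (hδ : 0 < δ) (hδA : δ ≤ A) (hy : 0 < y) (hx : 0 ≤ x)
    (hxA : x ≤ A * y) :
    x + 7 / 8 * δ * y ≤ δ * y + (1 - δ / (2 * A)) * x + δ / (2 * A ^ 2) * x ^ 2 / y ∧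
    δ * y + (1 - δ / (2 * A)) * x + δ / (2 * A ^ 2) * x ^ 2 / y ≤ x + δ * y := by
  have hA : 0 < A := lt_of_lt_of_le hδ hδA
  set s := x / y with hs
  have hxs : x = s * y := by rw [hs]; field_simp
  have hs0 : 0 ≤ s := div_nonneg hx hy.le
  have hsA : s ≤ A := by rw [hs, div_le_iff₀ hy]; exact hxA
  have e : δ * y + (1 - δ / (2 * A)) * x + δ / (2 * A ^ 2) * x ^ 2 / y =
      x + δ * y - δ / (2 * A ^ 2) * (s * (A - s)) * y := by
    rw [hxs]
    field_simp
    ring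
  rw [e]
  have h1 : 0 ≤ s * (A - s) := mul_nonneg hs0 (by linarith)
  have h2 : s * (A - s) ≤ A ^ 2 / 4 := by nlinarith [sq_nonneg (s - A / 2)]
  have h3 : 0 ≤ δ / (2 * A ^ 2) * (s * (A - s)) * y := by positivity
  have h4 : δ / (2 * A ^ 2) * (s * (A - s)) * y ≤ δ / 8 * y := by
    have : δ / (2 * A ^ 2) * (s * (A - s)) ≤ δ / 8 := by
      calc δ / (2 * A ^ 2) * (s * (A - s)) ≤ δ / (2 * A ^ 2) * (A ^ 2 / 4) := by gcongr
        _ = δ / 8 := by field_simp; norm_num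
    gcongr
  constructor <;> linarith

variable {g : V n → ℂ} {A δ η : ℝ}

lemma exp_log_le_one (hη : 0 ≤ η) (z : V n) : Real.exp (-η * Real.log (yy z)) ≤ 1 := by
  apply Real.exp_le_one_iff.2
  have := Real.log_nonneg (one_le_yy z)
  nlinarith

lemma CC_pos (hδ : 0 < δ) (hδA : δ ≤ A) : 0 < CC A δ := by
  have hA : 0 < A := lt_of_lt_of_le hδ hδA
  unfold CC; positivity

lemma kap_le (hδ : 0 < δ) (hδA : δ ≤ A) (hη : 0 ≤ η) (hA : ∀ z, xx g z ≤ A * yy z) (z : V n) :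
    kap g A δ η z ≤ 2 * xx g z + 2 * (δ + CC A δ * η) * yy z := by
  obtain ⟨-, h1⟩ := quad_bounds hδ hδA (yy_pos z) (xx_nonneg g z) (hA z)
  unfold kap FF
  have hE := exp_log_le_one hη z
  have hE0 := Real.exp_pos (-η * Real.log (yy z))
  have hx := xx_nonneg g z
  have hy := yy_pos z
  have h2 : Real.exp (-η * Real.log (yy z)) * (δ * yy z + (1 - δ / (2 * A)) * xx g z +
      δ / (2 * A ^ 2) * xx g z ^ 2 / yy z) ≤ 1 * (xx g z + δ * yy z) := by
    have h3 : 0 ≤ xx g z + δ * yy z := by positivity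
    calc _ ≤ Real.exp (-η * Real.log (yy z)) * (xx g z + δ * yy z) := by gcongr
      _ ≤ 1 * (xx g z + δ * yy z) := by gcongr
  linarith

lemma le_kap (hδ : 0 < δ) (hδA : δ ≤ A) (hη : 0 ≤ η) (hA : ∀ z, xx g z ≤ A * yy z) (z : V n)
    (hz : η * Real.log (yy z) ≤ δ / (4 * (A + δ))) :
    2 * xx g z + δ * yy z ≤ kap g A δ η z := by
  have hApos : 0 < A := lt_of_lt_of_le hδ hδA
  obtain ⟨h0, h1⟩ := quad_bounds hδ hδA (yy_pos z) (xx_nonneg g z) (hA z)
  unfold kap FF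
  have hx := xx_nonneg g z
  have hy := yy_pos z
  set Q := δ * yy z + (1 - δ / (2 * A)) * xx g z + δ / (2 * A ^ 2) * xx g z ^ 2 / yy z with hQ
  have hE : 1 - η * Real.log (yy z) ≤ Real.exp (-η * Real.log (yy z)) := by
    have := Real.add_one_le_exp (-η * Real.log (yy z))
    linarith
  have hQ0 : 0 ≤ Q := le_trans (by positivity) h0
  have h2 : (1 - η * Real.log (yy z)) * Q ≤ Real.exp (-η * Real.log (yy z)) * Q := by gcongr
  have h3 : η * Real.log (yy z) * Q ≤ δ / (4 * (A + δ)) * ((A + δ) * yy z) := by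
    have h4 : Q ≤ (A + δ) * yy z := by have := hA z; linarith
    have h5 : 0 ≤ η * Real.log (yy z) := mul_nonneg hη (Real.log_nonneg (one_le_yy z))
    calc η * Real.log (yy z) * Q ≤ η * Real.log (yy z) * ((A + δ) * yy z) := by gcongr
      _ ≤ δ / (4 * (A + δ)) * ((A + δ) * yy z) := by gcongr
  have h4 : δ / (4 * (A + δ)) * ((A + δ) * yy z) = δ / 4 * yy z := by field_simp
  have h5 : 0 ≤ CC A δ * η * yy z := by
    have := CC_pos hδ hδA; positivity
  have h6 : 0 ≤ δ * yy z := by positivity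
  linarith

lemma kap_le' (hδ : 0 < δ) (hδA : δ ≤ A) (hη : 0 < η) (hA : ∀ z, xx g z ≤ A * yy z)
    {θ : ℝ} (hθ : 0 < θ) :
    ∃ c : ℝ, ∀ z : V n, kap g A δ η z ≤ 2 * (CC A δ * η + θ) * yy z + c := by
  have hApos : 0 < A := lt_of_lt_of_le hδ hδA
  set L := Real.log ((A + δ) / θ) / η with hL
  refine ⟨2 * (A + δ) * Real.exp (max L 0), fun z => ?_⟩
  obtain ⟨-, h1⟩ := quad_bounds hδ hδA (yy_pos z) (xx_nonneg g z) (hA z)
  unfold kap FF
  have hE := exp_log_le_one hη.le z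
  have hE0 := Real.exp_pos (-η * Real.log (yy z))
  have hy := yy_pos z
  set Q := δ * yy z + (1 - δ / (2 * A)) * xx g z + δ / (2 * A ^ 2) * xx g z ^ 2 / yy z with hQ
  have hQ1 : Q ≤ (A + δ) * yy z := by have := hA z; linarith
  suffices h : Real.exp (-η * Real.log (yy z)) * Q ≤ θ * yy z + (A + δ) * Real.exp (max L 0) by
    linarith
  have h2 : Real.exp (-η * Real.log (yy z)) * Q ≤
      Real.exp (-η * Real.log (yy z)) * ((A + δ) * yy z) := by gcongr
  refine h2.trans ?_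
  rcases le_or_gt (Real.log (yy z)) (max L 0) with hle | hgt
  · have h3 : yy z ≤ Real.exp (max L 0) := by
      rw [← Real.exp_log hy]; exact Real.exp_le_exp.2 hle
    have h4 : Real.exp (-η * Real.log (yy z)) * ((A + δ) * yy z) ≤
        1 * ((A + δ) * Real.exp (max L 0)) := by gcongr
    have h5 : 0 ≤ θ * yy z := by positivity
    linarith
  · have h3 : L ≤ Real.log (yy z) := (le_max_left _ _).trans hgt.le
    have h4 : Real.log ((A + δ) / θ) ≤ η * Real.log (yy z) := by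
      rw [hL, div_le_iff₀ hη] at h3; linarith
    have h5 : Real.exp (-η * Real.log (yy z)) ≤ θ / (A + δ) := by
      have h6 : Real.exp (-η * Real.log (yy z)) ≤ Real.exp (-Real.log ((A + δ) / θ)) := by
        apply Real.exp_le_exp.2; linarith
      rw [Real.exp_neg, Real.exp_log (by positivity), inv_div] at h6
      exact h6
    have h6 : Real.exp (-η * Real.log (yy z)) * ((A + δ) * yy z) ≤
        θ / (A + δ) * ((A + δ) * yy z) := by gcongr
    have h7 : θ / (A + δ) * ((A + δ) * yy z) = θ * yy z := by field_simp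
    have h8 : 0 ≤ (A + δ) * Real.exp (max L 0) := by positivity
    linarith

lemma normSq_le_exp (g : V n → ℂ) (z : V n) : 1 + Complex.normSq (g z) = Real.exp (2 * xx g z) := by
  have h1 : 0 < 1 + Complex.normSq (g z) := by
    have := Complex.normSq_nonneg (g z); positivity
  unfold xx
  rw [show 2 * (1 / 2 * Real.log (1 + Complex.normSq (g z))) = Real.log (1 + Complex.normSq (g z))
    by ring, Real.exp_log h1]

/-- `|φ|² e^κ ≤ (|φ|² + |φ g|²) e^{...}` -/
lemma normSq_mul_exp_kap_le (hδ : 0 < δ) (hδA : δ ≤ A) (hη : 0 ≤ η)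
    (hA : ∀ z, xx g z ≤ A * yy z) (φ : V n → ℂ) (z : V n) :
    ‖φ z‖ ^ 2 * Real.exp (kap g A δ η z) ≤
      (‖φ z‖ ^ 2 + ‖φ z * g z‖ ^ 2) * Real.exp (2 * (δ + CC A δ * η) * yy z) := by
  have h1 := kap_le hδ hδA hη hA z
  have h2 : Real.exp (kap g A δ η z) ≤
      (1 + Complex.normSq (g z)) * Real.exp (2 * (δ + CC A δ * η) * yy z) := by
    rw [normSq_le_exp, ← Real.exp_add]
    exact Real.exp_le_exp.2 h1
  have h3 : Complex.normSq (g z) = ‖g z‖ ^ 2 := Complex.normSq_eq_norm_sq _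
  calc ‖φ z‖ ^ 2 * Real.exp (kap g A δ η z) ≤ ‖φ z‖ ^ 2 * ((1 + Complex.normSq (g z)) *
        Real.exp (2 * (δ + CC A δ * η) * yy z)) := by gcongr
    _ = (‖φ z‖ ^ 2 + ‖φ z * g z‖ ^ 2) * Real.exp (2 * (δ + CC A δ * η) * yy z) := by
        rw [h3, norm_mul]; ring

lemma yy_le_l1 (z : V n) : yy z ≤ 1 + l1 z := by
  have h0 := l1_nonneg z
  have h1 : nsq z ≤ l1 z ^ 2 := by
    unfold nsq l1
    simp only [Complex.normSq_eq_norm_sq]
    exact Finset.sum_sq_le_sq_sum_of_nonneg fun _ _ => norm_nonneg _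
  unfold yy
  rw [show 1 + l1 z = Real.sqrt ((1 + l1 z) ^ 2) by rw [Real.sqrt_sq (by linarith)]]
  apply Real.sqrt_le_sqrt
  nlinarith

lemma norm_le_yy (z : V n) : ‖z‖ ≤ yy z := by
  rw [pi_norm_le_iff_of_nonneg (yy_pos z).le]
  intro j
  unfold yy
  rw [show ‖z j‖ = Real.sqrt (‖z j‖ ^ 2) by rw [Real.sqrt_sq (norm_nonneg _)]]
  apply Real.sqrt_le_sqrt
  have h1 : ‖z j‖ ^ 2 ≤ nsq z := by
    unfold nsq
    simp only [Complex.normSq_eq_norm_sq]
    exact Finset.single_le_sum (f := fun j => ‖z j‖ ^ 2) (fun _ _ => by positivity)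
      (Finset.mem_univ j)
  linarith

end Pool.Agent.Lib.MP_ce3242_an
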