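import Mathlib

set_option autoImplicit false

open Matrix

/-!
# The algebra behind the Cauchy-Fantappie formula

Commuting derivations on a commutative algebra: the Piola identity and its consequences.
-/

namespace Pool.Agent.Lib.MP_ce3242_an.CF

section Algebra

variable {ι : Type*} [Fintype ι] [DecidableEq ι] {R : Type*} [CommRing R] [Algebra ℂ R]

/-- A derivation of a finite product. -/
lemma derivation_prod (d : Derivation ℂ R R) (s : Finset ι) (f : ι → R) :
    d (∏ i ∈ s, f i) = ∑ i ∈ s, d (f i) * ∏ j ∈ s.erase i, f j := by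
  classical
  induction s using Finset.induction_on with
  | empty => simp
  | insert a s ha ih =>
    rw [Finset.prod_insert ha, Derivation.leibniz, ih, Finset.sum_insert ha,
      Finset.erase_insert ha]
    simp only [smul_eq_mul]
    rw [add_comm]
    congr 1
    · ring
    · rw [Finset.mul_sum]
      refine Finset.sum_congr rfl fun i hi => ?_
      have hia : i ≠ a := fun h => ha (h ▸ hi)
      rw [Finset.erase_insert_of_ne hia.symm, Finset.prod_insert]
      · ring
      · intro h
        exact ha (Finset.mem_of_mem_erase h)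

/-- A derivation of a determinant, column by column. -/
lemma derivation_det (d : Derivation ℂ R R) (M : Matrix ι ι R) :
    d M.det = ∑ i, (M.updateCol i (fun l => d (M l i))).det := by
  classical
  have h1 : ∀ i : ι, (M.updateCol i (fun l => d (M l i))).det =
      ∑ σ : Equiv.Perm ι, ((Equiv.Perm.sign σ : ℤ) : R) *
        (d (M (σ i) i) * ∏ j ∈ Finset.univ.erase i, M (σ j) j) := by
    intro i
    rw [Matrix.det_apply']
    refine Finset.sum_congr rfl fun σ _ => ?_
    rw [← Finset.mul_prod_erase Finset.univ _ (Finset.mem_univ i)]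
    congr 2
    · simp
    · refine Finset.prod_congr rfl fun j hj => ?_
      rw [Matrix.updateCol_ne (Finset.ne_of_mem_erase hj)]
  simp_rw [h1]
  rw [Finset.sum_comm, Matrix.det_apply', map_sum]
  refine Finset.sum_congr rfl fun σ _ => ?_
  rw [Derivation.leibniz, derivation_prod]
  simp [Finset.mul_sum]

/-- Expansion of a determinant along a column, through `cramer`. -/
lemma det_updateCol_expand (M : Matrix ι ι R) (i : ι) (v : ι → R) :
    (M.updateCol i v).det = ∑ b, v b * (M.updateCol i (Pi.single b 1)).det := by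
  classical
  have h := map_sum (Matrix.cramer M) (fun b => v b • (Pi.single b (1 : R) : ι → R)) Finset.univ
  rw [← Matrix.cramer_apply]
  have hv : v = ∑ b, v b • (Pi.single b (1 : R) : ι → R) := by
    ext l
    simp [Finset.sum_apply, Pi.single_apply]
  conv_lhs => rw [hv]
  rw [h, Finset.sum_apply]
  refine Finset.sum_congr rfl fun b _ => ?_
  rw [map_smul, Pi.smul_apply, Matrix.cramer_apply, smul_eq_mul]

lemma det_swap (M : Matrix ι ι R) {i j : ι} (hij : i ≠ j) (u v : ι → R) :
    ((M.updateCol j u).updateCol i v).det = - ((M.updateCol j v).updateCol i u).det := by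
  classical
  have h : ((M.updateCol j u).updateCol i v) =
      ((M.updateCol j v).updateCol i u).submatrix id (Equiv.swap i j) := by
    ext a b
    rw [Matrix.submatrix_apply]
    by_cases hb : b = i
    · subst hb
      rw [Equiv.swap_apply_left]
      simp [Matrix.updateCol_apply, hij.symm]
    · by_cases hb' : b = j
      · subst hb'
        rw [Equiv.swap_apply_right]
        simp [Matrix.updateCol_apply, hb]
      · rw [Equiv.swap_apply_of_ne_of_ne hb hb']
        simp [Matrix.updateCol_apply, hb, hb']
  rw [h, Matrix.det_permute', Equiv.Perm.sign_swap hij]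
  simp

/-- The Piola identity. -/
lemma piola (d : ι → Derivation ℂ R R) (hcomm : ∀ a b x, d a (d b x) = d b (d a x))
    (q : ι → R) (j : ι) :
    ∑ a, d a (((Matrix.of fun l m => d l (q m)).updateCol j (Pi.single a 1)).det) = 0 := by
  classical
  set B : Matrix ι ι R := Matrix.of fun l m => d l (q m) with hB
  -- the sum over the columns
  have h1 : ∀ a, d a ((B.updateCol j (Pi.single a 1)).det) =
      ∑ i ∈ Finset.univ.erase j, ∑ b, d a (d b (q i)) *
        ((B.updateCol j (Pi.single a 1)).updateCol i (Pi.single b 1)).det := by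
    intro a
    rw [derivation_det, ← Finset.add_sum_erase Finset.univ _ (Finset.mem_univ j)]
    have h0 : ((B.updateCol j (Pi.single a 1)).updateCol j
        (fun l => d a ((B.updateCol j (Pi.single a 1)) l j))).det = 0 := by
      refine Matrix.det_eq_zero_of_column_eq_zero j fun l => ?_
      rw [Matrix.updateCol_self, Matrix.updateCol_self]
      by_cases hla : l = a
      · subst hla; simp
      · simp [hla]
    rw [h0, zero_add]
    refine Finset.sum_congr rfl fun i hi => ?_
    have hij : i ≠ j := Finset.ne_of_mem_erase hi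
    rw [det_updateCol_expand]
    refine Finset.sum_congr rfl fun b _ => ?_
    congr 2
    rw [Matrix.updateCol_ne hij]
    rfl
  simp_rw [h1]
  rw [Finset.sum_comm]
  refine Finset.sum_eq_zero fun i hi => ?_
  have hij : i ≠ j := Finset.ne_of_mem_erase hi
  set T : R := ∑ a, ∑ b, d a (d b (q i)) *
        ((B.updateCol j (Pi.single a 1)).updateCol i (Pi.single b 1)).det with hT
  have hneg : T = - T := by
    conv_lhs => rw [hT, Finset.sum_comm]
    rw [hT, ← Finset.sum_neg_distrib]
    refine Finset.sum_congr rfl fun a _ => ?_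
    rw [← Finset.sum_neg_distrib]
    refine Finset.sum_congr rfl fun b _ => ?_
    rw [det_swap B hij, hcomm b a]
    ring
  have h2 : T + T = 0 := by
    nth_rewrite 1 [hneg]
    ring
  have h3 : T = (1 / 2 : ℂ) • (T + T) := by
    rw [← two_smul ℂ T, smul_smul]
    norm_num
  rw [h3, h2, smul_zero]

/-- The vector field `X`. -/
noncomputable def X (d : ι → Derivation ℂ R R) (q : ι → R) (a : ι) : R :=
  ∑ j, ((Matrix.of fun l m => d l (q m)).updateCol j (Pi.single a 1)).det * q j

/-- The determinant `D`. -/
noncomputable def D (d : ι → Derivation ℂ R R) (q : ι → R) : R :=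
  (Matrix.of fun l m => d l (q m)).det

lemma cof_eq_adjugate (B : Matrix ι ι R) (a j : ι) :
    (B.updateCol j (Pi.single a 1)).det = (adjugate Bᵀ) a j := by
  rw [Matrix.adjugate_def, Matrix.transpose_transpose, Matrix.of_apply, Matrix.cramer_apply]

/-- `∑ ∂̄_a X_a = n D`. -/
lemma sum_d_X (d : ι → Derivation ℂ R R) (hcomm : ∀ a b x, d a (d b x) = d b (d a x))
    (q : ι → R) : ∑ a, d a (X d q a) = (Fintype.card ι : R) * D d q := by
  classical
  set B : Matrix ι ι R := Matrix.of fun l m => d l (q m) with hB
  have h1 : ∀ a, d a (X d q a) = ∑ j, d a ((B.updateCol j (Pi.single a 1)).det) * q j +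
      ∑ j, (adjugate Bᵀ) a j * Bᵀ j a := by
    intro a
    rw [X, map_sum, ← Finset.sum_add_distrib]
    refine Finset.sum_congr rfl fun j _ => ?_
    rw [Derivation.leibniz, ← cof_eq_adjugate]
    simp only [smul_eq_mul]
    rw [add_comm]
    congr 1
    ring
  simp_rw [h1]
  rw [Finset.sum_add_distrib, Finset.sum_comm]
  have h2 : ∑ j, ∑ a, d a ((B.updateCol j (Pi.single a 1)).det) * q j = 0 := by
    refine Finset.sum_eq_zero fun j _ => ?_
    rw [← Finset.sum_mul, piola d hcomm q j, zero_mul]
  rw [h2, zero_add]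
  have h3 : ∑ a, ∑ j, (adjugate Bᵀ) a j * Bᵀ j a = Matrix.trace (adjugate Bᵀ * Bᵀ) := by
    simp [Matrix.trace, Matrix.mul_apply]
  rw [h3, Matrix.adjugate_mul, Matrix.trace_smul, Matrix.trace_one, Matrix.det_transpose]
  rw [smul_eq_mul, mul_comm]
  rfl

/-- `∑ X_a ∂̄_a Φ = D Φ` for `Φ = ∑ q_j z_j` with `∂̄ z_j = 0`. -/
lemma sum_X_d_phi (d : ι → Derivation ℂ R R) (q z : ι → R) (hz : ∀ a l, d a (z l) = 0) :
    ∑ a, X d q a * d a (∑ l, q l * z l) = D d q * ∑ l, q l * z l := by
  classical
  set B : Matrix ι ι R := Matrix.of fun l m => d l (q m) with hB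
  have h1 : ∀ a, d a (∑ l, q l * z l) = ∑ l, Bᵀ l a * z l := by
    intro a
    rw [map_sum]
    refine Finset.sum_congr rfl fun l _ => ?_
    rw [Derivation.leibniz, hz]
    simp only [smul_eq_mul, mul_zero, zero_add]
    rw [mul_comm]
    rfl
  have h2 : ∀ a, X d q a = ∑ j, (adjugate Bᵀ) a j * q j := by
    intro a
    rw [X]
    refine Finset.sum_congr rfl fun j _ => ?_
    rw [← cof_eq_adjugate]
  simp_rw [h1, h2]
  have h3 : ∀ l j, ∑ a, Bᵀ l a * (adjugate Bᵀ) a j = if l = j then B.det else 0 := by
    intro l j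
    rw [← Matrix.mul_apply, Matrix.mul_adjugate, Matrix.det_transpose, Matrix.smul_apply,
      Matrix.one_apply]
    simp
  calc ∑ a, (∑ j, (adjugate Bᵀ) a j * q j) * ∑ l, Bᵀ l a * z l
      = ∑ a, ∑ l, ∑ j, (Bᵀ l a * (adjugate Bᵀ) a j) * (q j * z l) := by
        refine Finset.sum_congr rfl fun a _ => ?_
        rw [Finset.mul_sum]
        refine Finset.sum_congr rfl fun l _ => ?_
        rw [Finset.sum_mul]
        refine Finset.sum_congr rfl fun j _ => ?_
        ring
    _ = ∑ l, ∑ j, ∑ a, (Bᵀ l a * (adjugate Bᵀ) a j) * (q j * z l) := by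
        rw [Finset.sum_comm]
        refine Finset.sum_congr rfl fun l _ => ?_
        rw [Finset.sum_comm]
    _ = ∑ l, B.det * (q l * z l) := by
        refine Finset.sum_congr rfl fun l _ => ?_
        simp_rw [← Finset.sum_mul, h3]
        simp
    _ = D d q * ∑ l, q l * z l := by
        rw [Finset.mul_sum]
        rfl

/-- The divergence identity behind the Cauchy-Fantappie formula. -/
lemma divergence (d : ι → Derivation ℂ R R) (hcomm : ∀ a b x, d a (d b x) = d b (d a x))
    (q z : ι → R) (hz : ∀ a l, d a (z l) = 0) (s : R) (E u : R)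
    (hE : ∀ a, d a E = - (s * d a (∑ l, q l * z l) * E)) :
    ∑ a, d a (u * (X d q a * E)) = ∑ a, d a u * (X d q a * E) +
      u * (D d q * (((Fintype.card ι : R) - s * ∑ l, q l * z l) * E)) := by
  classical
  have h1 : ∀ a, d a (u * (X d q a * E)) = d a u * (X d q a * E) +
      (u * E * d a (X d q a) - u * E * s * (X d q a * d a (∑ l, q l * z l))) := by
    intro a
    rw [Derivation.leibniz, Derivation.leibniz, hE]
    simp only [smul_eq_mul]
    ring
  simp_rw [h1]
  rw [Finset.sum_add_distrib, Finset.sum_sub_distrib, ← Finset.mul_sum, ← Finset.mul_sum,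
    sum_d_X d hcomm, sum_X_d_phi d q z hz]
  ring

end Algebra

end Pool.Agent.Lib.MP_ce3242_an.CF
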