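import Pool.Agent.Lib.MP_ce3242_an.CFSmooth

set_option autoImplicit false

open Set Filter Topology MeasureTheory Metric
open scoped ContDiff Manifold

/-!
# Cut-offs and the separating field for a convex compact set
-/

namespace Pool.Agent.Lib.MP_ce3242_an.CF

lemma pair_sub {n : ℕ} (q x y : V n) : pair q (x - y) = pair q x - pair q y := by
  simp [pair, mul_sub, Finset.sum_sub_distrib]

lemma pair_add_left {n : ℕ} (p q x : V n) : pair (p + q) x = pair p x + pair q x := by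
  simp [pair, add_mul, Finset.sum_add_distrib]

lemma pair_smul_left {n : ℕ} (c : ℂ) (q x : V n) : pair (c • q) x = c * pair q x := by
  simp [pair, Finset.mul_sum, mul_assoc]

/-- Separation of a point from a compact convex set by `z ↦ (q, z)`. -/
lemma exists_sep {n : ℕ} {K : Set (V n)} (hK : IsCompact K) (hKc : Convex ℝ K) (w : V n)
    (hw : w ∉ K) : ∃ q : V n, ∀ ξ ∈ K, 2 ≤ (pair q (w - ξ)).re := by
  obtain ⟨f, u, h1, h2⟩ := RCLike.geometric_hahn_banach_closed_point (𝕜 := ℂ) hKc hK.isClosed hw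
  have hf : ∀ z : V n, f z = pair (fun j => f (Pi.single j 1)) z := by
    intro z
    have hz : z = ∑ j, z j • (Pi.single j (1 : ℂ) : V n) := by
      ext l
      simp [Finset.sum_apply, Pi.single_apply]
    conv_lhs => rw [hz]
    rw [map_sum, pair]
    refine Finset.sum_congr rfl fun j _ => ?_
    rw [map_smul, smul_eq_mul, mul_comm]
  set η : ℝ := (f w).re - u with hη
  have hηpos : 0 < η := by
    have : u < (f w).re := h2
    linarith
  refine ⟨((2 / η : ℝ) : ℂ) • (fun j => f (Pi.single j 1)), fun ξ hξ => ?_⟩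
  rw [pair_smul_left, ← hf, Complex.re_ofReal_mul, map_sub, Complex.sub_re]
  have h3 : (f ξ).re < u := h1 ξ hξ
  have h4 : η ≤ (f w).re - (f ξ).re := by rw [hη]; linarith
  calc (2 : ℝ) = 2 / η * η := by field_simp
    _ ≤ 2 / η * ((f w).re - (f ξ).re) := by gcongr

/-- A real smooth function as an element of `Sm n`. -/
noncomputable def ofRealSm {n : ℕ} (f : V n → ℝ) (hf : ContDiff ℝ ∞ f) : Sm n :=
  ⟨fun z => (f z : ℂ), Complex.ofRealCLM.contDiff.comp hf⟩

@[simp] lemma ofRealSm_apply {n : ℕ} (f : V n → ℝ) (hf : ContDiff ℝ ∞ f) (z : V n) :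
    (ofRealSm f hf : V n → ℂ) z = (f z : ℂ) := rfl

/-- The conjugate coordinate `conj (w_j - ξ_j)`. -/
noncomputable def conjSm {n : ℕ} (ξ : V n) (j : Fin n) : Sm n :=
  ⟨fun w => (starRingEnd ℂ) (w j - ξ j), by
    change ContDiff ℝ ∞ (fun w : V n => (starRingEnd ℂ) (w j - ξ j))
    have h1 : ContDiff ℝ ∞ (fun w : V n => w j - ξ j) :=
      ((ContinuousLinearMap.proj (R := ℝ) (φ := fun _ : Fin n => ℂ) j).contDiff).sub contDiff_const
    exact Complex.conjCLE.toContinuousLinearMap.contDiff.comp h1⟩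

@[simp] lemma conjSm_apply {n : ℕ} (ξ : V n) (j : Fin n) (w : V n) :
    (conjSm ξ j : V n → ℂ) w = (starRingEnd ℂ) (w j - ξ j) := rfl

/-- The coordinate `w_j - ξ_j`. -/
noncomputable def coordSm {n : ℕ} (ξ : V n) (j : Fin n) : Sm n :=
  ⟨fun w => w j - ξ j, by
    change ContDiff ℝ ∞ (fun w : V n => w j - ξ j)
    exact ((ContinuousLinearMap.proj (R := ℝ)
      (φ := fun _ : Fin n => ℂ) j).contDiff).sub contDiff_const⟩

@[simp] lemma coordSm_apply {n : ℕ} (ξ : V n) (j : Fin n) (w : V n) :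
    (coordSm ξ j : V n → ℂ) w = w j - ξ j := rfl

lemma db_coordSm {n : ℕ} (ξ : V n) (a j : Fin n) : db a (coordSm ξ j) = 0 := by
  ext w
  refine db_eq_zero_of_differentiableAt a _ w ?_
  change DifferentiableAt ℂ (fun w : V n => w j - ξ j) w
  exact ((ContinuousLinearMap.proj (R := ℂ)
    (φ := fun _ : Fin n => ℂ) j).differentiableAt).sub_const _

/-- The cut-offs and the separating field. -/
lemma exists_data {n : ℕ} {Ω K : Set (V n)} (hΩ : IsOpen Ω) (hK : IsCompact K)
    (hKc : Convex ℝ K) (hKn : K.Nonempty) (hKΩ : K ⊆ Ω) :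
    ∃ (χ χ₁ : Sm n) (q : Fin n → Sm n) (K' : Set (V n)), IsCompact K' ∧ K' ⊆ Ω ∧ K ⊆ K' ∧
      (∀ w, w ∉ K' → (χ : V n → ℂ) w = 0) ∧
      (∀ ξ ∈ K, ∀ᶠ w in 𝓝 ξ, (χ : V n → ℂ) w = 1 ∧ (χ₁ : V n → ℂ) w = 1 ∧
        ∀ j, (q j : V n → ℂ) w = 0) ∧
      (∀ w, ∀ ξ ∈ K, min (∑ j, ‖w j - ξ j‖ ^ 2) 1 ≤
        (∑ j, ((q j : V n → ℂ) w + (χ₁ : V n → ℂ) w * (starRingEnd ℂ) (w j - ξ j)) *
          (w j - ξ j)).re) ∧
      (∀ w, (∀ᶠ y in 𝓝 w, (χ : V n → ℂ) y = 1) ∨ ((∀ᶠ y in 𝓝 w, (χ₁ : V n → ℂ) y = 0) ∧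
        ∀ ξ ∈ K, 1 ≤ (pair (fun j => (q j : V n → ℂ) w) (w - ξ)).re)) := by
  classical
  obtain ⟨δ₀, hδ₀, hδΩ⟩ := hK.exists_cthickening_subset_open hΩ hKΩ
  set δ : ℝ := δ₀ / 4 with hδ
  have hδpos : 0 < δ := by positivity
  set S : ℝ → Set (V n) := fun t => {w | infDist w K ≤ t} with hS
  have hcont : Continuous fun w : V n => infDist w K := continuous_infDist_pt K
  have hSclosed : ∀ t, IsClosed (S t) := fun t => isClosed_le hcont continuous_const
  have hSint : ∀ s t, s < t → S s ⊆ interior (S t) := by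
    intro s t hst
    have hop : IsOpen {w : V n | infDist w K < t} := isOpen_lt hcont continuous_const
    have h1 : S s ⊆ {w : V n | infDist w K < t} := fun w hw =>
      lt_of_le_of_lt (show infDist w K ≤ s from hw) hst
    have h2 : {w : V n | infDist w K < t} ⊆ interior (S t) :=
      hop.subset_interior_iff.2 fun w hw => le_of_lt (show infDist w K < t from hw)
    exact h1.trans h2
  have hK' : S δ₀ ⊆ cthickening δ₀ K := by
    intro w hw
    obtain ⟨y, hy, hyw⟩ := hK.exists_infDist_eq_dist hKn w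
    exact mem_cthickening_of_dist_le w y δ₀ K hy (hyw ▸ hw)
  have hS4 : S (4 * δ) ⊆ cthickening δ₀ K := by
    have : 4 * δ = δ₀ := by rw [hδ]; ring
    rw [this]; exact hK'
  obtain ⟨χ, hχ1, hχ0, hχ01⟩ := exists_contMDiffMap_one_nhds_of_subset_interior 𝓘(ℝ, V n)
    (n := (⊤ : ℕ∞)) (hSclosed (3 * δ)) (hSint (3 * δ) (4 * δ) (by linarith))
  obtain ⟨χ₁, hχ₁1, hχ₁0, hχ₁01⟩ := exists_contMDiffMap_one_nhds_of_subset_interior 𝓘(ℝ, V n)
    (n := (⊤ : ℕ∞)) (hSclosed (2 * δ)) (hSint (2 * δ) (3 * δ) (by linarith))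
  -- the field
  have hconv : ∀ w : V n, Convex ℝ {p : V n | (infDist w K < δ → p = 0) ∧
      (∀ ξ ∈ K, 0 ≤ (pair p (w - ξ)).re) ∧
      (2 * δ ≤ infDist w K → ∀ ξ ∈ K, 1 ≤ (pair p (w - ξ)).re)} := by
    intro w p hp p' hp' a b ha hb hab
    have hre : ∀ ξ, (pair (a • p + b • p') (w - ξ)).re =
        a * (pair p (w - ξ)).re + b * (pair p' (w - ξ)).re := by
      intro ξ
      have h1 : (a • p + b • p' : V n) = (a : ℂ) • p + (b : ℂ) • p' := by
        ext j; simp
      rw [h1, pair_add_left, pair_smul_left, pair_smul_left, Complex.add_re,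
        Complex.re_ofReal_mul, Complex.re_ofReal_mul]
    refine ⟨fun h => ?_, fun ξ hξ => ?_, fun h ξ hξ => ?_⟩
    · rw [hp.1 h, hp'.1 h]; simp
    · rw [hre]
      have := hp.2.1 ξ hξ
      have := hp'.2.1 ξ hξ
      positivity
    · rw [hre]
      have h1 := hp.2.2 h ξ hξ
      have h2 := hp'.2.2 h ξ hξ
      nlinarith
  have hloc : ∀ w : V n, ∃ c : V n, ∀ᶠ y in 𝓝 w, c ∈ {p : V n | (infDist y K < δ → p = 0) ∧
      (∀ ξ ∈ K, 0 ≤ (pair p (y - ξ)).re) ∧
      (2 * δ ≤ infDist y K → ∀ ξ ∈ K, 1 ≤ (pair p (y - ξ)).re)} := by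
    intro w
    by_cases hw : infDist w K < 2 * δ
    · refine ⟨0, ?_⟩
      filter_upwards [hcont.continuousAt.eventually_lt continuousAt_const hw] with y hy
      refine ⟨fun _ => rfl, fun ξ _ => ?_, fun h => absurd h (not_le.2 hy)⟩
      simp [pair]
    · have hw2 : 2 * δ ≤ infDist w K := not_lt.1 hw
      have hwK : w ∉ K := by
        intro h
        rw [infDist_zero_of_mem h] at hw2
        linarith
      obtain ⟨p, hp⟩ := exists_sep hK hKc w hwK
      refine ⟨p, ?_⟩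
      have h1 : ∀ᶠ y in 𝓝 w, δ < infDist y K := by
        have : δ < infDist w K := by linarith
        exact continuousAt_const.eventually_lt hcont.continuousAt this
      have h2 : ∀ᶠ y in 𝓝 w, -1 < (pair p (y - w)).re := by
        have hc : Continuous fun y : V n => (pair p (y - w)).re :=
          Complex.continuous_re.comp ((continuous_pair_right p).comp (continuous_id.sub continuous_const))
        have : (-1 : ℝ) < (pair p (w - w)).re := by simp [pair]
        exact continuousAt_const.eventually_lt hc.continuousAt this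
      filter_upwards [h1, h2] with y hy1 hy2
      have hre : ∀ ξ ∈ K, 1 ≤ (pair p (y - ξ)).re := by
        intro ξ hξ
        have h3 : y - ξ = (y - w) - (ξ - w) := by abel
        have h4 : (pair p (y - ξ)).re = (pair p (y - w)).re + (pair p (w - ξ)).re := by
          rw [pair_sub, pair_sub, pair_sub]
          simp only [Complex.sub_re]
          ring
        have := hp ξ hξ
        rw [h4]; linarith
      exact ⟨fun h => absurd h (not_lt.2 hy1.le), fun ξ hξ => le_trans zero_le_one (hre ξ hξ),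
        fun _ => hre⟩
  obtain ⟨Q, hQ⟩ := exists_contMDiffMap_forall_mem_convex_of_local_const 𝓘(ℝ, V n) (n := (⊤ : ℕ∞))
    hconv hloc
  have hQs : ContDiff ℝ ∞ (Q : V n → V n) := Q.contMDiff.contDiff
  have hχs : ContDiff ℝ ∞ (χ : V n → ℝ) := χ.contMDiff.contDiff
  have hχ₁s : ContDiff ℝ ∞ (χ₁ : V n → ℝ) := χ₁.contMDiff.contDiff
  refine ⟨ofRealSm χ hχs, ofRealSm χ₁ hχ₁s, fun j => ⟨fun w => Q w j, ?_⟩, S (4 * δ), ?_, ?_, ?_,
    ?_, ?_, ?_, ?_⟩
  · exact (ContinuousLinearMap.proj (R := ℝ) (φ := fun _ : Fin n => ℂ) j).contDiff.comp hQs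
  · exact (hK.cthickening (r := δ₀)).of_isClosed_subset (hSclosed _) hS4
  · exact hS4.trans hδΩ
  · intro w hw
    change infDist w K ≤ 4 * δ
    rw [infDist_zero_of_mem hw]; positivity
  · intro w hw
    rw [ofRealSm_apply, hχ0 w hw]; simp
  · intro ξ hξ
    have h0 : infDist ξ K < δ := by rw [infDist_zero_of_mem hξ]; exact hδpos
    have e1 := hcont.continuousAt.eventually_lt continuousAt_const h0
    filter_upwards [e1] with w hw
    have hwd : infDist w K < δ := hw
    refine ⟨?_, ?_, fun j => ?_⟩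
    · have := hχ1.self_of_nhdsSet w (show infDist w K ≤ 3 * δ by linarith)
      rw [ofRealSm_apply, this]; simp
    · have := hχ₁1.self_of_nhdsSet w (show infDist w K ≤ 2 * δ by linarith)
      rw [ofRealSm_apply, this]; simp
    · change Q w j = 0
      rw [(hQ w).1 hwd]; rfl
  · intro w ξ hξ
    have hsplit : (∑ j, (Q w j + (ofRealSm χ₁ hχ₁s : V n → ℂ) w * (starRingEnd ℂ) (w j - ξ j)) *
        (w j - ξ j)).re = (pair (Q w) (w - ξ)).re + χ₁ w * ∑ j, ‖w j - ξ j‖ ^ 2 := by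
      have h1 : ∑ j, (Q w j + (ofRealSm χ₁ hχ₁s : V n → ℂ) w * (starRingEnd ℂ) (w j - ξ j)) *
        (w j - ξ j) = pair (Q w) (w - ξ) + ((χ₁ w * ∑ j, ‖w j - ξ j‖ ^ 2 : ℝ) : ℂ) := by
        rw [pair]
        push_cast
        rw [Finset.mul_sum, ← Finset.sum_add_distrib]
        refine Finset.sum_congr rfl fun j _ => ?_
        rw [ofRealSm_apply, add_mul, mul_assoc, mul_comm ((starRingEnd ℂ) (w j - ξ j)),
          Complex.mul_conj, Complex.normSq_eq_norm_sq]
        push_cast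
        rfl
      rw [h1, Complex.add_re, Complex.ofReal_re]
    change _ ≤ (∑ j, (Q w j + (ofRealSm χ₁ hχ₁s : V n → ℂ) w * (starRingEnd ℂ) (w j - ξ j)) *
        (w j - ξ j)).re
    rw [hsplit]
    have hsum0 : 0 ≤ ∑ j, ‖w j - ξ j‖ ^ 2 := Finset.sum_nonneg fun j _ => by positivity
    by_cases hw : infDist w K ≤ 2 * δ
    · have h1 : χ₁ w = 1 := hχ₁1.self_of_nhdsSet w hw
      have h2 := (hQ w).2.1 ξ hξ
      rw [h1]
      calc min (∑ j, ‖w j - ξ j‖ ^ 2) 1 ≤ ∑ j, ‖w j - ξ j‖ ^ 2 := min_le_left _ _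
        _ ≤ _ := by linarith
    · have h2 := (hQ w).2.2 (le_of_lt (not_le.1 hw)) ξ hξ
      have h3 := (hχ₁01 w).1
      calc min (∑ j, ‖w j - ξ j‖ ^ 2) 1 ≤ 1 := min_le_right _ _
        _ ≤ _ := by nlinarith [mul_nonneg h3 hsum0]
  · intro w
    by_cases hw : infDist w K ≤ 3 * δ
    · left
      have h1 : ∀ᶠ y in 𝓝 w, χ y = 1 := by
        have := eventually_nhdsSet_iff_forall.1 hχ1 w hw
        exact this
      filter_upwards [h1] with y hy
      rw [ofRealSm_apply, hy]; simp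
    · right
      have hw' : 3 * δ < infDist w K := not_le.1 hw
      refine ⟨?_, ?_⟩
      · filter_upwards [continuousAt_const.eventually_lt hcont.continuousAt hw'] with y hy
        rw [ofRealSm_apply, hχ₁0 y (fun h => absurd (show infDist y K ≤ 3 * δ from h) (not_le.2 hy))]
        simp
      · exact (hQ w).2.2 (by linarith)

end Pool.Agent.Lib.MP_ce3242_an.CF
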