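import Pool.Agent.Lib.MP_ce3242_an.Defs

set_option autoImplicit false

open Set Filter Topology MeasureTheory Metric

/-!
# Two facts on the integrals `∫ g e^{-sΦ}`
-/

namespace Pool.Agent.Lib.MP_ce3242_an.CF

/-- The square of the Euclidean norm. -/
noncomputable def N {n : ℕ} (v : V n) : ℝ := ∑ j, ‖v j‖ ^ 2

lemma N_nonneg {n : ℕ} (v : V n) : 0 ≤ N v := Finset.sum_nonneg fun j _ => by positivity

lemma continuous_N {n : ℕ} : Continuous (N : V n → ℝ) := by
  unfold N; fun_prop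

lemma N_smul {n : ℕ} (r : ℝ) (v : V n) : N (r • v) = r ^ 2 * N v := by
  simp [N, mul_pow, Finset.mul_sum]

lemma integrable_gauss {n : ℕ} {c : ℝ} (hc : 0 < c) :
    Integrable (fun v : V n => Real.exp (-(c * N v))) := by
  have h1 : Integrable (fun z : ℂ => Real.exp (-(c * ‖z‖ ^ 2))) := by
    have := (GaussianFourier.integrable_cexp_neg_mul_sq_norm_add (V := ℂ) (b := (c : ℂ))
      (by simpa using hc) 0 0).norm
    refine this.congr (Eventually.of_forall fun z => ?_)
    simp only [zero_mul, add_zero]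
    rw [Complex.norm_exp]
    congr 1
    have : (-(c : ℂ) * (‖z‖ : ℂ) ^ 2) = ((-(c * ‖z‖ ^ 2) : ℝ) : ℂ) := by push_cast; ring
    rw [this, Complex.ofReal_re]
  have h2 := Integrable.fintype_prod (ι := Fin n) (μ := fun _ => (volume : Measure ℂ))
    (f := fun _ : Fin n => fun z : ℂ => Real.exp (-(c * ‖z‖ ^ 2))) (fun _ => h1)
  refine h2.congr (Eventually.of_forall fun v => ?_)
  simp only []
  rw [← Real.exp_sum, N, Finset.sum_neg_distrib, Finset.mul_sum]

/-- The Gaussian constant. -/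
noncomputable def gc (n : ℕ) : ℝ := ∫ v : V n, Real.exp (-N v)

lemma gc_pos (n : ℕ) : 0 < gc n := by
  have h : Integrable (fun v : V n => Real.exp (-N v)) := by
    simpa using integrable_gauss (n := n) one_pos
  exact integral_exp_pos h

lemma hasDerivAt_G {n : ℕ} (g Φ : V n → ℂ) (hg : Continuous g) (hgc : HasCompactSupport g)
    (hΦ : Continuous Φ) (hre : ∀ w, 0 ≤ (Φ w).re) (s : ℝ) (hs : 0 < s) :
    HasDerivAt (fun s : ℝ => ∫ w, g w * Complex.exp (-(s : ℂ) * Φ w))
      (∫ w, g w * (-Φ w * Complex.exp (-(s : ℂ) * Φ w))) s := by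
  have hb : Integrable (fun w => ‖g w‖ * ‖Φ w‖) := by
    have h1 : Continuous fun w => ‖g w‖ * ‖Φ w‖ := by fun_prop
    refine h1.integrable_of_hasCompactSupport ?_
    exact hgc.norm.mul_right
  have hcs : ∀ s : ℝ, Continuous fun w => g w * Complex.exp (-(s : ℂ) * Φ w) := by
    intro s; fun_prop
  refine (hasDerivAt_integral_of_dominated_loc_of_deriv_le (bound := fun w => ‖g w‖ * ‖Φ w‖)
    (F := fun (s : ℝ) w => g w * Complex.exp (-(s : ℂ) * Φ w))
    (F' := fun (s : ℝ) w => g w * (-Φ w * Complex.exp (-(s : ℂ) * Φ w)))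
    (Ioi_mem_nhds hs) ?_ ?_ ?_ ?_ hb ?_).2
  · exact Eventually.of_forall fun s => (hcs s).aestronglyMeasurable
  · refine (hcs s).integrable_of_hasCompactSupport ?_
    exact hgc.mul_right
  · have : Continuous fun w => g w * (-Φ w * Complex.exp (-(s : ℂ) * Φ w)) := by fun_prop
    exact this.aestronglyMeasurable
  · refine Eventually.of_forall fun w t ht => ?_
    have ht0 : (0 : ℝ) < t := ht
    rw [norm_mul, norm_mul, norm_neg, Complex.norm_exp]
    have h1 : Real.exp (-(t : ℂ) * Φ w).re ≤ 1 := by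
      rw [Real.exp_le_one_iff]
      have : (-(t : ℂ) * Φ w).re = -(t * (Φ w).re) := by simp
      rw [this]
      have := mul_nonneg ht0.le (hre w)
      linarith
    calc ‖g w‖ * (‖Φ w‖ * Real.exp (-(t : ℂ) * Φ w).re) ≤ ‖g w‖ * (‖Φ w‖ * 1) := by gcongr
      _ = _ := by ring
  · refine Eventually.of_forall fun w t _ => ?_
    have h1 : HasDerivAt (fun s : ℝ => -(s : ℂ) * Φ w) (-Φ w) t := by
      have := ((Complex.ofRealCLM.hasDerivAt (x := t)).neg).mul_const (Φ w)
      simpa using this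
    have h2 := (h1.cexp).const_mul (g w)
    have h3 : g w * (-Φ w * Complex.exp (-(t : ℂ) * Φ w)) =
        g w * (Complex.exp (-(t : ℂ) * Φ w) * -Φ w) := by ring
    rw [h3]
    exact h2

/-- The approximate identity. -/
lemma tendsto_peak {n : ℕ} (g Φ : V n → ℂ) (hg : Continuous g) (hgc : HasCompactSupport g)
    (hΦ : Continuous Φ) (ξ : V n) (hre : ∀ w, min (N (w - ξ)) 1 ≤ (Φ w).re)
    (hloc : ∀ᶠ w in 𝓝 ξ, Φ w = (N (w - ξ) : ℂ)) :
    Tendsto (fun R : ℝ => (((R ^ 2) ^ n : ℝ) : ℂ) *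
      ∫ w, g w * Complex.exp (-((R ^ 2 : ℝ) : ℂ) * Φ w)) atTop (𝓝 (g ξ * (gc n : ℂ))) := by
  -- change of variables
  have hcov : ∀ R : ℝ, 0 < R → (((R ^ 2) ^ n : ℝ) : ℂ) *
      ∫ w, g w * Complex.exp (-((R ^ 2 : ℝ) : ℂ) * Φ w) =
      ∫ v, g (ξ + R⁻¹ • v) * Complex.exp (-((R ^ 2 : ℝ) : ℂ) * Φ (ξ + R⁻¹ • v)) := by
    intro R hR
    have h1 := Measure.integral_comp_smul (volume : Measure (V n))
      (fun v => g (ξ + v) * Complex.exp (-((R ^ 2 : ℝ) : ℂ) * Φ (ξ + v))) R⁻¹
    rw [h1, integral_add_left_eq_self (μ := (volume : Measure (V n)))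
      (fun w => g w * Complex.exp (-((R ^ 2 : ℝ) : ℂ) * Φ w)) ξ]
    have h2 : Module.finrank ℝ (V n) = 2 * n := by
      rw [Module.finrank_pi_fintype]
      simp [Complex.finrank_real_complex, mul_comm]
    rw [h2, inv_pow, inv_inv, abs_of_nonneg (by positivity), pow_mul, Complex.real_smul]
  have hc2 : Tendsto (fun R : ℝ => ∫ v, g (ξ + R⁻¹ • v) *
      Complex.exp (-((R ^ 2 : ℝ) : ℂ) * Φ (ξ + R⁻¹ • v))) atTop
      (𝓝 (∫ v : V n, g ξ * Complex.exp (-(N v : ℂ)))) := by
    obtain ⟨Mg, hMg⟩ := hg.bounded_above_of_compact_support hgc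
    -- the support of `g`
    obtain ⟨ρ, hρ1, hρ⟩ : ∃ ρ : ℝ, 1 ≤ ρ ∧ ∀ w, g w ≠ 0 → N (w - ξ) ≤ ρ := by
      have hcomp : IsCompact (tsupport g) := hgc
      obtain ⟨b, hb⟩ := hcomp.exists_bound_of_continuousOn (f := fun w => N (w - ξ))
        ((continuous_N.comp (continuous_id.sub continuous_const)).continuousOn)
      refine ⟨max b 1, le_max_right _ _, fun w hw => ?_⟩
      have := hb w (subset_tsupport g hw)
      exact (le_abs_self _).trans (this.trans (le_max_left _ _))
    have hρ0 : 0 < ρ := by linarith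
    refine tendsto_integral_filter_of_dominated_convergence
      (fun v => Mg * Real.exp (-(ρ⁻¹ * N v))) ?_ ?_ ?_ ?_
    · refine Eventually.of_forall fun R => ?_
      have : Continuous fun v : V n => g (ξ + R⁻¹ • v) *
          Complex.exp (-((R ^ 2 : ℝ) : ℂ) * Φ (ξ + R⁻¹ • v)) := by fun_prop
      exact this.aestronglyMeasurable
    · filter_upwards [eventually_gt_atTop (0 : ℝ)] with R hR
      refine Eventually.of_forall fun v => ?_
      have hMg0 : 0 ≤ Mg := (norm_nonneg _).trans (hMg ξ)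
      by_cases h0 : g (ξ + R⁻¹ • v) = 0
      · rw [h0, zero_mul, norm_zero]; positivity
      · have h1 := hρ _ h0
        have h2 : N (ξ + R⁻¹ • v - ξ) = R⁻¹ ^ 2 * N v := by
          rw [add_sub_cancel_left, N_smul]
        rw [h2] at h1
        have h3 := hre (ξ + R⁻¹ • v)
        rw [h2] at h3
        rw [norm_mul, Complex.norm_exp]
        have h4 : (-((R ^ 2 : ℝ) : ℂ) * Φ (ξ + R⁻¹ • v)).re =
            -(R ^ 2 * (Φ (ξ + R⁻¹ • v)).re) := by
          have : -((R ^ 2 : ℝ) : ℂ) * Φ (ξ + R⁻¹ • v) =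
            ((-(R ^ 2) : ℝ) : ℂ) * Φ (ξ + R⁻¹ • v) := by push_cast; ring
          rw [this, Complex.re_ofReal_mul]; ring
        rw [h4]
        have h5 : N v ≤ R ^ 2 * ρ := by
          have : R⁻¹ ^ 2 * N v * R ^ 2 ≤ ρ * R ^ 2 := by gcongr
          have h6 : R⁻¹ ^ 2 * N v * R ^ 2 = N v := by field_simp
          rw [h6] at this; linarith
        have h7 : ρ⁻¹ * N v ≤ R ^ 2 * (Φ (ξ + R⁻¹ • v)).re := by
          have hA : ρ⁻¹ * N v ≤ R ^ 2 * min (R⁻¹ ^ 2 * N v) 1 := by
            rw [mul_min_of_nonneg _ _ (by positivity : (0 : ℝ) ≤ R ^ 2)]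
            refine le_min ?_ ?_
            · have h6 : R ^ 2 * (R⁻¹ ^ 2 * N v) = N v := by field_simp
              rw [h6]
              have := N_nonneg v
              have h8 : ρ⁻¹ ≤ 1 := inv_le_one_of_one_le₀ hρ1
              nlinarith
            · rw [mul_one, inv_mul_le_iff₀ hρ0, mul_comm]
              exact h5
          exact hA.trans (mul_le_mul_of_nonneg_left h3 (by positivity))
        have h9 : Real.exp (-(R ^ 2 * (Φ (ξ + R⁻¹ • v)).re)) ≤ Real.exp (-(ρ⁻¹ * N v)) :=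
          Real.exp_le_exp.2 (by linarith)
        exact mul_le_mul (hMg _) h9 (Real.exp_pos _).le hMg0
    · exact (integrable_gauss (by positivity)).const_mul _
    · refine Eventually.of_forall fun v => ?_
      have hinv : Tendsto (fun R : ℝ => ξ + R⁻¹ • v) atTop (𝓝 ξ) := by
        have h1 : Tendsto (fun R : ℝ => R⁻¹ • v) atTop (𝓝 ((0 : ℝ) • v)) :=
          (tendsto_inv_atTop_zero).smul_const v
        rw [zero_smul] at h1
        simpa using tendsto_const_nhds.add h1
      have hg' : Tendsto (fun R : ℝ => g (ξ + R⁻¹ • v)) atTop (𝓝 (g ξ)) :=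
        (hg.tendsto ξ).comp hinv
      refine hg'.mul ?_
      refine Tendsto.congr' ?_ tendsto_const_nhds
      filter_upwards [hinv.eventually hloc, eventually_gt_atTop (0 : ℝ)] with R hR hR0
      rw [hR, add_sub_cancel_left, N_smul]
      congr 1
      push_cast
      have : (R : ℂ) ≠ 0 := by exact_mod_cast hR0.ne'
      field_simp
  have hlim : (∫ v : V n, g ξ * Complex.exp (-(N v : ℂ))) = g ξ * (gc n : ℂ) := by
    rw [integral_const_mul]
    congr 1
    rw [gc, ← integral_complex_ofReal]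
    refine integral_congr_ae (Eventually.of_forall fun v => ?_)
    simp only []
    push_cast
    rfl
  rw [← hlim]
  refine hc2.congr' ?_
  filter_upwards [eventually_gt_atTop (0 : ℝ)] with R hR
  exact (hcov R hR).symm

end Pool.Agent.Lib.MP_ce3242_an.CF
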