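import Pool.Agent.Lib.MP_ce3242_an.CFRep

set_option autoImplicit false

open Set Filter Topology MeasureTheory Metric
open scoped ContDiff

/-!
# The Cauchy-Fantappie representation at a point
-/

namespace Pool.Agent.Lib.MP_ce3242_an.CF

/-- The product of a cut-off with a holomorphic function. -/
lemma exists_cut {n : ℕ} {Ω K' : Set (V n)} (hK' : IsClosed K') (hK'Ω : K' ⊆ Ω)
    (χ : Sm n) (hχ : ∀ w, w ∉ K' → (χ : V n → ℂ) w = 0) (F : V n → ℂ)
    (hF : AnalyticOnNhd ℂ F Ω) :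
    ∃ u : Sm n, (∀ w, (u : V n → ℂ) w = (χ : V n → ℂ) w * F w) ∧
      ∀ a w, (db a u : V n → ℂ) w = (db a χ : V n → ℂ) w * F w := by
  have hz : ∀ w, w ∉ Ω → (χ : V n → ℂ) =ᶠ[𝓝 w] ((0 : Sm n) : V n → ℂ) := by
    intro w hw
    have hw' : w ∈ K'ᶜ := fun h => hw (hK'Ω h)
    filter_upwards [hK'.isOpen_compl.mem_nhds hw'] with y hy
    exact hχ y hy
  have hsm : ContDiff ℝ ∞ (fun w => (χ : V n → ℂ) w * F w) := by
    rw [contDiff_iff_contDiffAt]
    intro w
    by_cases hw : w ∈ Ω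
    · have h1 : ContDiffAt ℂ ∞ F w := (hF w hw).contDiffAt
      exact (sm_contDiff χ).contDiffAt.mul (h1.restrict_scalars ℝ)
    · have h1 : (fun w => (χ : V n → ℂ) w * F w) =ᶠ[𝓝 w] fun _ => (0 : ℂ) := by
        filter_upwards [hz w hw] with y hy
        rw [hy]
        change (0 : ℂ) * F y = 0
        rw [zero_mul]
      exact contDiffAt_const.congr_of_eventuallyEq h1
  refine ⟨⟨fun w => (χ : V n → ℂ) w * F w, hsm⟩, fun w => rfl, fun a w => ?_⟩
  by_cases hw : w ∈ Ω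
  · have hFd : DifferentiableAt ℂ F w := (hF w hw).differentiableAt
    have hFr : HasFDerivAt (𝕜 := ℝ) F ((fderiv ℂ F w).restrictScalars ℝ) w :=
      hFd.hasFDerivAt.restrictScalars ℝ
    have h1 : HasFDerivAt (𝕜 := ℝ) (fun w => (χ : V n → ℂ) w * F w)
        ((χ : V n → ℂ) w • (fderiv ℂ F w).restrictScalars ℝ +
          F w • fderiv ℝ (χ : V n → ℂ) w) w :=
      (sm_diff χ w).hasFDerivAt.mul hFr
    rw [db_apply, db_apply]
    have h2 : fderiv ℝ (fun w => (χ : V n → ℂ) w * F w) w = _ := h1.fderiv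
    have h3 : (Pi.single a Complex.I : V n) = Complex.I • (Pi.single a (1 : ℂ) : V n) := by
      rw [← Pi.single_smul]; simp
    change (1 / 2 : ℂ) * (fderiv ℝ (fun w => (χ : V n → ℂ) w * F w) w (Pi.single a 1) +
      Complex.I * fderiv ℝ (fun w => (χ : V n → ℂ) w * F w) w (Pi.single a Complex.I)) = _
    rw [h2]
    simp only [FunLike.coe_add, FunLike.coe_smul, Pi.add_apply, Pi.smul_apply, smul_eq_mul,
      ContinuousLinearMap.coe_restrictScalars']
    have h4 : fderiv ℂ F w (Pi.single a Complex.I) =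
        Complex.I * fderiv ℂ F w (Pi.single a 1) := by
      rw [h3, map_smul, smul_eq_mul]
    rw [h4]
    linear_combination (1 / 2 : ℂ) * (χ : V n → ℂ) w * fderiv ℂ F w (Pi.single a 1) *
      Complex.I_mul_I
  · have h1 := db_congr a χ 0 w (hz w hw)
    have h2 : (db a ((⟨fun w => (χ : V n → ℂ) w * F w, hsm⟩ : Sm n)) : V n → ℂ) w =
        (db a (0 : Sm n) : V n → ℂ) w := by
      refine db_congr a _ 0 w ?_
      filter_upwards [hz w hw] with y hy
      change (χ : V n → ℂ) y * F y = 0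
      rw [hy]
      change (0 : ℂ) * F y = 0
      rw [zero_mul]
    rw [h2, h1, map_zero]
    change (0 : ℂ) = 0 * F w
    rw [zero_mul]

/-- The density of the representation. -/
noncomputable def kap {n : ℕ} (u : Sm n) (q : Fin n → Sm n) (w : V n) : ℂ :=
  -∑ a, (db a u : V n → ℂ) w * (XX q a : V n → ℂ) w

lemma continuous_kap {n : ℕ} (u : Sm n) (q : Fin n → Sm n) : Continuous (kap u q) := by
  have hc : ∀ a, Continuous (db a u : V n → ℂ) := fun a => sm_cont _
  have hX : ∀ a, Continuous (XX q a : V n → ℂ) := fun a => sm_cont _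
  unfold kap
  fun_prop

/-- The representation formula. -/
lemma rep {n : ℕ} (hn : 0 < n) {K K' : Set (V n)} (hK' : IsCompact K')
    (χ χ₁ : Sm n) (q : Fin n → Sm n) (hχ : ∀ w, w ∉ K' → (χ : V n → ℂ) w = 0)
    (ξ : V n)
    (h2 : ∀ᶠ w in 𝓝 ξ, (χ : V n → ℂ) w = 1 ∧ (χ₁ : V n → ℂ) w = 1 ∧
        ∀ j, (q j : V n → ℂ) w = 0)
    (h3 : ∀ w, min (∑ j, ‖w j - ξ j‖ ^ 2) 1 ≤
        (∑ j, ((q j : V n → ℂ) w + (χ₁ : V n → ℂ) w * (starRingEnd ℂ) (w j - ξ j)) *
          (w j - ξ j)).re)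
    (h4 : ∀ w, (∀ᶠ y in 𝓝 w, (χ : V n → ℂ) y = 1) ∨ ((∀ᶠ y in 𝓝 w, (χ₁ : V n → ℂ) y = 0) ∧
        ∀ ξ ∈ K, 1 ≤ (pair (fun j => (q j : V n → ℂ) w) (w - ξ)).re))
    (u : Sm n) (F : V n → ℂ) (hu : ∀ w, (u : V n → ℂ) w = (χ : V n → ℂ) w * F w)
    (hdu : ∀ a w, (db a u : V n → ℂ) w = (db a χ : V n → ℂ) w * F w)
    (hint : IntegrableOn (fun s : ℝ => ∫ w, ((s ^ (n - 1) : ℝ) : ℂ) * (kap u q w *
      Complex.exp (-(s : ℂ) * pair (fun j => (q j : V n → ℂ) w) (w - ξ)))) (Ioi 0)) :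
    ∫ s in Ioi (0 : ℝ), ∫ w, ((s ^ (n - 1) : ℝ) : ℂ) * (kap u q w *
      Complex.exp (-(s : ℂ) * pair (fun j => (q j : V n → ℂ) w) (w - ξ))) = F ξ * (gc n : ℂ) := by
  -- the modified field
  set qt : Fin n → Sm n := fun j => q j + χ₁ * conjSm ξ j with hqt
  set Φ : Sm n := ∑ j, qt j * coordSm ξ j with hΦ
  have hΦe : ∀ w, (Φ : V n → ℂ) w = ∑ j, ((q j : V n → ℂ) w + (χ₁ : V n → ℂ) w *
      (starRingEnd ℂ) (w j - ξ j)) * (w j - ξ j) := by
    intro w
    refine (evp_apply w Φ).symm.trans ?_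
    rw [hΦ, map_sum]
    rfl
  have huc : HasCompactSupport (u : V n → ℂ) := by
    refine HasCompactSupport.of_support_subset_isCompact hK' ?_
    intro w hw
    by_contra h
    apply hw
    rw [hu, hχ w h, zero_mul]
  set g : V n → ℂ := fun w => (u : V n → ℂ) w * (DD qt : V n → ℂ) w with hg
  have hgc : HasCompactSupport g := huc.mul_right
  have hgcont : Continuous g := (sm_cont u).mul (sm_cont _)
  have hΦcont : Continuous (Φ : V n → ℂ) := sm_cont Φ
  have hNeq : ∀ w, N (w - ξ) = ∑ j, ‖w j - ξ j‖ ^ 2 := fun w => rfl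
  have hmin : ∀ w, min (N (w - ξ)) 1 ≤ ((Φ : V n → ℂ) w).re := by
    intro w
    rw [hNeq, hΦe]
    exact h3 w
  have hre : ∀ w, 0 ≤ ((Φ : V n → ℂ) w).re := fun w =>
    le_trans (le_min (N_nonneg _) zero_le_one) (hmin w)
  have hloc : ∀ᶠ w in 𝓝 ξ, (Φ : V n → ℂ) w = (N (w - ξ) : ℂ) := by
    filter_upwards [h2] with w hw
    rw [hΦe, hNeq]
    push_cast
    refine Finset.sum_congr rfl fun j _ => ?_
    rw [hw.2.2 j, hw.2.1, zero_add, one_mul, mul_comm, Complex.mul_conj,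
      Complex.normSq_eq_norm_sq]
    push_cast
    rfl
  have hgξ : g ξ = F ξ := by
    have hD : (DD qt : V n → ℂ) ξ = 1 := by
      rw [D_congr qt (conjSm ξ) ξ, D_eval]
      · have : (Matrix.of fun l m => (db l (conjSm ξ m) : V n → ℂ) ξ) =
            (1 : Matrix (Fin n) (Fin n) ℂ) := by
          ext l m
          rw [Matrix.of_apply, db_conjSm, Matrix.one_apply]
        rw [this, Matrix.det_one]
      · intro j
        filter_upwards [h2] with w hw
        change (q j : V n → ℂ) w + (χ₁ : V n → ℂ) w * (conjSm ξ j : V n → ℂ) w = _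
        rw [hw.2.2 j, hw.2.1, zero_add, one_mul]
    rw [hg]
    simp only []
    rw [hD, mul_one, hu, (h2.self_of_nhds).1, one_mul]
  set G : ℝ → ℂ := fun s => ∫ w, g w * Complex.exp (-(s : ℂ) * (Φ : V n → ℂ) w) with hG
  set I : ℝ → ℂ := fun s => ((s ^ n : ℝ) : ℂ) * G s with hI
  -- limit at infinity
  have hlim : Tendsto I atTop (𝓝 (F ξ * (gc n : ℂ))) := by
    have h := tendsto_peak g (Φ : V n → ℂ) hgcont hgc hΦcont ξ hmin hloc
    rw [hgξ] at h
    have h' := h.comp Real.tendsto_sqrt_atTop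
    refine h'.congr' ?_
    filter_upwards [eventually_ge_atTop (0 : ℝ)] with s hs
    simp only [Function.comp_apply, Real.sq_sqrt hs, hI, hG]
  -- continuity at zero
  have hI0 : I 0 = 0 := by
    simp only [hI]
    rw [zero_pow hn.ne']
    simp
  have hcont0 : ContinuousWithinAt I (Ici 0) 0 := by
    rw [ContinuousWithinAt, hI0]
    have hb : ∀ s ∈ Ici (0 : ℝ), ‖I s‖ ≤ s ^ n * ∫ w, ‖g w‖ := by
      intro s hs
      have hs0 : (0 : ℝ) ≤ s := hs
      simp only [hI, norm_mul]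
      rw [Complex.norm_real, Real.norm_of_nonneg (pow_nonneg hs0 n)]
      refine mul_le_mul_of_nonneg_left ?_ (pow_nonneg hs0 n)
      refine norm_integral_le_of_norm_le
        (hgcont.norm.integrable_of_hasCompactSupport hgc.norm)
        (Eventually.of_forall fun w => ?_)
      rw [norm_mul, Complex.norm_exp]
      have h1 : (-(s : ℂ) * (Φ : V n → ℂ) w).re = -(s * ((Φ : V n → ℂ) w).re) := by simp
      rw [h1]
      have h5 : Real.exp (-(s * ((Φ : V n → ℂ) w).re)) ≤ 1 := by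
        rw [Real.exp_le_one_iff]
        have := mul_nonneg hs0 (hre w)
        linarith
      calc ‖g w‖ * Real.exp (-(s * ((Φ : V n → ℂ) w).re)) ≤ ‖g w‖ * 1 := by gcongr
        _ = ‖g w‖ := mul_one _
    refine squeeze_zero_norm' (eventually_mem_nhdsWithin.mono hb) ?_
    have h6 : Tendsto (fun s : ℝ => s ^ n * ∫ w, ‖g w‖) (𝓝 0) (𝓝 (0 ^ n * ∫ w, ‖g w‖)) :=
      ((continuous_pow n).mul continuous_const).tendsto 0
    rw [zero_pow hn.ne', zero_mul] at h6
    exact h6.mono_left nhdsWithin_le_nhds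
  -- the pointwise identity
  have hpt : ∀ (s : ℝ) (w : V n), (-∑ a, (db a u : V n → ℂ) w * (XX qt a : V n → ℂ) w) *
      Complex.exp (-(s : ℂ) * (Φ : V n → ℂ) w) = kap u q w *
      Complex.exp (-(s : ℂ) * pair (fun j => (q j : V n → ℂ) w) (w - ξ)) := by
    intro s w
    rcases h4 w with h | ⟨h, -⟩
    · have h0 : ∀ a, (db a u : V n → ℂ) w = 0 := by
        intro a
        rw [hdu, db_congr a χ 1 w h, Derivation.map_one_eq_zero]
        change (0 : ℂ) * F w = 0
        rw [zero_mul]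
      simp [kap, h0]
    · have hq : ∀ j, (qt j : V n → ℂ) =ᶠ[𝓝 w] (q j : V n → ℂ) := by
        intro j
        filter_upwards [h] with y hy
        change (q j : V n → ℂ) y + (χ₁ : V n → ℂ) y * (conjSm ξ j : V n → ℂ) y = _
        rw [hy, zero_mul, add_zero]
      have h5 : (Φ : V n → ℂ) w = pair (fun j => (q j : V n → ℂ) w) (w - ξ) := by
        rw [hΦe, pair]
        refine Finset.sum_congr rfl fun j _ => ?_
        rw [h.self_of_nhds, zero_mul, add_zero]
        rfl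
      rw [h5, kap]
      congr 2
      refine Finset.sum_congr rfl fun a _ => ?_
      rw [X_congr qt q a w hq]
  -- derivative
  have hderiv : ∀ s ∈ Ioi (0 : ℝ), HasDerivAt I (∫ w, ((s ^ (n - 1) : ℝ) : ℂ) * (kap u q w *
      Complex.exp (-(s : ℂ) * pair (fun j => (q j : V n → ℂ) w) (w - ξ)))) s := by
    intro s hs
    have hs0 : (0 : ℝ) < s := hs
    have h5 := hasDerivAt_G g (Φ : V n → ℂ) hgcont hgc hΦcont hre s hs0
    have h6 : HasDerivAt (fun s : ℝ => ((s ^ n : ℝ) : ℂ)) (((n : ℝ) * s ^ (n - 1) : ℝ) : ℂ) s :=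
      (hasDerivAt_pow n s).ofReal_comp
    have h7 := h6.mul h5
    have h8 := divergence_integral u huc qt ξ s Φ hΦ
    simp_rw [hpt] at h8
    rw [integral_const_mul, ← h8]
    have hi1 : Integrable fun w => g w * Complex.exp (-(s : ℂ) * (Φ : V n → ℂ) w) := by
      have : Continuous fun w => g w * Complex.exp (-(s : ℂ) * (Φ : V n → ℂ) w) := by fun_prop
      exact this.integrable_of_hasCompactSupport hgc.mul_right
    have hi2 : Integrable fun w => g w * (-(Φ : V n → ℂ) w *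
        Complex.exp (-(s : ℂ) * (Φ : V n → ℂ) w)) := by
      have : Continuous fun w => g w * (-(Φ : V n → ℂ) w *
        Complex.exp (-(s : ℂ) * (Φ : V n → ℂ) w)) := by fun_prop
      exact this.integrable_of_hasCompactSupport hgc.mul_right
    have h9 : ∫ w, (u : V n → ℂ) w * (DD qt : V n → ℂ) w * (((n : ℂ) - s * (Φ : V n → ℂ) w) *
        Complex.exp (-(s : ℂ) * (Φ : V n → ℂ) w)) =
        (n : ℂ) * (∫ w, g w * Complex.exp (-(s : ℂ) * (Φ : V n → ℂ) w)) +
        (s : ℂ) * ∫ w, g w * (-(Φ : V n → ℂ) w *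
        Complex.exp (-(s : ℂ) * (Φ : V n → ℂ) w)) := by
      rw [← integral_const_mul, ← integral_const_mul, ← integral_add (hi1.const_mul _)
        (hi2.const_mul _)]
      refine integral_congr_ae (Eventually.of_forall fun w => ?_)
      simp only [hg]
      ring
    rw [h9]
    have h10 : ((s ^ (n - 1) : ℝ) : ℂ) * ((n : ℂ) * (∫ w, g w *
        Complex.exp (-(s : ℂ) * (Φ : V n → ℂ) w)) + (s : ℂ) * ∫ w, g w * (-(Φ : V n → ℂ) w *
        Complex.exp (-(s : ℂ) * (Φ : V n → ℂ) w))) =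
        (((n : ℝ) * s ^ (n - 1) : ℝ) : ℂ) * G s + ((s ^ n : ℝ) : ℂ) *
          ∫ w, g w * (-(Φ : V n → ℂ) w * Complex.exp (-(s : ℂ) * (Φ : V n → ℂ) w)) := by
      have h11 : ((s ^ n : ℝ) : ℂ) = ((s ^ (n - 1) : ℝ) : ℂ) * (s : ℂ) := by
        rw [← Complex.ofReal_mul, ← pow_succ, Nat.sub_add_cancel hn]
      rw [h11]
      simp only [hG]
      push_cast
      ring
    rw [h10]
    exact h7
  have hfin := integral_Ioi_of_hasDerivAt_of_tendsto hcont0 hderiv hint hlim
  rw [hfin, hI0, sub_zero]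

end Pool.Agent.Lib.MP_ce3242_an.CF
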