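import Pool.Agent.Lib.MP_ce3242_an.CFGeom
import Pool.Agent.Lib.MP_ce3242_an.CFPeak

set_option autoImplicit false

open Set Filter Topology MeasureTheory Metric
open scoped ContDiff

/-!
# The Cauchy-Fantappie representation
-/

namespace Pool.Agent.Lib.MP_ce3242_an.CF

/-- Evaluation at a point, as a ring homomorphism. -/
noncomputable def evp {n : ℕ} (w : V n) : Sm n →+* ℂ :=
  (Pi.evalRingHom (fun _ : V n => ℂ) w).comp (Sm n).val.toRingHom

lemma evp_apply {n : ℕ} (w : V n) (f : Sm n) : evp w f = (f : V n → ℂ) w := rfl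

/-- The determinant `D` for the `∂̄` operators. -/
noncomputable def DD {n : ℕ} (q : Fin n → Sm n) : Sm n := D db q

/-- The field `X` for the `∂̄` operators. -/
noncomputable def XX {n : ℕ} (q : Fin n → Sm n) (a : Fin n) : Sm n := X db q a

lemma D_eval {n : ℕ} (q : Fin n → Sm n) (w : V n) :
    (DD q : V n → ℂ) w = (Matrix.of fun l m => (db l (q m) : V n → ℂ) w).det := by
  change evp w (DD q) = _
  rw [DD, D, RingHom.map_det]
  rfl

lemma X_eval {n : ℕ} (q : Fin n → Sm n) (a : Fin n) (w : V n) :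
    (XX q a : V n → ℂ) w = ∑ j, ((Matrix.of fun l m =>
      (db l (q m) : V n → ℂ) w).updateCol j (Pi.single a 1)).det * (q j : V n → ℂ) w := by
  change evp w (XX q a) = _
  rw [XX, X, map_sum]
  refine Finset.sum_congr rfl fun j _ => ?_
  rw [map_mul, RingHom.map_det]
  congr 2
  rw [RingHom.mapMatrix_apply, Matrix.map_updateCol]
  congr 1
  ext l
  by_cases h : l = a
  · subst h; simp
  · simp [h]

lemma X_congr {n : ℕ} (q q' : Fin n → Sm n) (a : Fin n) (w : V n)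
    (h : ∀ j, (q j : V n → ℂ) =ᶠ[𝓝 w] (q' j : V n → ℂ)) :
    (XX q a : V n → ℂ) w = (XX q' a : V n → ℂ) w := by
  rw [X_eval, X_eval]
  have h1 : ∀ l m, (db l (q m) : V n → ℂ) w = (db l (q' m) : V n → ℂ) w :=
    fun l m => db_congr l _ _ w (h m)
  simp_rw [h1]
  refine Finset.sum_congr rfl fun j _ => ?_
  rw [(h j).eq_of_nhds]

lemma D_congr {n : ℕ} (q q' : Fin n → Sm n) (w : V n)
    (h : ∀ j, (q j : V n → ℂ) =ᶠ[𝓝 w] (q' j : V n → ℂ)) :
    (DD q : V n → ℂ) w = (DD q' : V n → ℂ) w := by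
  rw [D_eval, D_eval]
  have h1 : ∀ l m, (db l (q m) : V n → ℂ) w = (db l (q' m) : V n → ℂ) w :=
    fun l m => db_congr l _ _ w (h m)
  simp_rw [h1]

lemma db_conjSm {n : ℕ} (ξ : V n) (l m : Fin n) (w : V n) :
    (db l (conjSm ξ m) : V n → ℂ) w = if l = m then 1 else 0 := by
  have h1 : HasFDerivAt (𝕜 := ℝ) (fun w : V n => (starRingEnd ℂ) (w m - ξ m))
      ((Complex.conjCLE.toContinuousLinearMap).comp
        (ContinuousLinearMap.proj (R := ℝ) (φ := fun _ : Fin n => ℂ) m)) w := by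
    have h2 : HasFDerivAt (𝕜 := ℝ) (fun w : V n => w m - ξ m)
        (ContinuousLinearMap.proj (R := ℝ) (φ := fun _ : Fin n => ℂ) m) w :=
      ((ContinuousLinearMap.proj (R := ℝ) (φ := fun _ : Fin n => ℂ) m).hasFDerivAt).sub_const _
    exact (Complex.conjCLE.toContinuousLinearMap.hasFDerivAt).comp w h2
  have h3 : fderiv ℝ (conjSm ξ m : V n → ℂ) w = (Complex.conjCLE.toContinuousLinearMap).comp
        (ContinuousLinearMap.proj (R := ℝ) (φ := fun _ : Fin n => ℂ) m) := h1.fderiv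
  rw [db_apply, h3]
  by_cases h : l = m
  · subst h
    simp
    norm_num
  · simp [h, Ne.symm h]

/-- `e^{-sΦ}`. -/
noncomputable def expSm {n : ℕ} (s : ℝ) (Φ : Sm n) : Sm n :=
  ⟨fun w => Complex.exp (-(s : ℂ) * (Φ : V n → ℂ) w), by
    change ContDiff ℝ ∞ (fun w => Complex.exp (-(s : ℂ) * (Φ : V n → ℂ) w))
    exact (contDiff_const.mul (sm_contDiff Φ)).cexp⟩

lemma expSm_apply {n : ℕ} (s : ℝ) (Φ : Sm n) (w : V n) :
    (expSm s Φ : V n → ℂ) w = Complex.exp (-(s : ℂ) * (Φ : V n → ℂ) w) := rfl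

lemma db_expSm {n : ℕ} (a : Fin n) (s : ℝ) (Φ : Sm n) :
    db a (expSm s Φ) = - (algebraMap ℂ (Sm n) (s : ℂ) * db a Φ * expSm s Φ) := by
  ext w
  have h1 : HasFDerivAt (𝕜 := ℝ) (fun w => Complex.exp (-(s : ℂ) * (Φ : V n → ℂ) w))
      (Complex.exp (-(s : ℂ) * (Φ : V n → ℂ) w) •
        (-(s : ℂ) • fderiv ℝ (Φ : V n → ℂ) w)) w :=
    ((sm_diff Φ w).hasFDerivAt.const_mul (-(s : ℂ))).cexp
  have h2 : fderiv ℝ (expSm s Φ : V n → ℂ) w = (Complex.exp (-(s : ℂ) * (Φ : V n → ℂ) w) •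
        (-(s : ℂ) • fderiv ℝ (Φ : V n → ℂ) w)) := h1.fderiv
  have h3 : ((- (algebraMap ℂ (Sm n) (s : ℂ) * db a Φ * expSm s Φ) : Sm n) : V n → ℂ) w =
      -((s : ℂ) * (db a Φ : V n → ℂ) w * (expSm s Φ : V n → ℂ) w) := rfl
  rw [h3, db_apply, h2, db_apply, expSm_apply]
  simp only [FunLike.coe_smul, Pi.smul_apply, smul_eq_mul]
  ring

/-- The divergence identity, integrated. -/
lemma divergence_integral {n : ℕ} (u : Sm n) (hu : HasCompactSupport (u : V n → ℂ))
    (q : Fin n → Sm n) (ξ : V n) (s : ℝ) (Φ : Sm n) (hΦ : Φ = ∑ j, q j * coordSm ξ j) :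
    ∫ w, (u : V n → ℂ) w * (DD q : V n → ℂ) w * (((n : ℂ) - s * (Φ : V n → ℂ) w) *
      Complex.exp (-(s : ℂ) * (Φ : V n → ℂ) w)) =
    ∫ w, (-∑ a, (db a u : V n → ℂ) w * (XX q a : V n → ℂ) w) *
      Complex.exp (-(s : ℂ) * (Φ : V n → ℂ) w) := by
  have hdiv := divergence (R := Sm n) (ι := Fin n) db db_comm q (coordSm ξ)
    (fun a l => db_coordSm ξ a l) (algebraMap ℂ (Sm n) (s : ℂ)) (expSm s Φ) u
    (fun a => by rw [← hΦ]; exact db_expSm a s Φ)
  rw [← hΦ] at hdiv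
  change ∑ a, db a (u * (XX q a * expSm s Φ)) = ∑ a, db a u * (XX q a * expSm s Φ) +
      u * (DD q * (((Fintype.card (Fin n) : Sm n) - algebraMap ℂ (Sm n) (s : ℂ) * Φ) *
        expSm s Φ)) at hdiv
  -- integrate
  have hL : ∫ w, ((∑ a, db a (u * (XX q a * expSm s Φ)) : Sm n) : V n → ℂ) w = 0 := by
    have h1 : ((∑ a, db a (u * (XX q a * expSm s Φ)) : Sm n) : V n → ℂ) =
        fun w => ∑ a, (db a (u * (XX q a * expSm s Φ)) : V n → ℂ) w := by
      ext w
      change evp w _ = _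
      rw [map_sum]
      rfl
    have hcs : ∀ a, HasCompactSupport ((u * (XX q a * expSm s Φ) : Sm n) : V n → ℂ) :=
      fun a => hu.mul_right
    rw [h1, integral_finsetSum]
    · exact Finset.sum_eq_zero fun a _ => integral_db a _ (hcs a)
    · intro a _
      exact sm_integrable _ (db_hasCompactSupport a _ (hcs a))
  rw [hdiv] at hL
  have h2 : ((∑ a, db a u * (XX q a * expSm s Φ) +
      u * (DD q * (((Fintype.card (Fin n) : Sm n) - algebraMap ℂ (Sm n) (s : ℂ) * Φ) *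
        expSm s Φ)) : Sm n) : V n → ℂ) = fun w =>
      (∑ a, (db a u : V n → ℂ) w * (XX q a : V n → ℂ) w) *
        Complex.exp (-(s : ℂ) * (Φ : V n → ℂ) w) +
      (u : V n → ℂ) w * (DD q : V n → ℂ) w * (((n : ℂ) - s * (Φ : V n → ℂ) w) *
      Complex.exp (-(s : ℂ) * (Φ : V n → ℂ) w)) := by
    ext w
    refine (evp_apply w (∑ a, db a u * (XX q a * expSm s Φ) +
      u * (DD q * (((Fintype.card (Fin n) : Sm n) - algebraMap ℂ (Sm n) (s : ℂ) * Φ) *
        expSm s Φ)))).symm.trans ?_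
    simp only [map_add, map_sum, map_mul, map_sub, map_natCast, Fintype.card_fin, evp_apply]
    have h3 : ((algebraMap ℂ (Sm n) (s : ℂ) : Sm n) : V n → ℂ) w = (s : ℂ) := rfl
    rw [h3, expSm_apply, Finset.sum_mul]
    congr 1
    · refine Finset.sum_congr rfl fun a _ => ?_
      ring
    · ring
  rw [h2] at hL
  have hc : ∀ a, Continuous (db a u : V n → ℂ) := fun a => sm_cont _
  have hX : ∀ a, Continuous (XX q a : V n → ℂ) := fun a => sm_cont _
  have hΦc := sm_cont Φ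
  have huc := sm_cont u
  have hDc := sm_cont (DD q)
  have i1 : Integrable fun w => (∑ a, (db a u : V n → ℂ) w * (XX q a : V n → ℂ) w) *
        Complex.exp (-(s : ℂ) * (Φ : V n → ℂ) w) := by
    have hcont : Continuous fun w => (∑ a, (db a u : V n → ℂ) w * (XX q a : V n → ℂ) w) *
        Complex.exp (-(s : ℂ) * (Φ : V n → ℂ) w) := by
      fun_prop
    refine hcont.integrable_of_hasCompactSupport ?_
    refine hu.mono' ?_
    intro w hw
    by_contra hw'
    apply hw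
    have h0 : ∀ a, (db a u : V n → ℂ) w = 0 := by
      intro a
      by_contra hne
      have : w ∈ tsupport (db a u : V n → ℂ) := subset_tsupport _ hne
      have h4 : (u : V n → ℂ) =ᶠ[𝓝 w] ((0 : Sm n) : V n → ℂ) :=
        notMem_tsupport_iff_eventuallyEq.1 hw'
      apply hne
      rw [db_congr a u 0 w h4, map_zero]
      rfl
    simp [h0]
  have i2 : Integrable fun w => (u : V n → ℂ) w * (DD q : V n → ℂ) w *
      (((n : ℂ) - s * (Φ : V n → ℂ) w) * Complex.exp (-(s : ℂ) * (Φ : V n → ℂ) w)) := by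
    have hcont : Continuous fun w => (u : V n → ℂ) w * (DD q : V n → ℂ) w *
      (((n : ℂ) - s * (Φ : V n → ℂ) w) * Complex.exp (-(s : ℂ) * (Φ : V n → ℂ) w)) := by
      fun_prop
    exact hcont.integrable_of_hasCompactSupport (hu.mul_right.mul_right)
  rw [integral_add i1 i2] at hL
  have h5 : ∫ w, (-∑ a, (db a u : V n → ℂ) w * (XX q a : V n → ℂ) w) *
      Complex.exp (-(s : ℂ) * (Φ : V n → ℂ) w) =
      - ∫ w, (∑ a, (db a u : V n → ℂ) w * (XX q a : V n → ℂ) w) *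
        Complex.exp (-(s : ℂ) * (Φ : V n → ℂ) w) := by
    rw [← integral_neg]
    congr 1
    ext w
    ring
  rw [h5]
  linear_combination hL

end Pool.Agent.Lib.MP_ce3242_an.CF
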