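import Pool.Agent.Lib.MP_ce3242_an.Defs
import Pool.Agent.Lib.MP_ce3242_an.CFAlg

set_option autoImplicit false

open Set Filter Topology MeasureTheory
open scoped ContDiff

/-!
# Smooth functions on `ℂⁿ` and the `∂̄` derivations
-/

namespace Pool.Agent.Lib.MP_ce3242_an.CF

/-- The algebra of (real) smooth complex-valued functions on `ℂⁿ`. -/
def Sm (n : ℕ) : Subalgebra ℂ (V n → ℂ) where
  carrier := {f | ContDiff ℝ ∞ f}
  mul_mem' := by
    intro f g hf hg
    exact ContDiff.mul (Set.mem_ofPred_eq.mp hf) (Set.mem_ofPred_eq.mp hg)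
  add_mem' := by
    intro f g hf hg
    exact ContDiff.add (Set.mem_ofPred_eq.mp hf) (Set.mem_ofPred_eq.mp hg)
  algebraMap_mem' := by
    intro c
    change ContDiff ℝ ∞ (fun _ : V n => c)
    exact contDiff_const

lemma sm_contDiff {n : ℕ} (f : Sm n) : ContDiff ℝ ∞ (f : V n → ℂ) := f.2

lemma sm_diff {n : ℕ} (f : Sm n) (z : V n) : DifferentiableAt ℝ (f : V n → ℂ) z :=
  ((sm_contDiff f).differentiable (by simp)) z

lemma sm_cont {n : ℕ} (f : Sm n) : Continuous (f : V n → ℂ) := (sm_contDiff f).continuous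

/-- The derivative in the direction `v`, as a linear map. -/
noncomputable def DirL {n : ℕ} (v : V n) : Sm n →ₗ[ℂ] Sm n where
  toFun := fun f => ⟨fun z => fderiv ℝ (f : V n → ℂ) z v,
        ((sm_contDiff f).fderiv_right (m := ∞) (by simp)).clm_apply contDiff_const⟩
  map_add' := by
    intro f g
    ext z
    change fderiv ℝ ((f : V n → ℂ) + (g : V n → ℂ)) z v = _
    rw [fderiv_add (sm_diff f z) (sm_diff g z)]
    rfl
  map_smul' := by
    intro c f
    ext z
    change fderiv ℝ (c • (f : V n → ℂ)) z v = c • fderiv ℝ (f : V n → ℂ) z v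
    rw [fderiv_const_smul (sm_diff f z)]
    rfl

/-- The derivative in the direction `v`, as a derivation. -/
noncomputable def Dir {n : ℕ} (v : V n) : Derivation ℂ (Sm n) (Sm n) :=
  Derivation.mk' (DirL v)
    (by
      intro f g
      ext z
      change fderiv ℝ ((f : V n → ℂ) * (g : V n → ℂ)) z v =
        (f : V n → ℂ) z * fderiv ℝ (g : V n → ℂ) z v + (g : V n → ℂ) z * fderiv ℝ (f : V n → ℂ) z v
      rw [fderiv_mul (sm_diff f z) (sm_diff g z)]
      rfl)

lemma Dir_apply {n : ℕ} (v : V n) (f : Sm n) (z : V n) :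
    (Dir v f : V n → ℂ) z = fderiv ℝ (f : V n → ℂ) z v := rfl

lemma Dir_comm {n : ℕ} (v w : V n) (f : Sm n) : Dir v (Dir w f) = Dir w (Dir v f) := by
  ext z
  have hd : DifferentiableAt ℝ (fderiv ℝ (f : V n → ℂ)) z :=
    (((sm_contDiff f).fderiv_right (m := ∞) (by simp)).differentiable (by simp)) z
  have h1 : ∀ u : V n, fderiv ℝ (fun y => fderiv ℝ (f : V n → ℂ) y u) z =
      (fderiv ℝ (fderiv ℝ (f : V n → ℂ)) z).flip u := by
    intro u
    have := (hd.hasFDerivAt.clm_apply (hasFDerivAt_const u z)).fderiv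
    rw [this]
    ext t
    simp
  change fderiv ℝ (fun y => fderiv ℝ (f : V n → ℂ) y w) z v =
    fderiv ℝ (fun y => fderiv ℝ (f : V n → ℂ) y v) z w
  rw [h1, h1]
  have hs : IsSymmSndFDerivAt ℝ (f : V n → ℂ) z :=
    ((sm_contDiff f).contDiffAt).isSymmSndFDerivAt (by
      simp only [minSmoothness_of_isRCLikeNormedField]
      exact WithTop.coe_le_coe.2 le_top)
  exact hs.eq v w

/-- The operator `∂̄_j`. -/
noncomputable def db {n : ℕ} (j : Fin n) : Derivation ℂ (Sm n) (Sm n) :=
  (1 / 2 : ℂ) • (Dir (Pi.single j 1) + Complex.I • Dir (Pi.single j Complex.I))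

lemma db_apply {n : ℕ} (j : Fin n) (f : Sm n) (z : V n) :
    (db j f : V n → ℂ) z = (1 / 2 : ℂ) * (fderiv ℝ (f : V n → ℂ) z (Pi.single j 1) +
      Complex.I * fderiv ℝ (f : V n → ℂ) z (Pi.single j Complex.I)) := rfl

lemma db_eq {n : ℕ} (j : Fin n) (f : Sm n) :
    db j f = (1 / 2 : ℂ) • (Dir (Pi.single j 1) f + Complex.I • Dir (Pi.single j Complex.I) f) :=
  rfl

lemma db_comm {n : ℕ} (a b : Fin n) (f : Sm n) : db a (db b f) = db b (db a f) := by
  simp only [db_eq]
  rw [Derivation.map_smul, Derivation.map_smul, Derivation.map_smul, Derivation.map_smul,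
    map_add, map_add, map_add, map_add, Derivation.map_smul, Derivation.map_smul,
    Derivation.map_smul, Derivation.map_smul]
  rw [Dir_comm (Pi.single a 1) (Pi.single b 1), Dir_comm (Pi.single a 1) (Pi.single b Complex.I),
    Dir_comm (Pi.single a Complex.I) (Pi.single b 1),
    Dir_comm (Pi.single a Complex.I) (Pi.single b Complex.I)]
  simp only [smul_add, smul_smul]
  ring_nf

/-- `∂̄_j` kills complex-differentiable functions, pointwise. -/
lemma db_eq_zero_of_differentiableAt {n : ℕ} (j : Fin n) (f : Sm n) (z : V n)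
    (h : DifferentiableAt ℂ (f : V n → ℂ) z) : (db j f : V n → ℂ) z = 0 := by
  rw [db_apply, h.fderiv_restrictScalars ℝ]
  have h1 : (Pi.single j Complex.I : V n) = Complex.I • (Pi.single j (1 : ℂ) : V n) := by
    rw [← Pi.single_smul]; simp
  simp only [ContinuousLinearMap.coe_restrictScalars']
  rw [h1, map_smul, smul_eq_mul, ← mul_assoc, Complex.I_mul_I]
  ring

/-- `∂̄_j` is local. -/
lemma db_congr {n : ℕ} (j : Fin n) (f g : Sm n) (z : V n)
    (h : (f : V n → ℂ) =ᶠ[𝓝 z] (g : V n → ℂ)) : (db j f : V n → ℂ) z = (db j g : V n → ℂ) z := by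
  rw [db_apply, db_apply, h.fderiv_eq]

lemma sm_integrable {n : ℕ} (g : Sm n) (hc : HasCompactSupport (g : V n → ℂ)) :
    Integrable (g : V n → ℂ) := (sm_cont g).integrable_of_hasCompactSupport hc

lemma Dir_hasCompactSupport {n : ℕ} (v : V n) (g : Sm n) (hc : HasCompactSupport (g : V n → ℂ)) :
    HasCompactSupport (Dir v g : V n → ℂ) := hc.fderiv_apply ℝ v

lemma integral_Dir {n : ℕ} (v : V n) (g : Sm n) (hc : HasCompactSupport (g : V n → ℂ)) :
    ∫ z, (Dir v g : V n → ℂ) z = 0 := by
  have h := integral_mul_fderiv_eq_neg_fderiv_mul_of_integrable (μ := (volume : Measure (V n)))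
    (f := fun _ : V n => (1 : ℂ)) (g := (g : V n → ℂ)) (v := v)
    (by simp)
    (by
      simp only [one_mul]
      exact sm_integrable (Dir v g) (Dir_hasCompactSupport v g hc))
    (by simpa using sm_integrable g hc) (fun x _ => differentiableAt_const _)
    (fun x _ => sm_diff g x)
  have h2 : ∫ z, fderiv ℝ (g : V n → ℂ) z v = 0 := by simpa using h
  exact h2

lemma db_hasCompactSupport {n : ℕ} (j : Fin n) (g : Sm n) (hc : HasCompactSupport (g : V n → ℂ)) :
    HasCompactSupport (db j g : V n → ℂ) := by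
  refine hc.mono' ?_
  intro z hz
  by_contra hz'
  apply hz
  have h0 : (g : V n → ℂ) =ᶠ[𝓝 z] ((0 : Sm n) : V n → ℂ) := by
    have := notMem_tsupport_iff_eventuallyEq.1 hz'
    exact this
  rw [db_congr j g 0 z h0, map_zero]
  rfl

lemma integral_db {n : ℕ} (j : Fin n) (g : Sm n) (hc : HasCompactSupport (g : V n → ℂ)) :
    ∫ z, (db j g : V n → ℂ) z = 0 := by
  have h1 := integral_Dir (Pi.single j 1) g hc
  have h2 := integral_Dir (Pi.single j Complex.I) g hc
  have i1 := sm_integrable _ (Dir_hasCompactSupport (Pi.single j 1) g hc)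
  have i2 := sm_integrable _ (Dir_hasCompactSupport (Pi.single j Complex.I) g hc)
  have : (db j g : V n → ℂ) = fun z => (1 / 2 : ℂ) * ((Dir (Pi.single j 1) g : V n → ℂ) z +
      Complex.I * (Dir (Pi.single j Complex.I) g : V n → ℂ) z) := rfl
  rw [this, integral_const_mul, integral_add i1 (i2.const_mul _), integral_const_mul, h1, h2]
  simp

end Pool.Agent.Lib.MP_ce3242_an.CF
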