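import Pool.Agent.Lib.MP_ce3242_an.Defs

set_option autoImplicit false

open Set Filter Topology MeasureTheory

/-! The mean value inequality in `ℂⁿ`. -/

namespace Pool.Agent.Lib.MP_ce3242_an

variable {n : ℕ}

/-- Multiplication by a unit complex number preserves Lebesgue measure. -/
lemma measurePreserving_rot (c : Circle) :
    MeasurePreserving (fun w : V n => (c : ℂ) • w) volume volume := by
  have h := volume_preserving_pi (α' := fun _ : Fin n => ℂ) (β' := fun _ : Fin n => ℂ)
    (f := fun _ => fun t : ℂ => (c : ℂ) * t) fun _ => by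
      have := (rotation c).measurePreserving
      simpa using! this
  exact h

lemma setIntegral_rot (c : Circle) (h : V n → ℝ) :
    ∫ w in Metric.closedBall (0 : V n) 1, h ((c : ℂ) • w) =
      ∫ w in Metric.closedBall (0 : V n) 1, h w := by
  have hpre : (fun w : V n => (c : ℂ) • w) ⁻¹' Metric.closedBall (0 : V n) 1
      = Metric.closedBall (0 : V n) 1 := by
    ext w
    simp only [mem_preimage, mem_closedBall_zero_iff, norm_smul, Circle.norm_coe, one_mul]
  have hemb : MeasurableEmbedding (fun w : V n => (c : ℂ) • w) := by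
    have hc : (c : ℂ) ≠ 0 := Circle.coe_ne_zero c
    exact (Homeomorph.smulOfNeZero (c : ℂ) hc).measurableEmbedding
  have := (measurePreserving_rot (n := n) c).setIntegral_preimage_emb hemb h
    (Metric.closedBall (0 : V n) 1)
  rwa [hpre] at this

/-- Circle mean value inequality for the square. -/
lemma circle_mean {F : V n → ℂ} (hF : Differentiable ℂ F) (z w : V n) :
    ‖F z‖ ^ 2 ≤ (2 * Real.pi)⁻¹ * ∫ θ in (0 : ℝ)..2 * Real.pi,
      ‖F (z + (Circle.exp θ : ℂ) • w)‖ ^ 2 := by
  set f : ℂ → ℂ := fun t => F (z + t • w) ^ 2 with hf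
  have hfd : Differentiable ℂ f := by
    have : Differentiable ℂ (fun t : ℂ => z + t • w) := by fun_prop
    exact (hF.comp this).pow 2
  have h1 : Real.circleAverage f 0 1 = f 0 := by
    refine DiffContOnCl.circleAverage ?_
    exact hfd.diffContOnCl
  have h2 : ‖f 0‖ = ‖F z‖ ^ 2 := by simp [hf]
  rw [← h2, ← h1, Real.circleAverage, norm_smul, Real.norm_eq_abs,
    abs_of_pos (by have := Real.pi_pos; positivity)]
  have hpi : (0 : ℝ) ≤ 2 * Real.pi := by have := Real.pi_pos; positivity
  refine mul_le_mul_of_nonneg_left ?_ (by positivity)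
  refine (intervalIntegral.norm_integral_le_integral_norm hpi).trans (le_of_eq ?_)
  refine intervalIntegral.integral_congr fun θ _ => ?_
  simp only [hf, norm_pow, circleMap, zero_add, Complex.ofReal_one, one_mul, Circle.coe_exp]

lemma continuous_sq_slice {F : V n → ℂ} (hF : Continuous F) (z : V n) :
    Continuous fun p : V n × ℝ => ‖F (z + (Circle.exp p.2 : ℂ) • p.1)‖ ^ 2 := by
  have h1 : Continuous fun p : V n × ℝ => (Circle.exp p.2 : ℂ) := by
    simp only [Circle.coe_exp]
    fun_prop
  exact ((hF.comp (continuous_const.add (h1.smul continuous_fst))).norm).pow 2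

/-- The mean value inequality for `|F|²`. -/
theorem submean {F : V n → ℂ} (hF : Differentiable ℂ F) (z : V n) :
    ‖F z‖ ^ 2 * volume.real (Metric.closedBall (0 : V n) 1) ≤
      ∫ w in Metric.closedBall (0 : V n) 1, ‖F (z + w)‖ ^ 2 := by
  set B := Metric.closedBall (0 : V n) 1 with hB
  have hBc : IsCompact B := isCompact_closedBall _ _
  have hFc : Continuous F := hF.continuous
  have hpi := Real.pi_pos
  have hcont := continuous_sq_slice hFc z
  have hint : Integrable (fun p : V n × ℝ => ‖F (z + (Circle.exp p.2 : ℂ) • p.1)‖ ^ 2)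
      ((volume.restrict B).prod (volume.restrict (Ioc 0 (2 * Real.pi)))) := by
    rw [Measure.prod_restrict]
    refine IntegrableOn.mono_set ?_ (prod_mono (Subset.refl B) Ioc_subset_Icc_self)
    exact hcont.continuousOn.integrableOn_compact (hBc.prod isCompact_Icc)
  have h1 : ∀ w, ‖F z‖ ^ 2 ≤ (2 * Real.pi)⁻¹ * ∫ θ in Ioc (0 : ℝ) (2 * Real.pi),
      ‖F (z + (Circle.exp θ : ℂ) • w)‖ ^ 2 := by
    intro w
    have := circle_mean hF z w
    rwa [intervalIntegral.integral_of_le (by positivity)] at this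
  have h2 : ‖F z‖ ^ 2 * volume.real B = ∫ _ in B, ‖F z‖ ^ 2 := by
    rw [setIntegral_const, smul_eq_mul, mul_comm]
  rw [h2]
  calc ∫ _ in B, ‖F z‖ ^ 2 ≤ ∫ w in B, (2 * Real.pi)⁻¹ * ∫ θ in Ioc (0 : ℝ) (2 * Real.pi),
        ‖F (z + (Circle.exp θ : ℂ) • w)‖ ^ 2 := by
        refine integral_mono ?_ ?_ h1
        · exact integrable_const_iff.2 (Or.inr (by
            rw [isFiniteMeasure_restrict]; exact hBc.measure_ne_top))
        · exact (hint.integral_prod_left).const_mul _
    _ = (2 * Real.pi)⁻¹ * ∫ w in B, ∫ θ in Ioc (0 : ℝ) (2 * Real.pi),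
        ‖F (z + (Circle.exp θ : ℂ) • w)‖ ^ 2 := by rw [integral_const_mul]
    _ = (2 * Real.pi)⁻¹ * ∫ θ in Ioc (0 : ℝ) (2 * Real.pi), ∫ w in B,
        ‖F (z + (Circle.exp θ : ℂ) • w)‖ ^ 2 := by rw [integral_integral_swap hint]
    _ = (2 * Real.pi)⁻¹ * ∫ θ in Ioc (0 : ℝ) (2 * Real.pi), ∫ w in B,
        ‖F (z + w)‖ ^ 2 := by
        congr 2
        ext θ
        exact setIntegral_rot (Circle.exp θ) fun w => ‖F (z + w)‖ ^ 2
    _ = ∫ w in B, ‖F (z + w)‖ ^ 2 := by
        rw [setIntegral_const, smul_eq_mul, measureReal_def, Real.volume_Ioc]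
        rw [ENNReal.toReal_ofReal (by linarith)]
        field_simp
        ring

lemma volume_ball_pos : 0 < volume.real (Metric.closedBall (0 : V n) 1) := by
  rw [measureReal_def]
  refine ENNReal.toReal_pos ?_ (isCompact_closedBall _ _).measure_ne_top
  exact (Metric.measure_closedBall_pos volume _ one_pos).ne'

/-- Pointwise bound from a weighted `L²` bound. -/
theorem pointwise_bound {F : V n → ℂ} (hF : Differentiable ℂ F) {φ : V n → ℂ}
    (hφ : Differentiable ℂ φ) {W : V n → ℝ} (hW : ∀ z, 0 ≤ W z)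
    (hint : Integrable fun w => ‖F w‖ ^ 2 * W w) {I Q : ℝ}
    (hI : ∫ w, ‖F w‖ ^ 2 * W w ≤ I) (hQ : 0 ≤ Q) (z : V n)
    (hQz : ∀ w ∈ Metric.closedBall z 1, ‖φ w‖ ^ 2 ≤ Q * W w) :
    ‖φ z * F z‖ ^ 2 ≤ (volume.real (Metric.closedBall (0 : V n) 1))⁻¹ * (Q * I) := by
  have h1 := submean (hφ.mul hF) z
  have hv := volume_ball_pos (n := n)
  set B := Metric.closedBall (0 : V n) 1 with hB
  have hBc : IsCompact B := isCompact_closedBall _ _
  have h2 : ∫ w in B, ‖(φ * F) (z + w)‖ ^ 2 ≤ Q * I := by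
    have hshift : Integrable fun w => ‖F (z + w)‖ ^ 2 * W (z + w) := hint.comp_add_left z
    calc ∫ w in B, ‖(φ * F) (z + w)‖ ^ 2 ≤ ∫ w in B, Q * (‖F (z + w)‖ ^ 2 * W (z + w)) := by
          refine setIntegral_mono_on ?_ (hshift.integrableOn.const_mul Q) hBc.measurableSet ?_
          · have : Continuous fun w => ‖(φ * F) (z + w)‖ ^ 2 :=
              (((hφ.mul hF).continuous.comp (continuous_const.add continuous_id)).norm).pow 2
            exact this.continuousOn.integrableOn_compact hBc
          · intro w hw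
            have h3 : z + w ∈ Metric.closedBall z 1 := by
              rw [Metric.mem_closedBall, dist_eq_norm, add_sub_cancel_left]
              simpa [hB] using hw
            have h4 := hQz _ h3
            rw [Pi.mul_apply, norm_mul, mul_pow]
            have h5 : 0 ≤ ‖F (z + w)‖ ^ 2 := by positivity
            calc ‖φ (z + w)‖ ^ 2 * ‖F (z + w)‖ ^ 2 ≤ Q * W (z + w) * ‖F (z + w)‖ ^ 2 := by gcongr
              _ = Q * (‖F (z + w)‖ ^ 2 * W (z + w)) := by ring
      _ = Q * ∫ w in B, ‖F (z + w)‖ ^ 2 * W (z + w) := by rw [integral_const_mul]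
      _ ≤ Q * ∫ w, ‖F (z + w)‖ ^ 2 * W (z + w) := by
          refine mul_le_mul_of_nonneg_left ?_ hQ
          refine setIntegral_le_integral hshift ?_
          filter_upwards with w
          exact mul_nonneg (by positivity) (hW _)
      _ = Q * ∫ w, ‖F w‖ ^ 2 * W w := by
          rw [integral_add_left_eq_self (fun w => ‖F w‖ ^ 2 * W w) z]
      _ ≤ Q * I := by gcongr
  have h3 : ‖(φ * F) z‖ ^ 2 * volume.real B ≤ Q * I := h1.trans h2
  rw [Pi.mul_apply] at h3
  rw [inv_mul_eq_div, le_div_iff₀ hv]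
  exact h3

end Pool.Agent.Lib.MP_ce3242_an
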