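import Pool.Agent.Lib.MP_ce3242_an.Bounds
import Pool.Agent.Lib.MP_ce3242_an.MV
import Pool.Agent.Lib.Hormander.Main

set_option autoImplicit false

open Set Filter Topology MeasureTheory
open scoped ContDiff

/-! The cut-off functions. -/

namespace Pool.Agent.Lib.MP_ce3242_an

variable {n : ℕ}

/-- A cut-off function equal to `1` for `|z| ≤ R` and to `0` for `|z| ≥ 2R`. -/
noncomputable def chi (R : ℝ) (z : V n) : ℝ := Real.smoothTransition ((4 - nsq z / R ^ 2) / 3)

lemma deriv_smoothTransition_of_neg {x : ℝ} (hx : x < 0) : deriv Real.smoothTransition x = 0 := by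
  have h : Real.smoothTransition =ᶠ[𝓝 x] fun _ => 0 := by
    filter_upwards [Iio_mem_nhds hx] with y hy
    exact Real.smoothTransition.zero_of_nonpos (le_of_lt hy)
  rw [h.deriv_eq]; simp

lemma deriv_smoothTransition_of_gt {x : ℝ} (hx : 1 < x) : deriv Real.smoothTransition x = 0 := by
  have h : Real.smoothTransition =ᶠ[𝓝 x] fun _ => 1 := by
    filter_upwards [Ioi_mem_nhds hx] with y hy
    exact Real.smoothTransition.one_of_one_le (le_of_lt hy)
  rw [h.deriv_eq]; simp

lemma exists_deriv_bound : ∃ M : ℝ, 0 ≤ M ∧ ∀ x, |deriv Real.smoothTransition x| ≤ M := by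
  have hc : Continuous (deriv Real.smoothTransition) :=
    (Real.smoothTransition.contDiff (n := 1)).continuous_deriv (by simp)
  obtain ⟨M, hM⟩ := (isCompact_Icc (a := (0 : ℝ)) (b := 1)).exists_bound_of_continuousOn
    hc.continuousOn
  have hM0 : 0 ≤ M := (norm_nonneg _).trans (hM 0 (by simp))
  refine ⟨M, hM0, fun x => ?_⟩
  by_cases hx : x ∈ Icc (0 : ℝ) 1
  · exact hM x hx
  · rcases lt_or_ge x 0 with h | h
    · rw [deriv_smoothTransition_of_neg h]; simpa using hM0
    · have : 1 < x := by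
        by_contra h'
        exact hx ⟨h, not_lt.1 h'⟩
      rw [deriv_smoothTransition_of_gt this]; simpa using hM0

lemma contDiff_chi (R : ℝ) : ContDiff ℝ ∞ (chi R : V n → ℝ) := by
  unfold chi
  exact Real.smoothTransition.contDiff.comp
    ((contDiff_const.sub (contDiff_nsq.div_const _)).div_const _)

lemma chi_nonneg (R : ℝ) (z : V n) : 0 ≤ chi R z := Real.smoothTransition.nonneg _

lemma chi_le_one (R : ℝ) (z : V n) : chi R z ≤ 1 := Real.smoothTransition.le_one _

lemma chi_eq_one {R : ℝ} (hR : 0 < R) {z : V n} (hz : nsq z ≤ R ^ 2) : chi R z = 1 := by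
  apply Real.smoothTransition.one_of_one_le
  have : nsq z / R ^ 2 ≤ 1 := by rw [div_le_one (by positivity)]; exact hz
  linarith

lemma chi_eq_zero {R : ℝ} (hR : 0 < R) {z : V n} (hz : 4 * R ^ 2 ≤ nsq z) : chi R z = 0 := by
  apply Real.smoothTransition.zero_of_nonpos
  have : 4 ≤ nsq z / R ^ 2 := by rw [le_div_iff₀ (by positivity)]; exact hz
  linarith

lemma fderiv_chi (R : ℝ) (z v : V n) : fderiv ℝ (chi R : V n → ℝ) z v =
    deriv Real.smoothTransition ((4 - nsq z / R ^ 2) / 3) *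
      (-(2 * (herm z v).re) / R ^ 2 / 3) := by
  have h1 := hasDerivAt_slice (contDiff_chi (n := n) R) z v 0
  have h2 : HasDerivAt (fun s : ℝ => (4 - nsq (z + s • v) / R ^ 2) / 3)
      (-(2 * (herm (z + (0 : ℝ) • v) v).re / R ^ 2) / 3) 0 := by
    have := ((hasDerivAt_nsq z v 0).div_const (R ^ 2)).const_sub 4
    exact this.div_const 3
  have h3 : HasDerivAt Real.smoothTransition
      (deriv Real.smoothTransition ((4 - nsq (z + (0 : ℝ) • v) / R ^ 2) / 3))
      ((4 - nsq (z + (0 : ℝ) • v) / R ^ 2) / 3) :=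
    ((Real.smoothTransition.contDiff (n := 1)).differentiable (by simp) _).hasDerivAt
  have h4 := h1.unique (h3.comp (0 : ℝ) h2)
  simp only [zero_smul, add_zero] at h4
  rw [h4]; ring

lemma herm_single (z : V n) (j : Fin n) (c : ℂ) :
    herm z (Pi.single j c) = z j * (starRingEnd ℂ) c := by
  unfold herm
  rw [Finset.sum_eq_single j]
  · simp
  · intro k _ hk
    simp [Pi.single_eq_of_ne hk]
  · simp

lemma normSq_le_nsq (z : V n) (j : Fin n) : ‖z j‖ ^ 2 ≤ nsq z := by
  unfold nsq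
  simp only [Complex.normSq_eq_norm_sq]
  exact Finset.single_le_sum (f := fun j => ‖z j‖ ^ 2) (fun _ _ => by positivity)
    (Finset.mem_univ j)

lemma norm_fderiv_chi_le {M : ℝ} (hM : ∀ x, |deriv Real.smoothTransition x| ≤ M) {R : ℝ}
    (hR : 1 ≤ R) (z : V n) (j : Fin n) {c : ℂ} (hc : ‖c‖ = 1) :
    |fderiv ℝ (chi R : V n → ℝ) z (Pi.single j c)| ≤
      if R ^ 2 ≤ nsq z ∧ nsq z ≤ 4 * R ^ 2 then 2 * M else 0 := by
  have hR0 : 0 < R := by linarith
  rw [fderiv_chi, herm_single]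
  split_ifs with h
  · rw [abs_mul]
    have hM0 : 0 ≤ M := (abs_nonneg _).trans (hM 0)
    have h1 : |(z j * (starRingEnd ℂ) c).re| ≤ ‖z j‖ := by
      refine (Complex.abs_re_le_norm _).trans ?_
      rw [norm_mul, RCLike.norm_conj, hc, mul_one]
    have h2 : ‖z j‖ ≤ 2 * R := by
      have h3 := normSq_le_nsq z j
      have h4 : ‖z j‖ ^ 2 ≤ (2 * R) ^ 2 := by nlinarith [h.2]
      exact le_of_sq_le_sq h4 (by positivity)
    have h3 : |-(2 * (z j * (starRingEnd ℂ) c).re) / R ^ 2 / 3| ≤ 2 := by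
      rw [abs_div, abs_div, abs_neg, abs_mul, abs_of_pos (show (0 : ℝ) < 3 by norm_num),
        abs_of_pos (show (0 : ℝ) < R ^ 2 by positivity), abs_of_pos (show (0 : ℝ) < 2 by norm_num),
        div_div, div_le_iff₀ (by positivity)]
      nlinarith
    calc _ ≤ M * 2 := mul_le_mul (hM _) h3 (abs_nonneg _) hM0
      _ = 2 * M := by ring
  · have h0 : deriv Real.smoothTransition ((4 - nsq z / R ^ 2) / 3) = 0 := by
      rcases lt_or_ge (nsq z) (R ^ 2) with h1 | h1
      · apply deriv_smoothTransition_of_gt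
        have : nsq z / R ^ 2 < 1 := by rw [div_lt_one (by positivity)]; exact h1
        linarith
      · have h2 : 4 * R ^ 2 < nsq z := by
          by_contra h3
          exact h ⟨h1, not_lt.1 h3⟩
        apply deriv_smoothTransition_of_neg
        have : 4 < nsq z / R ^ 2 := by rw [lt_div_iff₀ (by positivity)]; exact h2
        linarith
    rw [h0, zero_mul, abs_zero]

/-- The function `χ_R g`. -/
noncomputable def beta (g : V n → ℂ) (R : ℝ) (z : V n) : ℂ := (chi R z : ℂ) * g z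

lemma contDiff_chi_complex (R : ℝ) : ContDiff ℝ ∞ (fun z : V n => (chi R z : ℂ)) :=
  Complex.ofRealCLM.contDiff.comp (contDiff_chi R)

lemma contDiff_beta {g : V n → ℂ} (hg : ContDiff ℂ ∞ g) (R : ℝ) : ContDiff ℝ ∞ (beta g R) :=
  (contDiff_chi_complex R).mul (hg.restrict_scalars ℝ)

lemma dbar_beta {g : V n → ℂ} (hg : ContDiff ℂ ∞ g) (R : ℝ) (j : Fin n) (z : V n) :
    Hormander.dbar j (beta g R) z = Hormander.dbar j (fun z => (chi R z : ℂ)) z * g z := by
  have hg0 : Hormander.dbar j g z = 0 :=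
    Hormander.dbar_of_differentiable (hg.differentiable (by simp)) j z
  have h1 : DifferentiableAt ℝ (fun z : V n => (chi R z : ℂ)) z :=
    (contDiff_chi_complex R).differentiable (by simp) z
  have h2 : DifferentiableAt ℝ g z := (hg.restrict_scalars ℝ).differentiable (by simp) z
  have h3 : beta g R = fun y => (fun z => (chi R z : ℂ)) y * g y := rfl
  rw [Hormander.dbar_eq] at hg0
  rw [h3, Hormander.dbar_eq, Hormander.dbar_eq, Hormander.D_mul h1 h2, hg0, mul_zero, add_zero]

lemma norm_dbar_beta_le {g : V n → ℂ} (hg : ContDiff ℂ ∞ g) {M : ℝ}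
    (hM : ∀ x, |deriv Real.smoothTransition x| ≤ M) {R : ℝ} (hR : 1 ≤ R) (j : Fin n) (z : V n) :
    ‖Hormander.dbar j (beta g R) z‖ ≤
      if R ^ 2 ≤ nsq z ∧ nsq z ≤ 4 * R ^ 2 then 2 * M * ‖g z‖ else 0 := by
  rw [dbar_beta hg, norm_mul]
  have h0 : ∀ v : V n, fderiv ℝ (fun z : V n => (chi R z : ℂ)) z v =
      ((fderiv ℝ (chi R : V n → ℝ) z v : ℝ) : ℂ) := by
    intro v
    have h1 : HasFDerivAt (chi R : V n → ℝ) (fderiv ℝ (chi R) z) z :=
      ((contDiff_chi R).differentiable (by simp) z).hasFDerivAt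
    have h2 := Complex.ofRealCLM.hasFDerivAt.comp z h1
    have h3 : fderiv ℝ (fun z : V n => (chi R z : ℂ)) z =
      Complex.ofRealCLM.comp (fderiv ℝ (chi R : V n → ℝ) z) := h2.fderiv
    rw [h3]; rfl
  have h1 : ‖Hormander.dbar j (fun z => (chi R z : ℂ)) z‖ ≤
      if R ^ 2 ≤ nsq z ∧ nsq z ≤ 4 * R ^ 2 then 2 * M else 0 := by
    unfold Hormander.dbar
    rw [h0, h0, norm_div, Complex.norm_ofNat, div_le_iff₀ (by norm_num)]
    refine (norm_add_le _ _).trans ?_
    rw [norm_mul, Complex.norm_I, one_mul, Complex.norm_real, Complex.norm_real, Real.norm_eq_abs,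
      Real.norm_eq_abs]
    have h2 := norm_fderiv_chi_le hM hR z j (c := 1) (by simp)
    have h3 := norm_fderiv_chi_le hM hR z j (c := Complex.I) (by simp)
    linarith
  calc _ ≤ (if R ^ 2 ≤ nsq z ∧ nsq z ≤ 4 * R ^ 2 then 2 * M else 0) * ‖g z‖ := by gcongr
    _ = _ := by split_ifs <;> simp

end Pool.Agent.Lib.MP_ce3242_an
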