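import Pool.Agent.Lib.MP_ce3242_an.Defs

set_option autoImplicit false

open Set Filter Topology
open scoped UniformConvergence

/-! Functional analysis on `H(Ω)`. -/

namespace Pool.Agent.Lib.MP_ce3242_an

variable {n : ℕ} {Ω : Set (V n)}

lemma continuousOn_of_hol (f : Hol Ω) : Continuous (ev f) := by
  obtain ⟨F, hF, hf⟩ := exists_analytic f
  have : ev f = F ∘ ((↑) : Ω → V n) := funext hf
  rw [this]
  exact hF.continuousOn.comp_continuous continuous_subtype_val fun x => x.2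

lemma Carried.mono {T : HolDual Ω} {K K' : Set (V n)} (h : Carried T K) (hK : K ⊆ K') :
    Carried T K' := by
  obtain ⟨A, hA⟩ := h
  exact ⟨A, fun f M hM => hA f M fun ξ hξ => hM ξ (hK hξ)⟩

lemma Carried.exists_nonneg {T : HolDual Ω} {K : Set (V n)} (h : Carried T K)
    (hK : (K ∩ Ω).Nonempty) : ∃ A : ℝ, 0 ≤ A ∧ ∀ f : Hol Ω, ∀ M : ℝ,
      (∀ ξ : Ω, (ξ : V n) ∈ K → ‖ev f ξ‖ ≤ M) → ‖T f‖ ≤ A * M := by
  obtain ⟨A, hA⟩ := h
  obtain ⟨ξ₀, hξ₀, hξΩ⟩ := hK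
  refine ⟨|A|, abs_nonneg A, fun f M hM => (hA f M hM).trans ?_⟩
  have : 0 ≤ M := (norm_nonneg _).trans (hM ⟨ξ₀, hξΩ⟩ hξ₀)
  gcongr
  exact le_abs_self A

/-- A compact subset of an open convex set is contained in a compact convex subset. -/
lemma exists_compact_convex (hΩ : IsOpen Ω) (hc : Convex ℝ Ω) {K₀ : Set (V n)}
    (hK₀ : IsCompact K₀) (hK₀Ω : K₀ ⊆ Ω) :
    ∃ K : Set (V n), IsCompact K ∧ Convex ℝ K ∧ K₀ ⊆ K ∧ K ⊆ Ω := by
  classical
  have h1 : ∀ x ∈ K₀, ∃ u : Finset (V n), x ∈ interior (convexHull ℝ (u : Set (V n))) ∧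
      convexHull ℝ (u : Set (V n)) ⊆ Ω := by
    intro x hx
    obtain ⟨u, hu1, hu2⟩ := (convex_singleton x).exists_subset_interior_convexHull_finset_of_isCompact
      isCompact_singleton (t := Ω) (by rw [nhdsSet_singleton]; exact hΩ.mem_nhds (hK₀Ω hx))
    exact ⟨u, hu1 rfl, hu2⟩
  choose! u hu1 hu2 using h1
  obtain ⟨t, htK⟩ := hK₀.elim_nhds_subcover' (fun x _ => interior (convexHull ℝ (u x : Set (V n))))
    (fun x hx => isOpen_interior.mem_nhds (hu1 x hx))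
  set F : Set (V n) := ⋃ x ∈ t, (u (x : V n) : Set (V n)) with hF
  have hFfin : F.Finite := t.finite_toSet.biUnion fun x _ => (u (x : V n)).finite_toSet
  refine ⟨convexHull ℝ F, hFfin.isCompact_convexHull ℝ, convex_convexHull _ _, ?_, ?_⟩
  · intro y hy
    obtain ⟨x, hx, hxy⟩ := mem_iUnion₂.1 (htK hy)
    refine convexHull_mono ?_ (interior_subset hxy)
    exact subset_biUnion_of_mem (u := fun x : K₀ => (u (x : V n) : Set (V n))) hx
  · refine convexHull_min ?_ hc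
    refine iUnion₂_subset fun x hx => ?_
    exact (subset_convexHull ℝ _).trans (hu2 x x.2)

lemma hasBasis_nhds_zero (Ω : Set (V n)) :
    (𝓝 (0 : FunC Ω)).HasBasis
      (fun Si : Set Ω × ℝ => IsCompact Si.1 ∧ 0 < Si.2)
      fun Si => {f | ∀ x ∈ Si.1, f.val x ∈ Metric.ball (0 : ℂ) Si.2} :=
  UniformOnFun.hasBasis_nhds_zero_of_basis {K : Set Ω | IsCompact K} ⟨∅, isCompact_empty⟩
    (fun K hK L hL => ⟨K ∪ L, hK.union hL, subset_union_left, subset_union_right⟩)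
    Metric.nhds_basis_ball

lemma nhds_zero_hol (Ω : Set (V n)) : 𝓝 (0 : Hol Ω) = comap Hol.incl (𝓝 (0 : FunC Ω)) :=
  nhds_subtype (holSubmodule Ω : Set (FunC Ω)) 0

/-- Every analytic functional is carried by a compact convex set. -/
lemma exists_carried (hΩ : IsOpen Ω) (hne : Ω.Nonempty) (hc : Convex ℝ Ω) (T : HolDual Ω) :
    ∃ K : Set (V n), IsCompact K ∧ Convex ℝ K ∧ K.Nonempty ∧ K ⊆ Ω ∧ Carried T K := by
  obtain ⟨x₀, hx₀⟩ := hne
  have h1 : {f : Hol Ω | ‖T f‖ < 1} ∈ 𝓝 (0 : Hol Ω) := by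
    have : Continuous fun f : Hol Ω => ‖T f‖ := T.continuous.norm
    exact (isOpen_lt this continuous_const).mem_nhds (by simp)
  rw [nhds_zero_hol, mem_comap] at h1
  obtain ⟨U, hU, hUsub⟩ := h1
  obtain ⟨⟨K₀, ε⟩, ⟨hK₀, hε⟩, hsub⟩ := (hasBasis_nhds_zero Ω).mem_iff.1 hU
  have hsmall : ∀ f : Hol Ω, (∀ ξ ∈ K₀, ‖ev f ξ‖ < ε) → ‖T f‖ < 1 := by
    intro f hf
    apply hUsub
    apply hsub
    intro x hx
    rw [mem_ball_zero_iff]
    exact hf x hx
  obtain ⟨K, hKc, hKconv, hsubK, hKΩ⟩ := exists_compact_convex hΩ hc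
    (K₀ := insert x₀ (Subtype.val '' K₀)) ((hK₀.image continuous_subtype_val).insert x₀) (by
      rintro x (rfl | ⟨y, -, rfl⟩)
      · exact hx₀
      · exact y.2)
  have hx₀K : x₀ ∈ K := hsubK (mem_insert _ _)
  refine ⟨K, hKc, hKconv, ⟨x₀, hx₀K⟩, hKΩ, 2 / ε, fun f M hM => ?_⟩
  have hM0 : 0 ≤ M := (norm_nonneg _).trans (hM ⟨x₀, hx₀⟩ hx₀K)
  have hε' : 0 < ε := hε
  refine le_of_forall_pos_le_add fun r hr => ?_
  set M' := M + r * ε / 2 with hM'
  have hM'pos : 0 < M' := by positivity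
  have h2 := hsmall (((ε / 2 / M' : ℝ) : ℂ) • f) ?_
  · rw [map_smul, norm_smul, Complex.norm_real, Real.norm_eq_abs,
      abs_of_pos (by positivity)] at h2
    have h3 : ‖T f‖ < 2 / ε * M' := by
      have h4 : ε / 2 / M' * ‖T f‖ < 1 := h2
      rw [div_div, div_mul_eq_mul_div, div_lt_one (by positivity)] at h4
      rw [div_mul_eq_mul_div, lt_div_iff₀ hε']
      linarith
    refine h3.le.trans (le_of_eq ?_)
    rw [hM']
    field_simp
  · intro ξ hξ
    have h5 : ‖ev f ξ‖ ≤ M := hM ξ (hsubK (mem_insert_of_mem _ (mem_image_of_mem _ hξ)))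
    rw [ev_smul, norm_mul, Complex.norm_real, Real.norm_eq_abs, abs_of_pos (by positivity)]
    have h7 : M ≤ M' := by rw [hM']; have : 0 ≤ r * ε / 2 := by positivity
                           linarith
    calc ε / 2 / M' * ‖ev f ξ‖ ≤ ε / 2 / M' * M' := by gcongr; linarith
      _ = ε / 2 := div_mul_cancel₀ _ hM'pos.ne'
      _ < ε := by linarith

lemma eval_small_mem_nhds {K : Set (V n)} (hK : IsCompact K) (hKΩ : K ⊆ Ω) {ε : ℝ} (hε : 0 < ε) :
    {f : Hol Ω | ∀ ξ : Ω, (ξ : V n) ∈ K → ‖ev f ξ‖ < ε} ∈ 𝓝 (0 : Hol Ω) := by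
  set K₀ : Set Ω := Subtype.val ⁻¹' K with hK₀
  have hK₀c : IsCompact K₀ := by
    rw [Subtype.isCompact_iff, hK₀, Subtype.image_preimage_coe, inter_eq_right.2 hKΩ]
    exact hK
  rw [nhds_zero_hol, mem_comap]
  refine ⟨_, (hasBasis_nhds_zero Ω).mem_of_mem (i := (K₀, ε)) ⟨hK₀c, hε⟩, ?_⟩
  intro f hf ξ hξ
  simpa using! hf ξ hξ

/-- A linear functional bounded by the supremum over a compact set is continuous. -/
lemma continuous_of_bound (ℓ : Hol Ω →ₗ[ℂ] ℂ) {K : Set (V n)} (hK : IsCompact K) (hKΩ : K ⊆ Ω)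
    {A : ℝ} (hA : ∀ f : Hol Ω, ∀ M : ℝ, (∀ ξ : Ω, (ξ : V n) ∈ K → ‖ev f ξ‖ ≤ M) →
      ‖ℓ f‖ ≤ A * M) : Continuous ℓ := by
  refine continuous_of_continuousAt_zero ℓ ?_
  rw [ContinuousAt, map_zero, Metric.tendsto_nhds]
  intro r hr
  set ε : ℝ := r / (2 * (|A| + 1)) with hε
  have hεpos : 0 < ε := by positivity
  filter_upwards [eval_small_mem_nhds hK hKΩ hεpos] with f hf
  rw [dist_zero_right]
  have h2 := hA f ε fun ξ hξ => (hf ξ hξ).le
  have h3 : A * ε ≤ r / 2 := by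
    rw [hε]
    have h4 : A ≤ |A| + 1 := by linarith [le_abs_self A]
    calc A * (r / (2 * (|A| + 1))) ≤ (|A| + 1) * (r / (2 * (|A| + 1))) := by gcongr
      _ = r / 2 := by field_simp
  linarith

/-- Restriction to a compact set. -/
noncomputable def restr (K : Set (V n)) (hK : K ⊆ Ω) : Hol Ω →ₗ[ℂ] C(K, ℂ) where
  toFun f := ⟨fun ξ => ev f ⟨ξ, hK ξ.2⟩,
    (continuousOn_of_hol f).comp (by fun_prop)⟩
  map_add' _ _ := rfl
  map_smul' _ _ := rfl

@[simp] lemma restr_apply {K : Set (V n)} (hK : K ⊆ Ω) (f : Hol Ω) (ξ : K) :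
    restr K hK f ξ = ev f ⟨ξ, hK ξ.2⟩ := rfl

/-- A functional carried by `K` extends to `C(K)`. -/
lemma exists_extension {K : Set (V n)} [CompactSpace K] (hKn : K.Nonempty) (hK : K ⊆ Ω)
    {T : HolDual Ω} (hT : Carried T K) :
    ∃ T' : C(K, ℂ) →L[ℂ] ℂ, ∀ f : Hol Ω, T f = T' (restr K hK f) := by
  obtain ⟨A, hA0, hA⟩ := hT.exists_nonneg (K := K) (by
    obtain ⟨x, hx⟩ := hKn; exact ⟨x, hx, hK hx⟩)
  have hA' : ∀ f : Hol Ω, ‖T f‖ ≤ A * ‖restr K hK f‖ := by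
    intro f
    refine hA f _ fun ξ hξ => ?_
    exact (restr K hK f).norm_coe_le_norm ⟨ξ, hξ⟩
  set p := LinearMap.range (restr K hK) with hp
  have hker : ∀ f f' : Hol Ω, restr K hK f = restr K hK f' → T f = T f' := by
    intro f f' h
    have h0 : restr K hK (f - f') = restr K hK f - restr K hK f' := rfl
    have := hA' (f - f')
    rw [h0, h, sub_self, norm_zero, mul_zero, map_sub] at this
    exact sub_eq_zero.1 (norm_le_zero_iff.1 this)
  obtain ⟨g, hg⟩ := LinearMap.exists_rightInverse_of_surjective (restr K hK).rangeRestrict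
    (LinearMap.range_eq_top.2 (restr K hK).surjective_rangeRestrict)
  set ℓ : p →ₗ[ℂ] ℂ := (T : Hol Ω →ₗ[ℂ] ℂ).comp g with hℓ
  have hℓv : ∀ f : Hol Ω, ℓ ⟨restr K hK f, ⟨f, rfl⟩⟩ = T f := by
    intro f
    refine hker _ _ ?_
    have h1 := LinearMap.congr_fun hg ⟨restr K hK f, ⟨f, rfl⟩⟩
    exact congrArg Subtype.val h1
  have hℓb : ∀ y : p, ‖ℓ y‖ ≤ A * ‖y‖ := by
    rintro ⟨_, f, rfl⟩
    rw [hℓv]
    exact hA' f
  obtain ⟨T', hT', -⟩ := exists_extension_norm_eq p (ℓ.mkContinuous A hℓb)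
  refine ⟨T', fun f => ?_⟩
  have := hT' ⟨restr K hK f, ⟨f, rfl⟩⟩
  rw [LinearMap.mkContinuous_apply, hℓv] at this
  exact this.symm

/-- `ξ ↦ (z, ξ)` as an element of `C(K)`, depending linearly on `z`. -/
noncomputable def pairK (K : Set (V n)) : V n →ₗ[ℂ] C(K, ℂ) where
  toFun z := ⟨fun ξ => pair z ξ, (continuous_pair_right z).comp continuous_subtype_val⟩
  map_add' z w := by
    ext ξ
    simp [pair, add_mul, Finset.sum_add_distrib]
  map_smul' c z := by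
    ext ξ
    simp [pair, mul_assoc, Finset.mul_sum]

lemma analyticOnNhd_laplace {T : HolDual Ω} {K : Set (V n)} (hKc : IsCompact K)
    (hKn : K.Nonempty) (hK : K ⊆ Ω) (hT : Carried T K) :
    AnalyticOnNhd ℂ (laplace T) univ := by
  have : CompactSpace K := isCompact_iff_compactSpace.1 hKc
  obtain ⟨T', hT'⟩ := exists_extension hKn hK hT
  have h1 : laplace T = fun z => T' (NormedSpace.exp (LinearMap.toContinuousLinearMap (pairK K) z)) := by
    ext z
    rw [laplace, hT']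
    congr 1
    ext ξ
    have h2 : (NormedSpace.exp (LinearMap.toContinuousLinearMap (pairK K) z) : C(K, ℂ)) ξ
        = NormedSpace.exp ((LinearMap.toContinuousLinearMap (pairK K) z : C(K, ℂ)) ξ) :=
      NormedSpace.map_exp (ContinuousMap.evalAlgHom ℂ ℂ ξ) (continuous_eval_const ξ) _
    rw [h2]
    simp only [restr_apply, expHol_apply]
    rw [← Complex.exp_eq_exp_ℂ]
    rfl
  rw [h1]
  intro z _
  exact T'.analyticAt _ |>.comp
    ((NormedSpace.exp_analytic _).comp ((LinearMap.toContinuousLinearMap (pairK K)).analyticAt z))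

open Classical in
/-- Extension by zero. -/
noncomputable def ext0 (f : Hol Ω) (z : V n) : ℂ := if h : z ∈ Ω then ev f ⟨z, h⟩ else 0

lemma ext0_eq (f : Hol Ω) {z : V n} (h : z ∈ Ω) : ext0 f z = ev f ⟨z, h⟩ := by
  unfold ext0; rw [dif_pos h]

lemma ext0_of_not_mem (f : Hol Ω) {z : V n} (h : z ∉ Ω) : ext0 f z = 0 := by
  unfold ext0; rw [dif_neg h]

lemma analyticOnNhd_ext0 (hΩ : IsOpen Ω) (f : Hol Ω) : AnalyticOnNhd ℂ (ext0 f) Ω := by
  obtain ⟨F, hF, hf⟩ := exists_analytic f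
  intro z hz
  refine (hF z hz).congr ?_
  filter_upwards [hΩ.mem_nhds hz] with w hw
  rw [ext0_eq f hw, hf]

lemma ext0_add (f g : Hol Ω) : ext0 (f + g) = fun z => ext0 f z + ext0 g z := by
  ext z
  by_cases h : z ∈ Ω
  · rw [ext0_eq _ h, ext0_eq _ h, ext0_eq _ h, ev_add]
  · rw [ext0_of_not_mem _ h, ext0_of_not_mem _ h, ext0_of_not_mem _ h, add_zero]

lemma ext0_smul (c : ℂ) (f : Hol Ω) : ext0 (c • f) = fun z => c * ext0 f z := by
  ext z
  by_cases h : z ∈ Ω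
  · rw [ext0_eq _ h, ext0_eq _ h, ev_smul]
  · rw [ext0_of_not_mem _ h, ext0_of_not_mem _ h, mul_zero]

lemma analyticOnNhd_dOp (hΩ : IsOpen Ω) (j : Fin n) (f : Hol Ω) :
    AnalyticOnNhd ℂ (fun z => fderiv ℂ (ext0 f) z (Pi.single j 1)) Ω := by
  intro z hz
  have h1 := (analyticOnNhd_ext0 hΩ f).fderiv z hz
  exact ((ContinuousLinearMap.apply ℂ ℂ (Pi.single j 1 : V n)).analyticAt _).comp h1

/-- The partial derivative on `H(Ω)`. -/
noncomputable def dOp (hΩ : IsOpen Ω) (j : Fin n) : Hol Ω →ₗ[ℂ] Hol Ω where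
  toFun f := mkHol Ω (fun z => fderiv ℂ (ext0 f) z (Pi.single j 1)) (analyticOnNhd_dOp hΩ j f)
  map_add' f g := by
    refine hol_ext fun ξ => ?_
    rw [ev_add, ev_mkHol, ev_mkHol, ev_mkHol, ext0_add]
    have hf := (analyticOnNhd_ext0 hΩ f ξ ξ.2).differentiableAt
    have hg := (analyticOnNhd_ext0 hΩ g ξ ξ.2).differentiableAt
    rw [fderiv_fun_add hf hg]
    rfl
  map_smul' c f := by
    refine hol_ext fun ξ => ?_
    rw [RingHom.id_apply, ev_smul, ev_mkHol, ev_mkHol, ext0_smul]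
    have hf := (analyticOnNhd_ext0 hΩ f ξ ξ.2).differentiableAt
    rw [fderiv_const_mul hf]
    rfl

lemma ev_dOp (hΩ : IsOpen Ω) (j : Fin n) (f : Hol Ω) (ξ : Ω) :
    ev (dOp hΩ j f) ξ = fderiv ℂ (ext0 f) ξ (Pi.single j 1) := rfl

/-- Cauchy's estimate. -/
lemma norm_ev_dOp_le (hΩ : IsOpen Ω) (j : Fin n) (f : Hol Ω) {M δ : ℝ} (hδ : 0 < δ) (ξ : Ω)
    (hξ : Metric.closedBall (ξ : V n) δ ⊆ Ω)
    (hM : ∀ z : Ω, (z : V n) ∈ Metric.closedBall (ξ : V n) δ → ‖ev f z‖ ≤ M) :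
    ‖ev (dOp hΩ j f) ξ‖ ≤ M / δ := by
  set γ : ℂ → V n := fun t => (ξ : V n) + t • (Pi.single j 1 : V n) with hγ
  have hγd : ∀ t, HasDerivAt γ (Pi.single j 1) t := by
    intro t
    have h := ((hasDerivAt_id t).smul_const (Pi.single j 1 : V n)).const_add (ξ : V n)
    rw [one_smul] at h
    exact h
  have hmem : ∀ t ∈ Metric.closedBall (0 : ℂ) δ, γ t ∈ Metric.closedBall (ξ : V n) δ := by
    intro t ht
    rw [mem_closedBall_zero_iff] at ht
    rw [Metric.mem_closedBall, dist_eq_norm, hγ]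
    simp only [add_sub_cancel_left, norm_smul, Pi.norm_single, norm_one, mul_one]
    exact ht
  have hd : ∀ t ∈ Metric.closedBall (0 : ℂ) δ, HasDerivAt (fun t => ext0 f (γ t))
      (fderiv ℂ (ext0 f) (γ t) (Pi.single j 1)) t := by
    intro t ht
    have h1 := (analyticOnNhd_ext0 hΩ f (γ t) (hξ (hmem t ht))).differentiableAt.hasFDerivAt
    exact h1.comp_hasDerivAt t (hγd t)
  have h0 : (0 : ℂ) ∈ Metric.closedBall (0 : ℂ) δ := Metric.mem_closedBall_self hδ.le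
  have h2 : deriv (fun t => ext0 f (γ t)) 0 = ev (dOp hΩ j f) ξ := by
    rw [(hd 0 h0).deriv, ev_dOp]
    simp [hγ]
  rw [← h2]
  refine Complex.norm_deriv_le_of_forall_mem_sphere_norm_le hδ ?_ ?_
  · refine DifferentiableOn.diffContOnCl ?_
    rw [closure_ball _ hδ.ne']
    intro t ht
    exact (hd t ht).differentiableAt.differentiableWithinAt
  · intro t ht
    have h3 := hmem t (Metric.sphere_subset_closedBall ht)
    rw [ext0_eq f (hξ h3)]
    exact hM _ h3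

lemma dOp_expHol (hΩ : IsOpen Ω) (j : Fin n) (z : V n) :
    dOp hΩ j (expHol Ω z) = z j • expHol Ω z := by
  refine hol_ext fun ξ => ?_
  rw [ev_dOp, ev_smul, expHol_apply]
  have h1 : ext0 (expHol Ω z) =ᶠ[𝓝 (ξ : V n)] fun ξ => Complex.exp (pair z ξ) := by
    filter_upwards [hΩ.mem_nhds ξ.2] with w hw
    rw [ext0_eq _ hw, expHol_apply]
  rw [h1.fderiv_eq]
  have h2 : HasFDerivAt (fun ξ : V n => pair z ξ)
      (∑ k, z k • (ContinuousLinearMap.proj (R := ℂ) (φ := fun _ : Fin n => ℂ) k)) (ξ : V n) := by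
    unfold pair
    refine HasFDerivAt.fun_sum fun k _ => ?_
    exact (ContinuousLinearMap.proj (R := ℂ) (φ := fun _ : Fin n => ℂ) k).hasFDerivAt.const_mul (z k)
  rw [h2.cexp.fderiv]
  simp [Pi.single_apply, mul_comm]

/-- Convergence in the strong dual topology from a bound. -/
lemma tendsto_of_bound {U : ℕ → HolDual Ω} {T : HolDual Ω} {K : Set (V n)} (hK : IsCompact K)
    (hKΩ : K ⊆ Ω) {ε : ℕ → ℝ} (hε : Tendsto ε atTop (𝓝 0))
    (h : ∀ k, ∀ f : Hol Ω, ∀ M : ℝ, (∀ ξ : Ω, (ξ : V n) ∈ K → ‖ev f ξ‖ ≤ M) →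
      ‖(U k - T) f‖ ≤ ε k * M) : Tendsto U atTop (𝓝 T) := by
  rw [← tendsto_sub_nhds_zero_iff]
  rw [(ContinuousLinearMap.hasBasis_nhds_zero_of_basis Metric.nhds_basis_ball).tendsto_right_iff]
  rintro ⟨B, r⟩ ⟨hB, hr⟩
  have hr' : 0 < r := hr
  have h1 := hB (eval_small_mem_nhds hK hKΩ one_pos)
  rw [Absorbs] at h1
  obtain ⟨a, ha⟩ := h1.exists
  have hM : ∀ f ∈ B, ∀ ξ : Ω, (ξ : V n) ∈ K → ‖ev f ξ‖ ≤ ‖a‖ := by
    intro f hf ξ hξ
    obtain ⟨g, hg, rfl⟩ := ha hf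
    have h2 := hg ξ hξ
    have h3 : ev (a • g) ξ = a * ev g ξ := ev_smul a g ξ
    show ‖ev (a • g) ξ‖ ≤ ‖a‖
    rw [h3, norm_mul]
    have := norm_nonneg a
    nlinarith
  have h4 : Tendsto (fun k => ε k * ‖a‖) atTop (𝓝 (0 * ‖a‖)) := hε.mul_const _
  rw [zero_mul] at h4
  filter_upwards [h4 (Iio_mem_nhds hr')] with k hk f hf
  rw [mem_ball_zero_iff]
  exact lt_of_le_of_lt (h k f ‖a‖ (hM f hf)) hk

/-- For every polynomial `P` the product `P T̂` is the Laplace transform of a functional. -/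
lemma exists_mul_poly (hΩ : IsOpen Ω) (P : MvPolynomial (Fin n) ℂ) :
    ∀ (T : HolDual Ω) (K : Set (V n)) (δ : ℝ), IsCompact K → K.Nonempty → 0 < δ →
      Metric.cthickening δ K ⊆ Ω → Carried T K →
      ∃ U : HolDual Ω, Carried U (Metric.cthickening δ K) ∧
        ∀ z, laplace U z = laplace T z * MvPolynomial.eval z P := by
  induction P using MvPolynomial.induction_on with
  | C a =>
    intro T K δ hK hKn hδ hKδ hT
    refine ⟨a • T, ?_, fun z => ?_⟩
    · obtain ⟨A, hA⟩ := hT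
      refine ⟨‖a‖ * A, fun f M hM => ?_⟩
      have := hA f M fun ξ hξ => hM ξ (Metric.self_subset_cthickening K hξ)
      rw [_root_.smul_apply, norm_smul, mul_assoc]
      gcongr
    · simp [laplace, mul_comm]
  | add P Q hP hQ =>
    intro T K δ hK hKn hδ hKδ hT
    obtain ⟨U, ⟨A, hA⟩, hU⟩ := hP T K δ hK hKn hδ hKδ hT
    obtain ⟨U', ⟨A', hA'⟩, hU'⟩ := hQ T K δ hK hKn hδ hKδ hT
    refine ⟨U + U', ⟨A + A', fun f M hM => ?_⟩, fun z => ?_⟩
    · have h1 := hA f M hM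
      have h2 := hA' f M hM
      rw [_root_.add_apply, add_mul]
      exact (norm_add_le _ _).trans (add_le_add h1 h2)
    · have h1 := hU z
      have h2 := hU' z
      simp only [laplace, map_add, _root_.add_apply] at h1 h2 ⊢
      rw [h1, h2]; ring
  | mul_X P j hP =>
    intro T K δ hK hKn hδ hKδ hT
    have hδ2 : 0 < δ / 2 := by positivity
    have hsub : Metric.cthickening (δ / 2) K ⊆ Metric.cthickening δ K :=
      Metric.cthickening_mono (by linarith) K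
    obtain ⟨U, hUc, hU⟩ := hP T K (δ / 2) hK hKn hδ2 (hsub.trans hKδ) hT
    have hne : (Metric.cthickening (δ / 2) K ∩ Ω).Nonempty := by
      obtain ⟨x, hx⟩ := hKn
      exact ⟨x, Metric.self_subset_cthickening K hx, hKδ (Metric.self_subset_cthickening K hx)⟩
    obtain ⟨A, hA0, hA⟩ := hUc.exists_nonneg hne
    have hbound : ∀ f : Hol Ω, ∀ M : ℝ,
        (∀ ξ : Ω, (ξ : V n) ∈ Metric.cthickening δ K → ‖ev f ξ‖ ≤ M) →
        ‖U (dOp hΩ j f)‖ ≤ A / (δ / 2) * M := by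
      intro f M hM
      have h1 := hA (dOp hΩ j f) (M / (δ / 2)) ?_
      · refine h1.trans (le_of_eq ?_); ring
      · intro ξ hξ
        have hball : Metric.closedBall (ξ : V n) (δ / 2) ⊆ Metric.cthickening δ K := by
          refine (Metric.closedBall_subset_cthickening hξ (δ / 2)).trans ?_
          refine (Metric.cthickening_cthickening_subset hδ2.le hδ2.le K).trans ?_
          rw [add_halves]
        exact norm_ev_dOp_le hΩ j f hδ2 ξ (hball.trans hKδ) fun z hz => hM z (hball hz)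
    have hcomp : IsCompact (Metric.cthickening δ K) := hK.cthickening
    set ℓ : Hol Ω →ₗ[ℂ] ℂ := (U : Hol Ω →ₗ[ℂ] ℂ).comp (dOp hΩ j) with hℓ
    have hcont : Continuous ℓ := continuous_of_bound ℓ hcomp hKδ hbound
    refine ⟨⟨ℓ, hcont⟩, ⟨A / (δ / 2), hbound⟩, fun z => ?_⟩
    have h1 := hU z
    simp only [laplace] at h1 ⊢
    have h2 : (⟨ℓ, hcont⟩ : HolDual Ω) (expHol Ω z) = U (dOp hΩ j (expHol Ω z)) := rfl
    rw [h2, dOp_expHol, map_smul, h1, map_mul, MvPolynomial.eval_X, smul_eq_mul]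
    ring

end Pool.Agent.Lib.MP_ce3242_an
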