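import Pool.Agent.Lib.MP_ce3242_an.Weight
import Pool.Agent.Lib.Hormander.Main

set_option autoImplicit false

open Set Filter Topology
open scoped ContDiff ComplexConjugate

/-! Links with the definitions used in Hormander's theorem. -/

namespace Pool.Agent.Lib.MP_ce3242_an

variable {n : ℕ}

/-- Holomorphic functions which are smooth in the real sense are smooth in the complex sense. -/
theorem contDiff_complex {F : V n → ℂ} (hF : Differentiable ℂ F) (hF' : ContDiff ℝ ∞ F) :
    ContDiff ℂ ∞ F := by
  rw [contDiff_infty]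
  intro m
  induction m generalizing F with
  | zero => exact contDiff_zero.2 hF.continuous
  | succ m ih =>
    have h1 : ContDiff ℂ ((m : ℕ∞ω) + 1) F := by
      rw [contDiff_succ_iff_fderiv]
      refine ⟨hF, fun h => absurd h (by simp), ?_⟩
      have hdel : ∀ j, ContDiff ℂ m (Hormander.del j F) := by
        intro j
        have hs : ContDiff ℝ ∞ (Hormander.del j F) := by
          rw [Hormander.del_eq]; exact Hormander.contDiff_D hF'
        refine ih (Hormander.differentiable_of_dbar (hs.differentiable (by simp)) ?_) hs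
        intro k z
        rw [Hormander.dbar_eq, Hormander.del_eq, Hormander.D_comm hF']
        have h2 : Hormander.D 1 k F = fun _ => 0 := by
          funext y
          rw [← Hormander.dbar_eq]
          exact Hormander.dbar_of_differentiable hF k y
        rw [h2, Hormander.D_const]
      have h3 : fderiv ℂ F = fun z => ∑ j, Hormander.del j F z •
          (ContinuousLinearMap.proj (R := ℂ) (φ := fun _ : Fin n => ℂ) j) := by
        funext z
        ext v
        have h4 : fderiv ℝ F z = (fderiv ℂ F z).restrictScalars ℝ :=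
          ((hF z).hasFDerivAt.restrictScalars ℝ).fderiv
        have h5 : ∀ j, Hormander.del j F z = fderiv ℂ F z (Pi.single j 1) := by
          intro j
          have h6 : (Pi.single j Complex.I : V n) = Complex.I • Pi.single j (1 : ℂ) := by
            ext k
            by_cases hk : k = j
            · subst hk; simp
            · simp [Pi.single_eq_of_ne hk]
          unfold Hormander.del
          rw [h4, ContinuousLinearMap.coe_restrictScalars', h6, map_smul, smul_eq_mul]
          linear_combination (-1 / 2 : ℂ) * (fderiv ℂ F z (Pi.single j 1)) * Complex.I_mul_I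
        have h7 : v = ∑ j, v j • (Pi.single j 1 : V n) := by
          ext k
          simp [Finset.sum_apply, Pi.single_apply]
        conv_lhs => rw [h7]
        rw [map_sum]
        simp only [map_smul, smul_eq_mul, _root_.sum_apply, _root_.smul_apply,
          ContinuousLinearMap.proj_apply, h5]
        exact Finset.sum_congr rfl fun j _ => mul_comm _ _
      rw [h3]
      exact ContDiff.sum fun j _ => (hdel j).smul contDiff_const
    exact_mod_cast h1

/-- The Levi form in terms of second directional derivatives. -/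
theorem levi_eq_D2 {κ : V n → ℝ} (hκ : ContDiff ℝ ∞ κ) (z w : V n) :
    Hormander.levi κ z w = (D2 κ z w + D2 κ z (Complex.I • w)) / 4 := by
  have hd : DifferentiableAt ℝ (fderiv ℝ κ) z :=
    ((hκ.fderiv_right (m := 1) (WithTop.coe_le_coe.2 le_top)).differentiable (by simp)) z
  set B := fderiv ℝ (fderiv ℝ κ) z with hBdef
  have h2 : ∀ v u : V n, HasFDerivAt (fun y => fderiv ℝ κ y v) (B.flip v) z := by
    intro v u
    have h3 := hd.hasFDerivAt.clm_apply (hasFDerivAt_const v z)
    simpa using h3
  have hsym : ∀ v u : V n, B u v = B v u := by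
    intro v u
    have h : IsSymmSndFDerivAt ℝ κ z :=
      hκ.contDiffAt.isSymmSndFDerivAt (by
        rw [minSmoothness_of_isRCLikeNormedField]
        exact WithTop.coe_le_coe.2 le_top)
    exact h.eq _ _
  have hD2 : ∀ v, D2 κ z v = B v v := by
    intro v
    unfold D2
    rw [(h2 v v).fderiv]
    rfl
  have hdd : ∀ j k, Hormander.dbar k (Hormander.del j (fun y => (κ y : ℂ))) z =
      (((B (Pi.single k 1) (Pi.single j 1) + B (Pi.single k Complex.I) (Pi.single j Complex.I) : ℝ)
        : ℂ) + Complex.I * ((B (Pi.single k Complex.I) (Pi.single j 1) -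
          B (Pi.single k 1) (Pi.single j Complex.I) : ℝ) : ℂ)) / 4 := by
    intro j k
    have e1 : Hormander.del j (fun y => (κ y : ℂ)) = fun y =>
        (((fderiv ℝ κ y (Pi.single j 1) : ℝ) : ℂ) -
          Complex.I * ((fderiv ℝ κ y (Pi.single j Complex.I) : ℝ) : ℂ)) * (1 / 2) := by
      funext y
      unfold Hormander.del
      rw [Hormander.fderiv_ofReal_comp hκ, Hormander.fderiv_ofReal_comp hκ]
      ring
    have e2 : HasFDerivAt (Hormander.del j (fun y => (κ y : ℂ)))
        ((1 / 2 : ℂ) • ((Complex.ofRealCLM.comp (B.flip (Pi.single j 1))) - Complex.I •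
          (Complex.ofRealCLM.comp (B.flip (Pi.single j Complex.I))))) z := by
      rw [e1]
      have e3 := Complex.ofRealCLM.hasFDerivAt.comp z (h2 (Pi.single j 1) 0)
      have e4 := Complex.ofRealCLM.hasFDerivAt.comp z (h2 (Pi.single j Complex.I) 0)
      exact (e3.sub (e4.const_mul Complex.I)).mul_const (1 / 2 : ℂ)
    unfold Hormander.dbar
    rw [e2.fderiv]
    simp only [_root_.smul_apply, _root_.sub_apply, ContinuousLinearMap.comp_apply,
      ContinuousLinearMap.flip_apply, Complex.ofRealCLM_apply, smul_eq_mul]
    push_cast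
    linear_combination (-1 / 4 : ℂ) * (B (Pi.single k Complex.I) (Pi.single j Complex.I) : ℂ) *
      Complex.I_mul_I
  have hw : ∀ w : V n, w = ∑ j, ((w j).re • (Pi.single j 1 : V n) +
      (w j).im • (Pi.single j Complex.I : V n)) := by
    intro w
    ext k
    rw [Finset.sum_apply, Finset.sum_eq_single k]
    · simp
    · intro j _ hj
      simp [Pi.single_eq_of_ne hj.symm]
    · simp
  have hBw : ∀ w : V n, B w w = ∑ j, ∑ k, ((w j).re * (w k).re * B (Pi.single j 1) (Pi.single k 1) +
      (w j).re * (w k).im * B (Pi.single j 1) (Pi.single k Complex.I) +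
      (w j).im * (w k).re * B (Pi.single j Complex.I) (Pi.single k 1) +
      (w j).im * (w k).im * B (Pi.single j Complex.I) (Pi.single k Complex.I)) := by
    intro w
    conv_lhs => rw [hw w]
    rw [map_sum B, _root_.sum_apply]
    refine Finset.sum_congr rfl fun j _ => ?_
    rw [map_sum]
    refine Finset.sum_congr rfl fun k _ => ?_
    simp only [map_add, map_smul, _root_.add_apply, _root_.smul_apply, smul_eq_mul]
    ring
  rw [hD2, hD2, hBw w, hBw (Complex.I • w), ← Finset.sum_add_distrib, Finset.sum_div]
  unfold Hormander.levi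
  rw [Complex.re_sum]
  refine Finset.sum_congr rfl fun j _ => ?_
  rw [Complex.re_sum, ← Finset.sum_add_distrib, Finset.sum_div]
  refine Finset.sum_congr rfl fun k _ => ?_
  rw [hdd j k]
  have s1 := hsym (Pi.single j 1) (Pi.single k 1)
  have s2 := hsym (Pi.single j Complex.I) (Pi.single k 1)
  have s3 := hsym (Pi.single j 1) (Pi.single k Complex.I)
  have s4 := hsym (Pi.single j Complex.I) (Pi.single k Complex.I)
  have e1 : ∀ j, ((Complex.I • w) j).re = -(w j).im := by intro j; simp
  have e2 : ∀ j, ((Complex.I • w) j).im = (w j).re := by intro j; simp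
  rw [e1, e1, e2, e2, s1, s2, s3, s4]
  set b1 := B (Pi.single j 1) (Pi.single k 1)
  set b2 := B (Pi.single j 1) (Pi.single k Complex.I)
  set b3 := B (Pi.single j Complex.I) (Pi.single k 1)
  set b4 := B (Pi.single j Complex.I) (Pi.single k Complex.I)
  have e5 : (((b1 + b4 : ℝ) : ℂ) + Complex.I * ((b2 - b3 : ℝ) : ℂ)) / 4 * w j * conj (w k) =
      ((1 / 4 : ℝ) : ℂ) * ((((b1 + b4 : ℝ) : ℂ) + Complex.I * ((b2 - b3 : ℝ) : ℂ)) * w j *
        conj (w k)) := by push_cast; ring
  rw [e5, Complex.re_ofReal_mul]
  simp only [Complex.mul_re, Complex.mul_im, Complex.add_re, Complex.add_im, Complex.ofReal_re,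
    Complex.ofReal_im, Complex.I_re, Complex.I_im, Complex.conj_re, Complex.conj_im]
  ring

theorem levi_kap_nonneg {g : V n → ℂ} (hg : ContDiff ℂ ∞ g) {A δ η : ℝ} (hδ : 0 < δ)
    (hδA : δ ≤ A) (hη : 0 ≤ η) (hη1 : η ≤ 1) (hA : ∀ z, xx g z ≤ A * yy z) (z w : V n) :
    0 ≤ Hormander.levi (kap g A δ η) z w := by
  rw [levi_eq_D2 (contDiff_kap hg A δ η)]
  have := kap_psh hg hδ hδA hη hη1 hA z w
  linarith

end Pool.Agent.Lib.MP_ce3242_an
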