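import Pool.Agent.Lib.MP_ce3242_an.Link
import Pool.Agent.Lib.MP_ce3242_an.Assembly

set_option autoImplicit false

open Set Filter Topology
open scoped ContDiff

/-! The space `E_Ω` and the approximation theorem. -/

namespace Pool.Agent.Lib.MP_ce3242_an

variable {n : ℕ}

/-- The space `E_Ω` of the Laplace transforms of the analytic functionals on `Ω`. -/
@[ext] structure EOm {n : ℕ} (Ω : Set (V n)) where
  /-- the entire function -/
  toFun : V n → ℂ
  exists_laplace : ∃ T : HolDual Ω, ∀ z, toFun z = laplace T z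

/-- The Laplace transform `T ↦ T̂`, as a map from `H'(Ω)` onto `E_Ω`. -/
noncomputable def EOm.ofDual {Ω : Set (V n)} (T : HolDual Ω) : EOm Ω :=
  ⟨laplace T, T, fun _ => rfl⟩

/-- `E_Ω` carries the topology transported from the strong dual `H'(Ω)` by `T ↦ T̂`. -/
noncomputable instance {Ω : Set (V n)} : TopologicalSpace (EOm Ω) :=
  TopologicalSpace.coinduced (EOm.ofDual : HolDual Ω → EOm Ω) inferInstance

lemma EOm.ofDual_surjective (Ω : Set (V n)) :
    Function.Surjective (EOm.ofDual : HolDual Ω → EOm Ω) := by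
  rintro ⟨F, T, hT⟩
  exact ⟨T, EOm.ext (funext fun z => (hT z).symm)⟩

lemma EOm.ofDual_injective {Ω : Set (V n)} (hΩ : IsOpen Ω) (hne : Ω.Nonempty)
    (hc : Convex ℝ Ω) : Function.Injective (EOm.ofDual : HolDual Ω → EOm Ω) := by
  intro S T h
  rw [← sub_eq_zero]
  apply laplace_injective hΩ hne hc
  intro z
  have h1 : laplace S z = laplace T z := congrFun (congrArg EOm.toFun h) z
  have h2 : laplace (S - T) z = laplace S z - laplace T z := rfl
  rw [h2, h1, sub_self]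

lemma EOm.isHomeomorph_ofDual {Ω : Set (V n)} (hΩ : IsOpen Ω) (hne : Ω.Nonempty)
    (hc : Convex ℝ Ω) : IsHomeomorph (EOm.ofDual : HolDual Ω → EOm Ω) := by
  rw [isHomeomorph_iff_isQuotientMap_injective]
  exact ⟨⟨⟨rfl⟩, EOm.ofDual_surjective Ω⟩, EOm.ofDual_injective hΩ hne hc⟩

theorem main {Ω : Set (V n)} (hΩ : IsOpen Ω) (hne : Ω.Nonempty) (hc : Convex ℝ Ω)
    (φ ψ : EOm Ω) (hφ : ∃ z, φ.toFun z ≠ 0)
    (hg : ∃ g : V n → ℂ, AnalyticOnNhd ℂ g univ ∧ ∀ z, ψ.toFun z = φ.toFun z * g z) :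
    ∃ (P : ℕ → MvPolynomial (Fin n) ℂ) (F : ℕ → EOm Ω),
      (∀ k z, (F k).toFun z = φ.toFun z * MvPolynomial.eval z (P k)) ∧
        Tendsto F atTop (𝓝 ψ) := by
  obtain ⟨S, rfl⟩ := EOm.ofDual_surjective Ω φ
  obtain ⟨T, rfl⟩ := EOm.ofDual_surjective Ω ψ
  obtain ⟨g, hg, hgT⟩ := hg
  obtain ⟨P, U, hU, hUT⟩ := approx_main
    (fun g hg A δ η hδ hδA hη hη1 hA z w => levi_kap_nonneg hg hδ hδA hη hη1 hA z w)
    (fun F hF hF' => contDiff_complex hF hF') hΩ hne hc S T hφ hg hgT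
  refine ⟨P, fun k => EOm.ofDual (U k), hU, ?_⟩
  exact ((EOm.isHomeomorph_ofDual hΩ hne hc).continuous.tendsto T).comp hUT

end Pool.Agent.Lib.MP_ce3242_an
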