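import Pool.Agent.Lib.MP_ce3242_an.Func
import Pool.Agent.Lib.MP_ce3242_an.Bounds

set_option autoImplicit false

open Set Filter Topology
open scoped ContDiff

/-! The support function of a compact set. -/

namespace Pool.Agent.Lib.MP_ce3242_an

variable {n : ℕ}

/-- The support function `h_K(z) = sup_{ξ ∈ K} Re (z, ξ)`. -/
noncomputable def hsup (K : Set (V n)) (z : V n) : ℝ := sSup ((fun ξ => (pair z ξ).re) '' K)

lemma continuous_re_pair (z : V n) : Continuous fun ξ : V n => (pair z ξ).re :=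
  Complex.continuous_re.comp (continuous_pair_right z)

lemma le_hsup {K : Set (V n)} (hK : IsCompact K) {z ξ : V n} (hξ : ξ ∈ K) :
    (pair z ξ).re ≤ hsup K z :=
  le_csSup (hK.image (continuous_re_pair z)).bddAbove ⟨ξ, hξ, rfl⟩

lemma exists_eq_hsup {K : Set (V n)} (hK : IsCompact K) (hKn : K.Nonempty) (z : V n) :
    ∃ ξ ∈ K, (pair z ξ).re = hsup K z :=
  (hK.image (continuous_re_pair z)).sSup_mem (hKn.image _)

lemma pair_add_left (z w ξ : V n) : pair (z + w) ξ = pair z ξ + pair w ξ := by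
  unfold pair
  simp [add_mul, Finset.sum_add_distrib]

lemma pair_add_right (z ξ η : V n) : pair z (ξ + η) = pair z ξ + pair z η := by
  unfold pair
  simp [mul_add, Finset.sum_add_distrib]

lemma norm_pair_le (z ξ : V n) : ‖pair z ξ‖ ≤ n * (‖z‖ * ‖ξ‖) := by
  unfold pair
  calc ‖∑ j, z j * ξ j‖ ≤ ∑ j, ‖z j * ξ j‖ := norm_sum_le _ _
    _ ≤ ∑ j : Fin n, ‖z‖ * ‖ξ‖ := Finset.sum_le_sum fun j _ => by
        rw [norm_mul]
        exact mul_le_mul (norm_le_pi_norm z j) (norm_le_pi_norm ξ j) (norm_nonneg _) (norm_nonneg _)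
    _ = _ := by simp

lemma hsup_le_add {K : Set (V n)} (hK : IsCompact K) (hKn : K.Nonempty) :
    ∃ L : ℝ, 0 ≤ L ∧ (∀ z w, w ∈ Metric.closedBall z 1 → hsup K w ≤ hsup K z + L) ∧
      ∀ z, hsup K z ≤ L * ‖z‖ := by
  obtain ⟨B, hB⟩ := hK.isBounded.exists_norm_le
  have hB0 : 0 ≤ B := by
    obtain ⟨x, hx⟩ := hKn
    exact (norm_nonneg _).trans (hB x hx)
  refine ⟨n * B, by positivity, fun z w hw => ?_, fun z => ?_⟩
  · obtain ⟨ξ, hξ, hξe⟩ := exists_eq_hsup hK hKn w
    have h1 : pair w ξ = pair z ξ + pair (w - z) ξ := by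
      rw [← pair_add_left]; congr 1; abel
    have h2 : (pair (w - z) ξ).re ≤ n * B := by
      have h3 : ‖w - z‖ ≤ 1 := by rwa [← mem_closedBall_iff_norm]
      calc (pair (w - z) ξ).re ≤ ‖pair (w - z) ξ‖ := Complex.re_le_norm _
        _ ≤ n * (‖w - z‖ * ‖ξ‖) := norm_pair_le _ _
        _ ≤ n * (1 * B) := by gcongr; exact hB ξ hξ
        _ = _ := by ring
    rw [← hξe, h1, Complex.add_re]
    have := le_hsup hK (z := z) hξ
    linarith
  · obtain ⟨ξ, hξ, hξe⟩ := exists_eq_hsup hK hKn z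
    rw [← hξe]
    calc (pair z ξ).re ≤ ‖pair z ξ‖ := Complex.re_le_norm _
      _ ≤ n * (‖z‖ * ‖ξ‖) := norm_pair_le _ _
      _ ≤ n * (‖z‖ * B) := by gcongr; exact hB ξ hξ
      _ = _ := by ring

/-- A point `u` of the closed unit polydisc with `(z, u) = ∑ |z_j|`. -/
lemma exists_dual_point (z : V n) : ∃ u : V n, ‖u‖ ≤ 1 ∧ pair z u = (l1 z : ℂ) := by
  refine ⟨fun j => if z j = 0 then 0 else (starRingEnd ℂ) (z j) / ‖z j‖, ?_, ?_⟩
  · rw [pi_norm_le_iff_of_nonneg zero_le_one]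
    intro j
    by_cases h : z j = 0
    · simp [h]
    · simp only [h, if_false]
      rw [norm_div, RCLike.norm_conj, Complex.norm_real, norm_norm, div_self (norm_ne_zero_iff.2 h)]
  · unfold pair l1
    push_cast
    refine Finset.sum_congr rfl fun j _ => ?_
    by_cases h : z j = 0
    · simp [h]
    · simp only [h, if_false]
      have h1 : (‖z j‖ : ℂ) ≠ 0 := by exact_mod_cast norm_ne_zero_iff.2 h
      rw [← mul_div_assoc, Complex.mul_conj, Complex.normSq_eq_norm_sq]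
      push_cast
      field_simp

/-- `h_K + Δ |z|_1` is at most the support function of the `Δ`-neighbourhood. -/
lemma hsup_add_le {K : Set (V n)} (hK : IsCompact K) (hKn : K.Nonempty) {Δ : ℝ} (hΔ : 0 ≤ Δ)
    {z : V n} {M : ℝ} (hM : ∀ ξ ∈ Metric.cthickening Δ K, (pair z ξ).re ≤ M) :
    hsup K z + Δ * l1 z ≤ M := by
  obtain ⟨ξ, hξ, hξe⟩ := exists_eq_hsup hK hKn z
  obtain ⟨u, hu1, hu2⟩ := exists_dual_point z
  have h1 := hM (ξ + (Δ : ℂ) • u) (Metric.mem_cthickening_of_dist_le _ ξ _ _ hξ (by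
    rw [dist_eq_norm, add_sub_cancel_left, norm_smul, Complex.norm_real, Real.norm_eq_abs,
      abs_of_nonneg hΔ]
    nlinarith))
  have h2 : pair z ((Δ : ℂ) • u) = Δ * pair z u := by
    unfold pair
    rw [Finset.mul_sum]
    exact Finset.sum_congr rfl fun j _ => by simp; ring
  rw [pair_add_right, h2, hu2, Complex.add_re, hξe] at h1
  have h3 : ((Δ : ℂ) * (l1 z : ℂ)).re = Δ * l1 z := by
    rw [← Complex.ofReal_mul, Complex.ofReal_re]
  linarith

/-- The Laplace transform of a functional carried by `K`. -/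
lemma norm_laplace_le {Ω : Set (V n)} {T : HolDual Ω} {K : Set (V n)} (hK : IsCompact K)
    {A : ℝ} (hA : ∀ f : Hol Ω, ∀ M : ℝ, (∀ ξ : Ω, (ξ : V n) ∈ K → ‖ev f ξ‖ ≤ M) → ‖T f‖ ≤ A * M)
    (z : V n) : ‖laplace T z‖ ≤ A * Real.exp (hsup K z) := by
  refine hA _ _ fun ξ hξ => ?_
  rw [expHol_apply, Complex.norm_exp]
  exact Real.exp_le_exp.2 (le_hsup hK hξ)

/-- `xx g ≤ A yy` for a function of exponential type. -/
lemma exists_xx_le {g : V n → ℂ} {C B : ℝ} (h : ∀ z, ‖g z‖ ≤ C * Real.exp (B * ‖z‖)) :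
    ∃ A : ℝ, ∀ z, xx g z ≤ A * yy z := by
  refine ⟨1 / 2 * Real.log (1 + C ^ 2) + |B|, fun z => ?_⟩
  have hlog : 0 ≤ Real.log (1 + C ^ 2) := Real.log_nonneg (by nlinarith [sq_nonneg C])
  have hy := one_le_yy z
  have h1 : 1 + Complex.normSq (g z) ≤ (1 + C ^ 2) * Real.exp (2 * |B| * yy z) := by
    have h2 : ‖g z‖ ≤ |C| * Real.exp (|B| * yy z) := by
      refine (h z).trans ?_
      have h3 : B * ‖z‖ ≤ |B| * yy z := by
        calc B * ‖z‖ ≤ |B| * ‖z‖ := by gcongr; exact le_abs_self B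
          _ ≤ _ := by gcongr; exact norm_le_yy z
      have h4 : C ≤ |C| := le_abs_self C
      calc C * Real.exp (B * ‖z‖) ≤ |C| * Real.exp (B * ‖z‖) := by gcongr
        _ ≤ _ := by gcongr
    have h5 : Complex.normSq (g z) ≤ C ^ 2 * Real.exp (2 * |B| * yy z) := by
      rw [Complex.normSq_eq_norm_sq]
      calc ‖g z‖ ^ 2 ≤ (|C| * Real.exp (|B| * yy z)) ^ 2 := by gcongr
        _ = |C| ^ 2 * Real.exp (|B| * yy z) ^ 2 := by ring
        _ = C ^ 2 * Real.exp (2 * |B| * yy z) := by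
            rw [sq_abs, ← Real.exp_nat_mul]
            congr 2; push_cast; ring
    have h6 : 1 ≤ Real.exp (2 * |B| * yy z) := Real.one_le_exp (by have := yy_pos z; positivity)
    nlinarith
  unfold xx
  have h2 : Real.log (1 + Complex.normSq (g z)) ≤ Real.log (1 + C ^ 2) + 2 * |B| * yy z := by
    have h3 : 0 < 1 + Complex.normSq (g z) := by
      have := Complex.normSq_nonneg (g z); linarith
    have h4 := Real.log_le_log h3 h1
    rwa [Real.log_mul (by positivity) (Real.exp_pos _).ne', Real.log_exp] at h4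
  nlinarith

end Pool.Agent.Lib.MP_ce3242_an
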