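import Pool.Agent.Lib.MP_ce3242_an.Defs

set_option autoImplicit false

open Set Filter Topology
open scoped ContDiff

/-! The plurisubharmonic weight. -/

namespace Pool.Agent.Lib.MP_ce3242_an

variable {n : ℕ}

/-- Second derivative of `f` in the direction `v`. -/
noncomputable def D2 (f : V n → ℝ) (z v : V n) : ℝ :=
  fderiv ℝ (fun z' => fderiv ℝ f z' v) z v

lemma hasDerivAt_slice {f : V n → ℝ} (hf : ContDiff ℝ ∞ f) (z v : V n) (t : ℝ) :
    HasDerivAt (fun s : ℝ => f (z + s • v)) (fderiv ℝ f (z + t • v) v) t := by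
  have h1 : HasFDerivAt f (fderiv ℝ f (z + t • v)) (z + t • v) :=
    ((hf.differentiable (by simp)) _).hasFDerivAt
  have h2 : HasDerivAt (fun s : ℝ => z + s • v) v t := by
    simpa using ((hasDerivAt_id t).smul_const v).const_add z
  exact h1.comp_hasDerivAt t h2

lemma contDiff_fderiv_apply {f : V n → ℝ} (hf : ContDiff ℝ ∞ f) (v : V n) :
    ContDiff ℝ ∞ (fun z => fderiv ℝ f z v) :=
  (hf.fderiv_right (m := ∞) (by simp)).clm_apply contDiff_const

lemma hasDerivAt_slice_fderiv {f : V n → ℝ} (hf : ContDiff ℝ ∞ f) (z v : V n) (t : ℝ) :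
    HasDerivAt (fun s : ℝ => fderiv ℝ f (z + s • v) v) (D2 f (z + t • v) v) t :=
  hasDerivAt_slice (contDiff_fderiv_apply hf v) z v t

lemma D2_eq_of {f : V n → ℝ} (hf : ContDiff ℝ ∞ f) {z v : V n} {k1 : ℝ → ℝ} {k2 : ℝ}
    (h1 : ∀ t, HasDerivAt (fun s : ℝ => f (z + s • v)) (k1 t) t) (h2 : HasDerivAt k1 k2 0) :
    D2 f z v = k2 := by
  have h3 : (fun s : ℝ => fderiv ℝ f (z + s • v) v) = k1 := by
    ext t
    exact (hasDerivAt_slice hf z v t).unique (h1 t)
  have h4 := hasDerivAt_slice_fderiv hf z v 0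
  rw [h3] at h4
  have h5 := h4.unique h2
  simpa using h5

/-- The function `y^{-η} (δ y + (1 - b) x + a x² / y)`. -/
noncomputable def FF (η δ a b : ℝ) (x y : ℝ) : ℝ :=
  Real.exp (-η * Real.log y) * (δ * y + (1 - b) * x + a * x ^ 2 / y)

lemma hasDerivAt_FF {η δ a b : ℝ} {x y : ℝ → ℝ} {x1 y1 : ℝ} {t : ℝ} (hx : HasDerivAt x x1 t)
    (hy : HasDerivAt y y1 t) (hpos : 0 < y t) :
    HasDerivAt (fun s => FF η δ a b (x s) (y s))
      (Real.exp (-η * Real.log (y t)) * ((-η * (y1 / y t)) *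
        (δ * y t + (1 - b) * x t + a * x t ^ 2 / y t) +
        (δ * y1 + (1 - b) * x1 + a * (2 * x t * x1 / y t - x t ^ 2 * y1 / y t ^ 2)))) t := by
  unfold FF
  have h1 : HasDerivAt (fun s => Real.exp (-η * Real.log (y s)))
      (Real.exp (-η * Real.log (y t)) * (-η * (y1 / y t))) t :=
    ((hy.log hpos.ne').const_mul (-η)).exp
  have h2 : HasDerivAt (fun s => δ * y s + (1 - b) * x s + a * x s ^ 2 / y s)
      (δ * y1 + (1 - b) * x1 + (a * (2 * x t ^ (2 - 1) * x1) * y t - a * x t ^ 2 * y1) / y t ^ 2) t := by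
    have h3 : HasDerivAt (fun s => x s ^ 2) (2 * x t ^ (2 - 1) * x1) t := by
      simpa using hx.fun_pow 2
    exact ((hy.const_mul δ).add (hx.const_mul (1 - b))).add ((h3.const_mul a).div hy hpos.ne')
  refine (h1.mul h2).congr_deriv ?_
  have := hpos.ne'
  field_simp
  ring

/-- Second derivative of `FF` along a curve. -/
lemma hasDerivAt_FF' {η δ a b : ℝ} {x y x1 y1 : ℝ → ℝ} {x2 y2 : ℝ} {t : ℝ}
    (hx : HasDerivAt x (x1 t) t) (hy : HasDerivAt y (y1 t) t) (hx1 : HasDerivAt x1 x2 t)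
    (hy1 : HasDerivAt y1 y2 t) (hpos : 0 < y t) :
    HasDerivAt (fun s => Real.exp (-η * Real.log (y s)) * ((-η * (y1 s / y s)) *
        (δ * y s + (1 - b) * x s + a * x s ^ 2 / y s) +
        (δ * y1 s + (1 - b) * x1 s + a * (2 * x s * x1 s / y s - x s ^ 2 * y1 s / y s ^ 2))))
      (Real.exp (-η * Real.log (y t)) * (
        (1 - b + 2 * a * (x t / y t)) * x2 + (δ - a * (x t / y t) ^ 2) * y2
        - η * (δ + (1 - b) * (x t / y t) + a * (x t / y t) ^ 2) * y2
        + (2 * a * (x1 t - x t / y t * y1 t) ^ 2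
          - 2 * η * (1 - b + 2 * a * (x t / y t)) * (x1 t - x t / y t * y1 t) * y1 t
          - η * (1 - η) * (δ + (1 - b) * (x t / y t) + a * (x t / y t) ^ 2) * y1 t ^ 2) / y t)) t := by
  have h1 : HasDerivAt (fun s => Real.exp (-η * Real.log (y s)))
      (Real.exp (-η * Real.log (y t)) * (-η * (y1 t / y t))) t :=
    ((hy.log hpos.ne').const_mul (-η)).exp
  have hx2 : HasDerivAt (fun s => x s ^ 2) (2 * x t ^ (2 - 1) * x1 t) t := by
    simpa using hx.fun_pow 2
  have hy2 : HasDerivAt (fun s => y s ^ 2) (2 * y t ^ (2 - 1) * y1 t) t := by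
    simpa using hy.fun_pow 2
  have h2 : HasDerivAt (fun s => δ * y s + (1 - b) * x s + a * x s ^ 2 / y s)
      (δ * y1 t + (1 - b) * x1 t +
        (a * (2 * x t ^ (2 - 1) * x1 t) * y t - a * x t ^ 2 * y1 t) / y t ^ 2) t :=
    ((hy.const_mul δ).add (hx.const_mul (1 - b))).add ((hx2.const_mul a).div hy hpos.ne')
  have h3 : HasDerivAt (fun s => -η * (y1 s / y s))
      (-η * ((y2 * y t - y1 t * y1 t) / y t ^ 2)) t :=
    (hy1.div hy hpos.ne').const_mul (-η)
  have h4 : HasDerivAt (fun s => 2 * x s * x1 s) (2 * x1 t * x1 t + 2 * x t * x2) t :=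
    (hx.const_mul 2).mul hx1
  have h5 : HasDerivAt (fun s => x s ^ 2 * y1 s) (2 * x t ^ (2 - 1) * x1 t * y1 t + x t ^ 2 * y2) t :=
    hx2.mul hy1
  have hy20 : y t ^ 2 ≠ 0 := pow_ne_zero 2 hpos.ne'
  have h6 : HasDerivAt (fun s => δ * y1 s + (1 - b) * x1 s +
        a * (2 * x s * x1 s / y s - x s ^ 2 * y1 s / y s ^ 2))
      (δ * y2 + (1 - b) * x2 +
        a * (((2 * x1 t * x1 t + 2 * x t * x2) * y t - 2 * x t * x1 t * y1 t) / y t ^ 2 -
          ((2 * x t ^ (2 - 1) * x1 t * y1 t + x t ^ 2 * y2) * y t ^ 2 -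
            x t ^ 2 * y1 t * (2 * y t ^ (2 - 1) * y1 t)) / (y t ^ 2) ^ 2)) t :=
    ((hy1.const_mul δ).add (hx1.const_mul (1 - b))).add
      (((h4.div hy hpos.ne').sub (h5.div hy2 hy20)).const_mul a)
  refine (h1.fun_mul ((h3.fun_mul h2).fun_add h6)).congr_deriv ?_
  have := hpos.ne'
  field_simp
  ring

/-- `|z|²` -/
noncomputable def nsq (z : V n) : ℝ := ∑ j, Complex.normSq (z j)

lemma nsq_nonneg (z : V n) : 0 ≤ nsq z := Finset.sum_nonneg fun _ _ => Complex.normSq_nonneg _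

/-- `⟨z, w⟩ = ∑ z_j conj (w_j)` -/
noncomputable def herm (z w : V n) : ℂ := ∑ j, z j * (starRingEnd ℂ) (w j)

lemma normSq_herm_le (z w : V n) : Complex.normSq (herm z w) ≤ nsq z * nsq w := by
  have h1 : ‖herm z w‖ ≤ ∑ j, ‖z j‖ * ‖w j‖ := by
    unfold herm
    refine (norm_sum_le _ _).trans (Finset.sum_le_sum fun j _ => ?_)
    rw [norm_mul, RCLike.norm_conj]
  have h2 := Finset.sum_mul_sq_le_sq_mul_sq Finset.univ (fun j => ‖z j‖) (fun j => ‖w j‖)
  have h3 : Complex.normSq (herm z w) = ‖herm z w‖ ^ 2 := Complex.normSq_eq_norm_sq _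
  have h4 : ∀ u : V n, nsq u = ∑ j, ‖u j‖ ^ 2 := fun u => by
    simp only [nsq, Complex.normSq_eq_norm_sq]
  rw [h3, h4, h4]
  refine le_trans ?_ h2
  have h5 : 0 ≤ ‖herm z w‖ := norm_nonneg _
  gcongr

/-- `y = √(1 + |z|²)` -/
noncomputable def yy (z : V n) : ℝ := Real.sqrt (1 + nsq z)

lemma one_le_yy (z : V n) : 1 ≤ yy z := by
  unfold yy
  rw [show (1 : ℝ) = Real.sqrt 1 by simp]
  exact Real.sqrt_le_sqrt (by simpa using nsq_nonneg z)

lemma yy_pos (z : V n) : 0 < yy z := lt_of_lt_of_le one_pos (one_le_yy z)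

lemma yy_sq (z : V n) : yy z ^ 2 = 1 + nsq z := by
  unfold yy
  exact Real.sq_sqrt (by have := nsq_nonneg z; linarith)

lemma contDiff_nsq : ContDiff ℝ ∞ (nsq : V n → ℝ) := by
  unfold nsq
  refine ContDiff.sum fun j _ => ?_
  have h1 : ContDiff ℝ ∞ (fun z : V n => (z j).re) :=
    Complex.reCLM.contDiff.comp (contDiff_apply ℝ ℂ j)
  have h2 : ContDiff ℝ ∞ (fun z : V n => (z j).im) :=
    Complex.imCLM.contDiff.comp (contDiff_apply ℝ ℂ j)
  simp only [Complex.normSq_apply]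
  exact (h1.mul h1).add (h2.mul h2)

lemma contDiff_yy : ContDiff ℝ ∞ (yy : V n → ℝ) := by
  unfold yy
  refine (contDiff_const.add contDiff_nsq).sqrt fun z => ?_
  have := nsq_nonneg z
  positivity

lemma hasDerivAt_nsq (z v : V n) (t : ℝ) :
    HasDerivAt (fun s : ℝ => nsq (z + s • v)) (2 * (herm (z + t • v) v).re) t := by
  unfold nsq herm
  have h : ∀ j, HasDerivAt (fun s : ℝ => Complex.normSq ((z + s • v) j))
      (2 * ((z + t • v) j * (starRingEnd ℂ) (v j)).re) t := by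
    intro j
    have h1 : HasDerivAt (fun s : ℝ => ((z + s • v) j).re) (v j).re t := by
      have : (fun s : ℝ => ((z + s • v) j).re) = fun s : ℝ => (z j).re + s * (v j).re := by
        ext s; simp
      rw [this]
      simpa using ((hasDerivAt_id t).mul_const (v j).re).const_add (z j).re
    have h2 : HasDerivAt (fun s : ℝ => ((z + s • v) j).im) (v j).im t := by
      have : (fun s : ℝ => ((z + s • v) j).im) = fun s : ℝ => (z j).im + s * (v j).im := by
        ext s; simp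
      rw [this]
      simpa using ((hasDerivAt_id t).mul_const (v j).im).const_add (z j).im
    have h3 := (h1.fun_mul h1).fun_add (h2.fun_mul h2)
    simp only [Complex.normSq_apply]
    refine h3.congr_deriv ?_
    simp only [Complex.mul_re, Complex.conj_re, Complex.conj_im]
    ring
  have h4 := HasDerivAt.fun_sum (u := Finset.univ) fun j _ => h j
  refine h4.congr_deriv ?_
  rw [Complex.re_sum, Finset.mul_sum]

/-- first derivative of `y`: `y y' = Re ⟨z, v⟩` -/
lemma yy_mul_fderiv (z v : V n) : yy z * fderiv ℝ yy z v = (herm z v).re := by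
  have h1 := hasDerivAt_slice contDiff_yy z v 0
  have h2 : HasDerivAt (fun s : ℝ => yy (z + s • v) * yy (z + s • v))
      (fderiv ℝ yy (z + (0 : ℝ) • v) v * yy (z + (0 : ℝ) • v) +
        yy (z + (0 : ℝ) • v) * fderiv ℝ yy (z + (0 : ℝ) • v) v) 0 := h1.mul h1
  have h3 : (fun s : ℝ => yy (z + s • v) * yy (z + s • v)) = fun s : ℝ => 1 + nsq (z + s • v) := by
    ext s
    rw [← yy_sq]; ring
  rw [h3] at h2
  have h4 := ((hasDerivAt_nsq z v 0).const_add 1).unique h2
  simp only [zero_smul, add_zero] at h4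
  linarith

/-- second derivative of `y`: `y'² + y y'' = |v|²` -/
lemma yy_D2 (z v : V n) : fderiv ℝ yy z v ^ 2 + yy z * D2 yy z v = nsq v := by
  have h1 := hasDerivAt_slice contDiff_yy z v 0
  have h1' := hasDerivAt_slice_fderiv contDiff_yy z v 0
  have h2 := h1.mul h1'
  have h3 : (fun s : ℝ => yy (z + s • v)) * (fun s : ℝ => fderiv ℝ yy (z + s • v) v)
      = fun s : ℝ => (herm (z + s • v) v).re := by
    ext s
    exact yy_mul_fderiv _ _
  rw [h3] at h2
  have h4 : HasDerivAt (fun s : ℝ => (herm (z + s • v) v).re) (nsq v) 0 := by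
    have : (fun s : ℝ => (herm (z + s • v) v).re) = fun s : ℝ => (herm z v).re + s * nsq v := by
      ext s
      unfold herm nsq
      simp only [Complex.re_sum, Finset.mul_sum, ← Finset.sum_add_distrib, Complex.normSq_apply]
      refine Finset.sum_congr rfl fun j _ => ?_
      simp
      ring
    rw [this]
    simpa using ((hasDerivAt_id (0 : ℝ)).mul_const (nsq v)).const_add (herm z v).re
  have h5 := h2.unique h4
  simp only [zero_smul, add_zero] at h5
  rw [← h5]; ring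

lemma nsq_I (w : V n) : nsq (Complex.I • w) = nsq w := by
  unfold nsq; simp

lemma herm_I (z w : V n) : herm z (Complex.I • w) = -Complex.I * herm z w := by
  unfold herm
  rw [Finset.mul_sum]
  refine Finset.sum_congr rfl fun j _ => ?_
  simp
  ring

/-- `∑ y'² ≤ |w|²` and `y ∑ y'' ≥ |w|²` -/
lemma yy_bounds (z w : V n) :
    fderiv ℝ yy z w ^ 2 + fderiv ℝ yy z (Complex.I • w) ^ 2 ≤ nsq w ∧
    nsq w ≤ yy z * (D2 yy z w + D2 yy z (Complex.I • w)) := by
  have h1 := yy_mul_fderiv z w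
  have h2 := yy_mul_fderiv z (Complex.I • w)
  have h3 := yy_D2 z w
  have h4 := yy_D2 z (Complex.I • w)
  rw [nsq_I] at h4
  have h5 : (herm z (Complex.I • w)).re = (herm z w).im := by rw [herm_I]; simp
  rw [h5] at h2
  have h6 := normSq_herm_le z w
  rw [Complex.normSq_apply, ← h1, ← h2] at h6
  have h7 := yy_sq z
  have h8 := yy_pos z
  have h9 := nsq_nonneg w
  have h10 := nsq_nonneg z
  have key : fderiv ℝ yy z w ^ 2 + fderiv ℝ yy z (Complex.I • w) ^ 2 ≤ nsq w := by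
    have h11 : yy z ^ 2 * (fderiv ℝ yy z w ^ 2 + fderiv ℝ yy z (Complex.I • w) ^ 2)
        ≤ yy z ^ 2 * nsq w := by
      have e1 : yy z ^ 2 * (fderiv ℝ yy z w ^ 2 + fderiv ℝ yy z (Complex.I • w) ^ 2) =
        yy z * fderiv ℝ yy z w * (yy z * fderiv ℝ yy z w) + yy z * fderiv ℝ yy z (Complex.I • w) *
          (yy z * fderiv ℝ yy z (Complex.I • w)) := by ring
      have e2 : yy z ^ 2 * nsq w = nsq w + nsq z * nsq w := by rw [h7]; ring
      rw [e1, e2]
      linarith
    exact le_of_mul_le_mul_left h11 (by positivity)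
  refine ⟨key, ?_⟩
  nlinarith

/-- `x = log √(1 + |g|²)` -/
noncomputable def xx (g : V n → ℂ) (z : V n) : ℝ := 1 / 2 * Real.log (1 + Complex.normSq (g z))

lemma xx_nonneg (g : V n → ℂ) (z : V n) : 0 ≤ xx g z := by
  unfold xx
  have := Real.log_nonneg (x := 1 + Complex.normSq (g z))
    (by have := Complex.normSq_nonneg (g z); linarith)
  positivity

lemma contDiff_normSq_comp {g : V n → ℂ} (hg : ContDiff ℂ ∞ g) :
    ContDiff ℝ ∞ (fun z => Complex.normSq (g z)) := by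
  have hg' : ContDiff ℝ ∞ g := hg.restrict_scalars ℝ
  have h1 : ContDiff ℝ ∞ (fun z : V n => (g z).re) := Complex.reCLM.contDiff.comp hg'
  have h2 : ContDiff ℝ ∞ (fun z : V n => (g z).im) := Complex.imCLM.contDiff.comp hg'
  simp only [Complex.normSq_apply]
  exact (h1.mul h1).add (h2.mul h2)

lemma contDiff_xx {g : V n → ℂ} (hg : ContDiff ℂ ∞ g) : ContDiff ℝ ∞ (xx g) := by
  unfold xx
  refine contDiff_const.mul ((contDiff_const.add (contDiff_normSq_comp hg)).log fun z => ?_)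
  have := Complex.normSq_nonneg (g z)
  positivity

lemma hasDerivAt_cslice {g : V n → ℂ} (hg : ContDiff ℂ ∞ g) (z v : V n) (t : ℝ) :
    HasDerivAt (fun s : ℝ => g (z + s • v)) (fderiv ℂ g (z + t • v) v) t := by
  have h1 : HasFDerivAt g ((fderiv ℂ g (z + t • v)).restrictScalars ℝ) (z + t • v) :=
    ((hg.differentiable (by simp)) _).hasFDerivAt.restrictScalars ℝ
  have h2 : HasDerivAt (fun s : ℝ => z + s • v) v t := by
    simpa using ((hasDerivAt_id t).smul_const v).const_add z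
  exact h1.comp_hasDerivAt t h2

lemma contDiff_cfderiv_apply {g : V n → ℂ} (hg : ContDiff ℂ ∞ g) (v : V n) :
    ContDiff ℂ ∞ (fun z => fderiv ℂ g z v) :=
  (hg.fderiv_right (m := ∞) (by simp)).clm_apply contDiff_const

lemma hasDerivAt_normSq_slice {c : ℝ → ℂ} {c' : ℂ} {t : ℝ} (hc : HasDerivAt c c' t) :
    HasDerivAt (fun s => Complex.normSq (c s)) (2 * (c' * (starRingEnd ℂ) (c t)).re) t := by
  have h1 : HasDerivAt (fun s => (c s).re) c'.re t :=
    Complex.reCLM.hasFDerivAt.comp_hasDerivAt t hc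
  have h2 : HasDerivAt (fun s => (c s).im) c'.im t :=
    Complex.imCLM.hasFDerivAt.comp_hasDerivAt t hc
  simp only [Complex.normSq_apply]
  refine ((h1.fun_mul h1).fun_add (h2.fun_mul h2)).congr_deriv ?_
  simp only [Complex.mul_re, Complex.conj_re, Complex.conj_im]
  ring

/-- second derivative of `log (1 + |g|²) / 2` -/
lemma xx_D2 {g : V n → ℂ} (hg : ContDiff ℂ ∞ g) (z v : V n) :
    D2 (xx g) z v = 1 / 2 * ((2 * (Complex.normSq (fderiv ℂ g z v)) +
        2 * (fderiv ℂ (fun z' => fderiv ℂ g z' v) z v * (starRingEnd ℂ) (g z)).re)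
          / (1 + Complex.normSq (g z)) -
      (2 * (fderiv ℂ g z v * (starRingEnd ℂ) (g z)).re) ^ 2 / (1 + Complex.normSq (g z)) ^ 2) := by
  have hpos : ∀ z, (1 + Complex.normSq (g z)) ≠ 0 := fun z => by
    have := Complex.normSq_nonneg (g z); positivity
  have h1 : ∀ t : ℝ, HasDerivAt (fun s : ℝ => xx g (z + s • v))
      (1 / 2 * ((2 * (fderiv ℂ g (z + t • v) v * (starRingEnd ℂ) (g (z + t • v))).re) /
        (1 + Complex.normSq (g (z + t • v))))) t := by
    intro t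
    unfold xx
    exact (((hasDerivAt_normSq_slice (hasDerivAt_cslice hg z v t)).const_add 1).log
      (hpos _)).const_mul _
  refine D2_eq_of (contDiff_xx hg) h1 ?_
  have hg0 := hasDerivAt_cslice hg z v 0
  have hg1 := hasDerivAt_cslice (contDiff_cfderiv_apply hg v) z v 0
  have hconj : HasDerivAt (fun s : ℝ => (starRingEnd ℂ) (g (z + s • v)))
      ((starRingEnd ℂ) (fderiv ℂ g (z + (0 : ℝ) • v) v)) 0 :=
    Complex.conjCLE.toContinuousLinearMap.hasFDerivAt.comp_hasDerivAt (0 : ℝ) hg0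
  have hm := hg1.fun_mul hconj
  have hre : HasDerivAt (fun s : ℝ => (fderiv ℂ g (z + s • v) v *
      (starRingEnd ℂ) (g (z + s • v))).re) _ 0 :=
    Complex.reCLM.hasFDerivAt.comp_hasDerivAt (0 : ℝ) hm
  have hn := (hasDerivAt_normSq_slice hg0).const_add 1
  refine (((hre.const_mul 2).div hn (hpos _)).const_mul (1 / 2)).congr_deriv ?_
  simp only [zero_smul, add_zero, Complex.reCLM_apply, Complex.add_re]
  rw [Complex.mul_conj, Complex.ofReal_re]
  have := hpos z
  field_simp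
  ring

/-- `x` is plurisubharmonic. -/
lemma xx_psh {g : V n → ℂ} (hg : ContDiff ℂ ∞ g) (z w : V n) :
    0 ≤ D2 (xx g) z w + D2 (xx g) z (Complex.I • w) := by
  rw [xx_D2 hg, xx_D2 hg]
  have e1 : fderiv ℂ g z (Complex.I • w) = Complex.I * fderiv ℂ g z w := by
    rw [map_smul, smul_eq_mul]
  have e2 : fderiv ℂ (fun z' => fderiv ℂ g z' (Complex.I • w)) z (Complex.I • w) =
      -fderiv ℂ (fun z' => fderiv ℂ g z' w) z w := by
    have : (fun z' => fderiv ℂ g z' (Complex.I • w)) = fun z' => Complex.I * fderiv ℂ g z' w := by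
      ext z'
      rw [map_smul, smul_eq_mul]
    rw [this, fderiv_const_mul ((contDiff_cfderiv_apply hg w).differentiable (by simp) z)]
    rw [map_smul]
    simp only [smul_apply, smul_eq_mul]
    rw [← mul_assoc, Complex.I_mul_I]
    ring
  rw [e1, e2]
  set G1 := fderiv ℂ g z w
  set G2 := fderiv ℂ (fun z' => fderiv ℂ g z' w) z w
  set G0 := g z
  have h0 := Complex.normSq_nonneg G0
  have h1 := Complex.normSq_nonneg G1
  have hpos : 0 < 1 + Complex.normSq G0 := by positivity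
  have e3 : (G1 * (starRingEnd ℂ) G0).re ^ 2 + (Complex.I * G1 * (starRingEnd ℂ) G0).re ^ 2 =
      Complex.normSq G0 * Complex.normSq G1 := by
    simp only [Complex.normSq_apply, Complex.mul_re, Complex.mul_im, Complex.conj_re,
      Complex.conj_im, Complex.I_re, Complex.I_im]
    ring
  have e4 : (-G2 * (starRingEnd ℂ) G0).re = -(G2 * (starRingEnd ℂ) G0).re := by
    simp
  have e5 : Complex.normSq (Complex.I * G1) = Complex.normSq G1 := by
    rw [map_mul]; simp
  rw [e4, e5]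
  have e6 : 1 / 2 * ((2 * Complex.normSq G1 + 2 * (G2 * (starRingEnd ℂ) G0).re)
        / (1 + Complex.normSq G0) -
      (2 * (G1 * (starRingEnd ℂ) G0).re) ^ 2 / (1 + Complex.normSq G0) ^ 2) +
      1 / 2 * ((2 * Complex.normSq G1 + 2 * (-(G2 * (starRingEnd ℂ) G0).re))
        / (1 + Complex.normSq G0) -
      (2 * (Complex.I * G1 * (starRingEnd ℂ) G0).re) ^ 2 / (1 + Complex.normSq G0) ^ 2)
      = 2 * (Complex.normSq G1 * (1 + Complex.normSq G0) - ((G1 * (starRingEnd ℂ) G0).re ^ 2 +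
        (Complex.I * G1 * (starRingEnd ℂ) G0).re ^ 2)) / (1 + Complex.normSq G0) ^ 2 := by
    field_simp
    ring
  rw [e6, e3]
  have e7 : Complex.normSq G1 * (1 + Complex.normSq G0) - Complex.normSq G0 * Complex.normSq G1
    = Complex.normSq G1 := by ring
  rw [e7]
  positivity

/-- The constant in the weight. -/
noncomputable def CC (A δ : ℝ) : ℝ := 2 * (A + δ) + 4 * A ^ 2 / δ

/-- The weight. -/
noncomputable def kap (g : V n → ℂ) (A δ η : ℝ) (z : V n) : ℝ :=
  2 * (FF η δ (δ / (2 * A ^ 2)) (δ / (2 * A)) (xx g z) (yy z) + CC A δ * η * yy z)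

lemma contDiff_kap {g : V n → ℂ} (hg : ContDiff ℂ ∞ g) (A δ η : ℝ) :
    ContDiff ℝ ∞ (kap g A δ η) := by
  unfold kap FF
  have h1 := contDiff_xx hg
  have h2 := contDiff_yy (n := n)
  have h3 : ContDiff ℝ ∞ (fun z : V n => Real.log (yy z)) := h2.log fun z => (yy_pos z).ne'
  exact contDiff_const.mul ((((contDiff_const.mul h3).exp).mul (((contDiff_const.mul h2).add
    (contDiff_const.mul h1)).add ((contDiff_const.mul (h1.pow 2)).div h2
      fun z => (yy_pos z).ne'))).add (contDiff_const.mul h2))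

lemma kap_D2 {g : V n → ℂ} (hg : ContDiff ℂ ∞ g) (A δ η : ℝ) (z v : V n) (a b s : ℝ)
    (ha : a = δ / (2 * A ^ 2)) (hb : b = δ / (2 * A)) (hs : s = xx g z / yy z) :
    D2 (kap g A δ η) z v = 2 * (Real.exp (-η * Real.log (yy z)) * (
        (1 - b + 2 * a * s) * D2 (xx g) z v + (δ - a * s ^ 2) * D2 yy z v
        - η * (δ + (1 - b) * s + a * s ^ 2) * D2 yy z v
        + (2 * a * (fderiv ℝ (xx g) z v - s * fderiv ℝ yy z v) ^ 2
          - 2 * η * (1 - b + 2 * a * s) * (fderiv ℝ (xx g) z v - s * fderiv ℝ yy z v)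
            * fderiv ℝ yy z v
          - η * (1 - η) * (δ + (1 - b) * s + a * s ^ 2) * fderiv ℝ yy z v ^ 2) / yy z)
      + CC A δ * η * D2 yy z v) := by
  subst ha hb hs
  have h1 : ∀ t : ℝ, HasDerivAt (fun s : ℝ => kap g A δ η (z + s • v)) _ t := fun t =>
    ((hasDerivAt_FF (η := η) (δ := δ) (a := δ / (2 * A ^ 2)) (b := δ / (2 * A))
      (hasDerivAt_slice (contDiff_xx hg) z v t) (hasDerivAt_slice contDiff_yy z v t)
      (yy_pos _)).fun_add ((hasDerivAt_slice contDiff_yy z v t).const_mul (CC A δ * η))).const_mul 2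
  refine D2_eq_of (contDiff_kap hg A δ η) h1 ?_
  have h2 := ((hasDerivAt_FF' (η := η) (δ := δ) (a := δ / (2 * A ^ 2)) (b := δ / (2 * A))
      (hasDerivAt_slice (contDiff_xx hg) z v 0) (hasDerivAt_slice contDiff_yy z v 0)
      (hasDerivAt_slice_fderiv (contDiff_xx hg) z v 0)
      (hasDerivAt_slice_fderiv contDiff_yy z v 0)
      (yy_pos _)).fun_add ((hasDerivAt_slice_fderiv contDiff_yy z v 0).const_mul
        (CC A δ * η))).const_mul 2
  simp only [zero_smul, add_zero] at h2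
  exact h2

/-- The weight is plurisubharmonic. -/
lemma kap_psh {g : V n → ℂ} (hg : ContDiff ℂ ∞ g) {A δ η : ℝ} (hδ : 0 < δ) (hδA : δ ≤ A)
    (hη : 0 ≤ η) (hη1 : η ≤ 1) (hA : ∀ z, xx g z ≤ A * yy z) (z w : V n) :
    0 ≤ D2 (kap g A δ η) z w + D2 (kap g A δ η) z (Complex.I • w) := by
  have hApos : 0 < A := lt_of_lt_of_le hδ hδA
  set a := δ / (2 * A ^ 2) with ha
  set b := δ / (2 * A) with hb
  set s := xx g z / yy z with hs
  have hy := yy_pos z
  have hy1 := one_le_yy z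
  have hs0 : 0 ≤ s := div_nonneg (xx_nonneg g z) hy.le
  have hsA : s ≤ A := by rw [hs, div_le_iff₀ hy]; exact hA z
  have ha0 : 0 < a := by positivity
  have hb1 : b ≤ 1 / 2 := by
    rw [hb, div_le_iff₀ (by positivity)]; linarith
  have hb0 : 0 < b := by positivity
  have haA : a * A = b := by rw [ha, hb]; field_simp
  have haA2 : a * A ^ 2 = δ / 2 := by rw [ha]; field_simp
  rw [kap_D2 hg A δ η z w a b s ha hb hs, kap_D2 hg A δ η z _ a b s ha hb hs]
  set E := Real.exp (-η * Real.log (yy z)) with hE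
  have hE0 : 0 < E := Real.exp_pos _
  have hE1 : E ≤ 1 := by
    rw [hE]
    apply Real.exp_le_one_iff.2
    have := Real.log_nonneg hy1
    nlinarith
  have hX := xx_psh hg z w
  obtain ⟨hY1, hY2⟩ := yy_bounds z w
  set X2 := D2 (xx g) z w
  set X2' := D2 (xx g) z (Complex.I • w)
  set Y2 := D2 yy z w
  set Y2' := D2 yy z (Complex.I • w)
  set y1 := fderiv ℝ yy z w
  set y1' := fderiv ℝ yy z (Complex.I • w)
  set d := fderiv ℝ (xx g) z w - s * y1
  set d' := fderiv ℝ (xx g) z (Complex.I • w) - s * y1'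
  set p1 := 1 - b + 2 * a * s with hp1
  set p := δ + (1 - b) * s + a * s ^ 2 with hp
  have has : a * s ≤ b := by rw [← haA]; gcongr
  have hp1pos : 0 < p1 := by rw [hp1]; nlinarith [mul_nonneg ha0.le hs0]
  have hp12 : p1 ≤ 2 := by rw [hp1]; linarith
  have hp0 : 0 ≤ p := by
    rw [hp]
    have : 0 ≤ (1 - b) * s := mul_nonneg (by linarith) hs0
    positivity
  have hpA : p ≤ A + δ := by
    rw [hp]
    have h1 : a * s ^ 2 ≤ b * s := by
      have : a * s * s ≤ b * s := by gcongr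
      linarith [this, (by ring : a * s * s = a * s ^ 2)]
    nlinarith
  have hpsp : 0 ≤ δ - a * s ^ 2 := by
    have : a * s ^ 2 ≤ a * A ^ 2 := by gcongr
    rw [haA2] at this
    linarith
  have hYs : 0 ≤ Y2 + Y2' := by
    have h1 : 0 ≤ yy z * (Y2 + Y2') := (nsq_nonneg w).trans hY2
    exact nonneg_of_mul_nonneg_right h1 hy
  have hYy : (y1 ^ 2 + y1' ^ 2) / yy z ≤ Y2 + Y2' := by
    rw [div_le_iff₀ hy]; linarith
  have hQ : ∀ D Y : ℝ, -(η * (η * (p1 ^ 2 / (2 * a)) + p) * Y ^ 2) ≤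
      2 * a * D ^ 2 - 2 * η * p1 * D * Y - η * (1 - η) * p * Y ^ 2 := by
    intro D Y
    have h1 : 2 * a * D ^ 2 - 2 * η * p1 * D * Y - η * (1 - η) * p * Y ^ 2 +
        (η * (η * (p1 ^ 2 / (2 * a)) + p) * Y ^ 2) =
        2 * a * (D - η * p1 * Y / (2 * a)) ^ 2 + η ^ 2 * p * Y ^ 2 := by
      field_simp
      ring
    have h2 : 0 ≤ 2 * a * (D - η * p1 * Y / (2 * a)) ^ 2 + η ^ 2 * p * Y ^ 2 := by positivity
    linarith
  have hp1a : p1 ^ 2 / (2 * a) ≤ 4 * A ^ 2 / δ := by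
    have h4 : p1 ^ 2 ≤ 4 := by
      have := mul_le_mul hp12 hp12 hp1pos.le (by norm_num)
      linarith [this, (by ring : p1 * p1 = p1 ^ 2)]
    rw [div_le_div_iff₀ (by positivity) hδ]
    have h5 : a * (2 * A ^ 2) = δ := by rw [ha]; field_simp
    have h6 : 4 * A ^ 2 * (2 * a) = 4 * δ := by rw [← h5]; ring
    rw [h6]
    gcongr
  have hM : η * (p1 ^ 2 / (2 * a)) + p ≤ 4 * A ^ 2 / δ + (A + δ) := by
    have h1 : 0 ≤ p1 ^ 2 / (2 * a) := by positivity
    have h2 : η * (p1 ^ 2 / (2 * a)) ≤ 1 * (p1 ^ 2 / (2 * a)) :=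
      mul_le_mul_of_nonneg_right hη1 h1
    linarith
  set M := 4 * A ^ 2 / δ + (A + δ) with hMdef
  have hM0 : 0 ≤ M := by positivity
  have hCC : CC A δ = M + (A + δ) := by rw [hMdef, CC]; ring
  have hq1 := hQ d y1
  have hq2 := hQ d' y1'
  have hsum : -(η * M * (y1 ^ 2 + y1' ^ 2)) ≤
      (2 * a * d ^ 2 - 2 * η * p1 * d * y1 - η * (1 - η) * p * y1 ^ 2) +
      (2 * a * d' ^ 2 - 2 * η * p1 * d' * y1' - η * (1 - η) * p * y1' ^ 2) := by
    have h1 : η * (η * (p1 ^ 2 / (2 * a)) + p) * (y1 ^ 2 + y1' ^ 2) ≤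
        η * M * (y1 ^ 2 + y1' ^ 2) := by gcongr
    linarith
  have hsum' : -(η * M * (Y2 + Y2')) ≤
      (2 * a * d ^ 2 - 2 * η * p1 * d * y1 - η * (1 - η) * p * y1 ^ 2) / yy z +
      (2 * a * d' ^ 2 - 2 * η * p1 * d' * y1' - η * (1 - η) * p * y1' ^ 2) / yy z := by
    rw [← add_div]
    have h1 : -(η * M * (y1 ^ 2 + y1' ^ 2)) / yy z ≤ _ := div_le_div_of_nonneg_right hsum hy.le
    refine le_trans ?_ h1
    have h2 : -(η * M * (y1 ^ 2 + y1' ^ 2)) / yy z = -(η * M * ((y1 ^ 2 + y1' ^ 2) / yy z)) := by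
      ring
    rw [h2]
    have h3 : 0 ≤ η * M := mul_nonneg hη hM0
    have h4 := mul_le_mul_of_nonneg_left hYy h3
    linarith
  set B := (2 * a * d ^ 2 - 2 * η * p1 * d * y1 - η * (1 - η) * p * y1 ^ 2) / yy z
  set B' := (2 * a * d' ^ 2 - 2 * η * p1 * d' * y1' - η * (1 - η) * p * y1' ^ 2) / yy z
  rw [hCC]
  have h1 : 0 ≤ p1 * (X2 + X2') := mul_nonneg hp1pos.le hX
  have h2 : 0 ≤ (δ - a * s ^ 2) * (Y2 + Y2') := mul_nonneg hpsp hYs
  have h3 : η * p * (Y2 + Y2') ≤ η * (A + δ) * (Y2 + Y2') := by gcongr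
  have h4 : -(η * (M + (A + δ)) * (Y2 + Y2')) ≤ p1 * (X2 + X2') + (δ - a * s ^ 2) * (Y2 + Y2')
      - η * p * (Y2 + Y2') + (B + B') := by
    linarith
  have h5 : 0 ≤ η * (M + (A + δ)) * (Y2 + Y2') :=
    mul_nonneg (mul_nonneg hη (by positivity)) hYs
  set Q := η * (M + (A + δ)) * (Y2 + Y2') with hQdef
  set R := p1 * (X2 + X2') + (δ - a * s ^ 2) * (Y2 + Y2') - η * p * (Y2 + Y2') + (B + B') with hR
  have h6 : E * (-Q) ≤ E * R := mul_le_mul_of_nonneg_left h4 hE0.le
  have h7 : E * Q ≤ Q := mul_le_of_le_one_left h5 hE1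
  have h8 : 0 ≤ 2 * (E * R + Q) := by linarith
  refine h8.trans (le_of_eq ?_)
  rw [hR, hQdef]
  ring

end Pool.Agent.Lib.MP_ce3242_an
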